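import Pool.Agent.Run7.h301.SL.Real
import Pool.Agent.N164.NC.Rank

/-!
# The share law
-/

set_option autoImplicit false
set_option linter.unusedSectionVars false

open CategoryTheory Limits MonoidalCategory Module Filter

namespace Pool.Agent.Run7.h301.SL

open Pool.Agent.Y112.SR Pool.Agent.Y112.KD Pool.Agent.R484.NC

universe v u w

section

variable {C : Type u} [Category.{v} C] [Preadditive C] [Linear ℚ C] [MonoidalCategory C]
  [SymmetricCategory C] {K : Type w} [Field K] (R : SuperRealisation C K)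

lemma splitDims_eq (M : C) : splitDims R M = ranks (R.par M).hom (combs R M) := by
  have hc := R_charZero R
  have hM := R.finite M
  have hP := isPA R M
  ext r
  constructor
  · rintro ⟨e0, e1, ⟨h0, h1, h2⟩, ⟨k0, k1, k2⟩, rfl⟩
    refine ⟨e0 + e1, ⟨e0, ⟨h0, h2⟩, e1, ⟨k0, k2⟩, h1, k1, rfl⟩, ?_⟩
    rw [Pool.Agent.N536.HK.rank_add h1 k1 (pure_orth hP one_ne_neg_one ⟨h0, h2⟩ ⟨k0, k2⟩)
      (pure_orth hP (Ne.symm one_ne_neg_one) ⟨k0, k2⟩ ⟨h0, h2⟩)]
  · rintro ⟨e, ⟨e0, h0, e1, k0, h1, k1, rfl⟩, rfl⟩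
    refine ⟨e0, e1, ⟨h0.1, h1, h0.2⟩, ⟨k0.1, k1, k0.2⟩, ?_⟩
    rw [Pool.Agent.N536.HK.rank_add h1 k1 (pure_orth hP one_ne_neg_one h0 k0)
      (pure_orth hP (Ne.symm one_ne_neg_one) k0 h0)]

lemma splitDim_eq (M : C) : splitDim R M = cdim (R.par M).hom (combs R M) := by
  rw [splitDim, splitDims_eq, cdim]

theorem isGreatest (M : C) : IsGreatest (splitDims R M) (splitDim R M) := by
  have hc := R_charZero R
  have hM := R.finite M
  rw [splitDim_eq, splitDims_eq]
  exact isGreatest_cdim (isPA R M)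

lemma splitDim_le (M : C) : splitDim R M ≤ totalDim R M := by
  have hc := R_charZero R
  have hM := R.finite M
  rw [splitDim_eq]
  exact cdim_le (isPA R M)

lemma splitDim_eq_iff (M : C) : splitDim R M = totalDim R M ↔ (R.par M).hom ∈ combs R M := by
  have hc := R_charZero R
  have hM := R.finite M
  rw [splitDim_eq]
  exact cdim_eq_iff (isPA R M)

/-- The sign conjecture descends from combinations of endomorphisms with coefficients in `K` to
endomorphisms. -/
def Descends (R : SuperRealisation C K) : Prop := ∀ M : C, (R.par M).hom ∈ combs R M → R.CPlus M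

lemma descends_of_scalars (h : ∀ (M : C) (c : K) (f : M ⟶ M), ∃ g : M ⟶ M,
    R.H.map g = c • R.H.map f) : Descends R := by
  intro M hM
  rw [cplus_iff]
  have key : ∀ y ∈ combs R M, ∃ g : M ⟶ M, (R.H.map g).hom = y := by
    intro y hy
    induction hy using Submodule.span_induction with
    | mem y hy => obtain ⟨f, rfl⟩ := hy; exact ⟨f, rfl⟩
    | zero => exact ⟨0, by rw [Functor.map_zero]; rfl⟩
    | add x y _ _ hx hy =>
      obtain ⟨f, rfl⟩ := hx
      obtain ⟨g, rfl⟩ := hy
      exact ⟨f + g, by rw [Functor.map_add]; rfl⟩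
    | smul c x _ hx =>
      obtain ⟨f, rfl⟩ := hx
      obtain ⟨g, hg⟩ := h M c f
      exact ⟨g, by rw [hg]; rfl⟩
  obtain ⟨g, hg⟩ := key _ hM
  exact ⟨g, ModuleCat.hom_ext hg⟩

lemma cplus_mem {M : C} (h : R.CPlus M) : (R.par M).hom ∈ combs R M := by
  rw [cplus_iff] at h
  obtain ⟨g, hg⟩ := h
  rw [← hg]
  exact hom_mem R M g

variable {R}

theorem cplus_iff_split (hD : Descends R) (M : C) : R.CPlus M ↔ splitDim R M = totalDim R M := by
  rw [splitDim_eq_iff]
  exact ⟨cplus_mem R, hD M⟩

/-- A space of dimension at most one. -/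
lemma two_le_of_not (hD : Descends R) {M : C} (h : ¬ R.CPlus M) : 2 ≤ totalDim R M := by
  have hM := R.finite M
  by_contra hlt
  push Not at hlt
  apply h
  apply hD
  interval_cases hn : totalDim R M
  · have : Subsingleton (R.H.obj M) := Module.finrank_zero_iff.1 hn
    have h1 : (R.par M).hom = 0 := LinearMap.ext fun x => Subsingleton.elim _ _
    rw [h1]
    exact Submodule.zero_mem _
  · obtain ⟨v, hv, hv'⟩ := finrank_eq_one_iff'.1 hn
    obtain ⟨c, hc⟩ := hv' ((R.par M).hom v)
    have h1 : (R.par M).hom = c • (1 : Module.End K (R.H.obj M)) := by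
      apply LinearMap.ext
      intro x
      obtain ⟨a, rfl⟩ := hv' x
      rw [map_smul, ← hc, LinearMap.smul_apply, Module.End.one_apply, smul_comm]
    rw [h1]
    exact Submodule.smul_mem _ _ (isPA R M).one

end

section

variable {C : Type u} [Category.{v} C] [Preadditive C] [Linear ℚ C] [MonoidalCategory C]
  [SymmetricCategory C] {K : Type w} [Field K] (R : SuperRealisation C K)

/-- **Direct sums.** -/
theorem splitDim_sum {M N S : C} (h : IsSum M N S) :
    splitDim R S = splitDim R M + splitDim R N := by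
  have hc := R_charZero R
  have hM := R.finite M
  have hN := R.finite N
  have hS := R.finite S
  obtain ⟨i, r, i', r', h1, h2, h3, h4, h5⟩ := h
  rw [splitDim_eq, splitDim_eq, splitDim_eq]
  have hm : ∀ {X Y Z : C} (f : X ⟶ Y) (g : Y ⟶ Z),
      (R.H.map g).hom ∘ₗ (R.H.map f).hom = (R.H.map (f ≫ g)).hom := by
    intro X Y Z f g
    rw [Functor.map_comp, ModuleCat.hom_comp]
  have hid : ∀ X : C, (R.H.map (𝟙 X)).hom = LinearMap.id := by
    intro X
    rw [CategoryTheory.Functor.map_id, ModuleCat.hom_id]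
  have hpar : ∀ {X Y : C} (f : X ⟶ Y), (R.par Y).hom ∘ₗ (R.H.map f).hom =
      (R.H.map f).hom ∘ₗ (R.par X).hom := by
    intro X Y f
    have := congrArg ModuleCat.Hom.hom (R.par_natural f)
    rwa [ModuleCat.hom_comp, ModuleCat.hom_comp] at this
  have hmem : ∀ {X Y : C} (a : X ⟶ Y) (b : Y ⟶ X), ∀ F ∈ combs R Y,
      (R.H.map b).hom ∘ₗ F ∘ₗ (R.H.map a).hom ∈ combs R X := by
    intro X Y a b F hF
    let L : Module.End K (R.H.obj Y) →ₗ[K] Module.End K (R.H.obj X) :=
      { toFun := fun F => (R.H.map b).hom ∘ₗ F ∘ₗ (R.H.map a).hom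
        map_add' := fun F G => by rw [LinearMap.add_comp, LinearMap.comp_add]
        map_smul' := fun c F => by rw [LinearMap.smul_comp, LinearMap.comp_smul]; rfl }
    refine combs_le R L _ (fun f => ?_) F hF
    have h6 : L (R.H.map f).hom = (R.H.map (a ≫ f ≫ b)).hom := by
      rw [Functor.map_comp, Functor.map_comp, ModuleCat.hom_comp, ModuleCat.hom_comp]
      rfl
    rw [h6]
    exact hom_mem R X _
  refine cdim_sum (isPA R M) (isPA R N) (isPA R S) (i := (R.H.map i).hom) (r := (R.H.map r).hom)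
    (i' := (R.H.map i').hom) (r' := (R.H.map r').hom) ?_
  exact
    { ri := by rw [hm, h1, hid]
      ri' := by rw [hm, h2, hid]
      ri0 := by rw [hm, h3, Functor.map_zero]; rfl
      ri0' := by rw [hm, h4, Functor.map_zero]; rfl
      sum := by
        rw [hm, hm, ← hid S, ← h5, Functor.map_add, ModuleCat.hom_add]
      par := hpar i
      par' := hpar i'
      parr := (hpar r).symm
      parr' := (hpar r').symm
      mem := fun F hF => hmem r i F hF
      mem' := fun F hF => hmem r' i' F hF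
      res := fun F hF => hmem i r F hF
      res' := fun F hF => hmem i' r' F hF }

variable [RightRigidCategory C]

/-- **Tensor products.** -/
theorem splitDim_tensor (M N : C) : splitDim R M * splitDim R N ≤ splitDim R (M ⊗ N) ∧
    splitDim R (M ⊗ N) ≤ splitDim R M * splitDim R N +
      (totalDim R M - splitDim R M) * (totalDim R N - splitDim R N) := by
  have hc := R_charZero R
  have hM := R.finite M
  have hN := R.finite N
  rw [splitDim_eq, splitDim_eq, splitDim_eq]
  exact cdim_prod (isPA R M) (isPA R N) (isPA R (M ⊗ N)) (isPA R (N ⊗ M)) (isProd R M N)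
    (isProd R N M) (isSwap R M N)

lemma totalDim_tensor (M N : C) : totalDim R (M ⊗ N) = totalDim R M * totalDim R N := by
  rw [totalDim, ← LinearEquiv.finrank_eq (mu R M N), finrank_tensorProduct]
  rfl

lemma totalDim_unit : totalDim R (𝟙_ C) = 1 := by
  have h1 : Module.finrank K (𝟙_ (ModuleCat.{w} K) : ModuleCat.{w} K) = 1 := finrank_self K
  rw [totalDim, ← h1]
  exact (LinearEquiv.finrank_eq (Functor.Monoidal.εIso R.H).toLinearEquiv).symm

lemma totalDim_pow (M : C) (n : ℕ) : totalDim R (pow M n) = totalDim R M ^ n := by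
  induction n with
  | zero => exact totalDim_unit R
  | succ n ih =>
    rw [pow_succ, ← ih]
    exact totalDim_tensor R _ _

/-- The sign conjecture for one factor. -/
theorem splitDim_tensor_of_cplus {M N : C} (h : R.CPlus N) :
    splitDim R (M ⊗ N) = splitDim R M * totalDim R N := by
  have h1 := (splitDim_eq_iff R N).2 (cplus_mem R h)
  obtain ⟨h2, h3⟩ := splitDim_tensor R M N
  rw [h1] at h2 h3
  rw [Nat.sub_self, mul_zero, add_zero] at h3
  exact le_antisymm h3 h2

/-- The recursion. -/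
lemma recursion (M : C) (n : ℕ) :
    2 * (splitDim R (pow M (n + 1)) : ℤ) - (totalDim R M : ℤ) ^ (n + 1) ≤
      (2 * splitDim R M - totalDim R M) *
        (2 * (splitDim R (pow M n) : ℤ) - (totalDim R M : ℤ) ^ n) := by
  have h1 := (splitDim_tensor R (pow M n) M).2
  have h1' : splitDim R (pow M (n + 1)) ≤ splitDim R (pow M n) * splitDim R M +
      (totalDim R (pow M n) - splitDim R (pow M n)) * (totalDim R M - splitDim R M) := h1
  rw [totalDim_pow] at h1'
  have h2 : splitDim R (pow M n) ≤ totalDim R M ^ n := by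
    rw [← totalDim_pow]
    exact splitDim_le R _
  have h3 := splitDim_le R M
  have h4 : (splitDim R (pow M (n + 1)) : ℤ) ≤ (splitDim R (pow M n) : ℤ) * splitDim R M +
      ((totalDim R M : ℤ) ^ n - splitDim R (pow M n)) *
        ((totalDim R M : ℤ) - splitDim R M) := by
    have h5 : ((splitDim R (pow M n) * splitDim R M +
      (totalDim R M ^ n - splitDim R (pow M n)) * (totalDim R M - splitDim R M) : ℕ) : ℤ) =
        (splitDim R (pow M n) : ℤ) * splitDim R M +
      ((totalDim R M : ℤ) ^ n - splitDim R (pow M n)) *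
        ((totalDim R M : ℤ) - splitDim R M) := by
      push_cast [Nat.cast_sub h2, Nat.cast_sub h3]
      ring
    rw [← h5]
    exact_mod_cast h1'
  have h6 : (totalDim R M : ℤ) ^ (n + 1) = (totalDim R M : ℤ) ^ n * totalDim R M := pow_succ _ _
  rw [h6]
  linarith

variable {R}

/-- **The law, one object.** -/
theorem halfAt (hD : Descends R) {M : C} (hC : ¬ R.CPlus M) (n : ℕ) : HalfAt R M n := by
  set b := totalDim R M with hb
  set c := splitDim R M with hc
  have hlt : c < b := lt_of_le_of_ne (splitDim_le R M) fun h =>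
    hC ((cplus_iff_split hD M).2 h)
  have hrec := recursion R M
  unfold HalfAt
  rw [← hb]
  by_cases h0 : (0 : ℤ) ≤ 2 * c - b
  · left
    have hb2 : 2 ≤ b := by omega
    have h1 : ∀ m : ℕ, 2 * (splitDim R (pow M m) : ℤ) - (b : ℤ) ^ m ≤ (2 * c - b : ℤ) ^ m := by
      intro m
      induction m with
      | zero =>
        have h2 := splitDim_le R (pow M 0)
        rw [totalDim_pow, pow_zero] at h2
        rw [pow_zero, pow_zero]
        omega
      | succ m ih =>
        refine (hrec m).trans ?_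
        rw [pow_succ (2 * c - b : ℤ), mul_comm ((2 * c - b : ℤ) ^ m)]
        exact mul_le_mul_of_nonneg_left ih h0
    have h2 : (2 * c - b : ℤ) ^ n ≤ ((b - 2 : ℕ) : ℤ) ^ n := by
      apply pow_le_pow_left₀ h0
      rw [Nat.cast_sub hb2]
      push_cast
      omega
    have h3 := (h1 n).trans h2
    zify
    linarith
  · push Not at h0
    by_cases h1 : (0 : ℤ) ≤ 2 * (splitDim R (pow M n) : ℤ) - (b : ℤ) ^ n
    · right
      have h2 := hrec n
      have h3 : (2 * c - b : ℤ) * (2 * (splitDim R (pow M n) : ℤ) - (b : ℤ) ^ n) ≤ 0 :=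
        mul_nonpos_of_nonpos_of_nonneg h0.le h1
      have h4 : 2 * (splitDim R (pow M (n + 1)) : ℤ) ≤ (b : ℤ) ^ (n + 1) := by
        have h5 := h2.trans h3
        linarith
      have h6 : 2 * splitDim R (pow M (n + 1)) ≤ b ^ (n + 1) := by exact_mod_cast h4
      exact h6.trans (Nat.le_add_right _ _)
    · left
      push Not at h1
      have h4 : 2 * (splitDim R (pow M n) : ℤ) ≤ (b : ℤ) ^ n := by linarith
      have h6 : 2 * splitDim R (pow M n) ≤ b ^ n := by exact_mod_cast h4
      exact h6.trans (Nat.le_add_right _ _)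

/-- **The law.** -/
theorem signFromRate (hD : Descends R) : SignFromRate R := by
  rintro f hf M ⟨m₀, h⟩
  by_contra hC
  set b := totalDim R M with hb
  have hb2 : 2 ≤ b := two_le_of_not hD hC
  set θ : ℝ := max (1 - 2 / b) (1 / 2) with hθ
  have hbR : (2 : ℝ) ≤ b := by exact_mod_cast hb2
  have hθ0 : 0 < θ := lt_of_lt_of_le (by norm_num) (le_max_right _ _)
  have hθ1 : θ < 1 := max_lt (by
    have : 0 < 2 / (b : ℝ) := by positivity
    linarith) (by norm_num)
  have hθb : (b : ℝ) - 2 ≤ θ * b := by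
    have h1 : 1 - 2 / (b : ℝ) ≤ θ := le_max_left _ _
    have h2 : (1 - 2 / (b : ℝ)) * b = b - 2 := by
      field_simp
    rw [← h2]
    exact mul_le_mul_of_nonneg_right h1 (by linarith)
  set κ : ℝ := -Real.log θ / Real.log b with hκ
  have hlogb : 0 < Real.log b := Real.log_pos (by linarith)
  have hlogθ : Real.log θ < 0 := Real.log_neg hθ0 hθ1
  have hκ0 : 0 < κ := div_pos (by linarith) hlogb
  have hbκ : (b : ℝ) ^ κ * θ = 1 := by
    rw [Real.rpow_def_of_pos (by linarith), hκ, mul_div_cancel₀ _ hlogb.ne', Real.exp_neg,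
      Real.exp_log hθ0, inv_mul_cancel₀ hθ0.ne']
  have h1 : Tendsto (fun n : ℕ => b ^ n) atTop atTop :=
    _root_.tendsto_pow_atTop_atTop_of_one_lt (by omega : 1 < b)
  have h2 := ((hf κ hκ0).comp h1).eventually_gt_atTop 1
  rw [eventually_atTop] at h2
  obtain ⟨n₀, hn₀⟩ := h2
  -- a large exponent
  obtain ⟨N, hN, hN'⟩ : ∃ N, n₀ + m₀ ≤ N ∧
      2 * splitDim R (pow M N) ≤ b ^ N + (b - 2) ^ N := by
    rcases halfAt hD hC (n₀ + m₀) with h3 | h3
    · exact ⟨n₀ + m₀, le_rfl, h3⟩
    · exact ⟨n₀ + m₀ + 1, Nat.le_succ _, h3⟩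
  have h3 := h N (by omega)
  rw [MoreThanHalf, totalDim_pow, ← hb] at h3
  have h4 := hn₀ N (by omega)
  simp only [Function.comp_apply] at h4
  have h5 : (2 : ℝ) * splitDim R (pow M N) ≤ (b : ℝ) ^ N + ((b : ℝ) - 2) ^ N := by
    have h6 : ((2 * splitDim R (pow M N) : ℕ) : ℝ) ≤ ((b ^ N + (b - 2) ^ N : ℕ) : ℝ) := by
      exact_mod_cast hN'
    push_cast [Nat.cast_sub hb2] at h6
    exact h6
  have h6 : ((b : ℝ) - 2) ^ N ≤ θ ^ N * (b : ℝ) ^ N := by
    rw [← mul_pow]
    exact pow_le_pow_left₀ (by linarith) hθb _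
  have hBpos : (0 : ℝ) < (b : ℝ) ^ N := by positivity
  push_cast at h3
  have h7 : 2 * f (b ^ N) * (b : ℝ) ^ N ≤ θ ^ N * (b : ℝ) ^ N := by
    nlinarith
  have h8 : 2 * f (b ^ N) ≤ θ ^ N := le_of_mul_le_mul_right h7 hBpos
  have h9 : ((b ^ N : ℕ) : ℝ) ^ κ = ((b : ℝ) ^ κ) ^ N := by
    push_cast
    rw [← Real.rpow_natCast, ← Real.rpow_natCast, ← Real.rpow_mul (by linarith),
      ← Real.rpow_mul (by linarith), mul_comm]
  rw [h9] at h4
  have h10 : (0 : ℝ) < ((b : ℝ) ^ κ) ^ N := by positivity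
  have h11 : 2 * f (b ^ N) * ((b : ℝ) ^ κ) ^ N ≤ 1 := by
    refine (mul_le_mul_of_nonneg_right h8 h10.le).trans (le_of_eq ?_)
    rw [← mul_pow, mul_comm θ, hbκ, one_pow]
  nlinarith

/-- **The law with a constant.** -/
theorem signIffHalf (hD : Descends R) : SignIffHalf R := by
  intro ε h0 h1
  have hrate : ∀ κ : ℝ, 0 < κ → Tendsto (fun y : ℕ => ε * (y : ℝ) ^ κ) atTop atTop := by
    intro κ hκ
    apply Tendsto.const_mul_atTop h0
    exact (tendsto_rpow_atTop hκ).comp tendsto_natCast_atTop_atTop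
  have hof : ∀ M : C, R.CPlus M → MoreThanHalf R (fun _ => ε) M := by
    intro M h
    rw [MoreThanHalf, (cplus_iff_split hD M).1 h]
    have h2 : (0 : ℝ) ≤ totalDim R M := by positivity
    nlinarith
  refine ⟨fun M => ⟨fun h => ⟨0, fun n _ => hof _ (cplus_pow R h n)⟩, fun h => ?_⟩,
    fun h M => hof M (h M), fun h M => ?_⟩
  · exact signFromRate hD (fun _ => ε) hrate M h
  · exact signFromRate hD (fun _ => ε) hrate M ⟨0, fun n _ => h _⟩

/-- Rational coefficients. -/
lemma descends_of_unitQ [MonoidalPreadditive C] [MonoidalLinear ℚ C] (hU : UnitQ C) :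
    Descends R := by
  intro M hM
  apply Pool.Agent.N164.NC.cplus_of_span R hU
  have hc := R_charZero R
  have h2 : (2 : K) ≠ 0 := two_ne_zero
  have h3 : evp R M = (2 : K)⁻¹ • ((1 : Module.End K (R.H.obj M)) + (R.par M).hom) := by
    rw [par_hom]
    have : (1 : Module.End K (R.H.obj M)) + (evp R M - (1 - evp R M)) = (2 : K) • evp R M := by
      rw [two_smul]
      abel
    rw [this, smul_smul, inv_mul_cancel₀ h2, one_smul]
  rw [h3]
  exact Submodule.smul_mem _ _ (Submodule.add_mem _ (isPA R M).one hM)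

end

end Pool.Agent.Run7.h301.SL
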