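import Pool.Agent.Run7.h301.SL.Desc
import Pool.Agent.Run7.h301.SL.Main

/-!
# Descent for a field of coefficients
-/

set_option autoImplicit false
set_option linter.unusedSectionVars false
set_option linter.unusedSimpArgs false
set_option backward.isDefEq.respectTransparency false
set_option backward.defeqAttrib.useBackward true

open CategoryTheory Limits MonoidalCategory Module

namespace Pool.Agent.Run7.h301.SL

open Pool.Agent.Y112.SR Pool.Agent.R484.NC Functor.LaxMonoidal Functor.OplaxMonoidal
open Pool.Agent.Y116.MT (tr)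

universe v u w

variable {C : Type u} [Category.{v} C] [Preadditive C] [Linear ℚ C] [MonoidalCategory C]
  [SymmetricCategory C] [RightRigidCategory C] {K : Type w} [Field K]
  (R : SuperRealisation C K) {L : Type*} [Field L] [Linear L C] [Algebra L K]

/-- The supertrace of an endomorphism is in the field of coefficients. -/
lemma str_mem (hR : Coefficients L R) {X : C} (a : X ⟶ X) : ∃ q : L, str R a = algebraMap L K q := by
  have h0 := R.finite X
  have hc := R_charZero R
  obtain ⟨q, hq⟩ := hR.unit (tr a)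
  refine ⟨q, ?_⟩
  have h1 := Pool.Agent.Y116.MT.vec_trace (coe R X) (evb R X) (zigzag R X) (R.H.map a ≫ R.par X)
  have h3 : coe R X ≫ R.H.map a ▷ R.H.obj Xᘁ ≫ eva R X =
      (LinearMap.trace K (R.H.obj X) (R.H.map a ≫ R.par X).hom) • 𝟙 _ := by
    rw [eva_eq R two_ne_zero, ← h1, ← unit_hom]
    simp only [comp_whiskerRight, Category.assoc]
  have h4 : ε R.H ≫ R.H.map (tr a) ≫ η R.H = coe R X ≫ R.H.map a ▷ R.H.obj Xᘁ ≫ eva R X := by
    simp only [tr, coe, eva, Functor.map_comp, Functor.Monoidal.map_whiskerRight, Category.assoc,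
      Functor.Monoidal.μ_δ_assoc]
  have h5 : ε R.H ≫ R.H.map (tr a) ≫ η R.H = (algebraMap L K q) • 𝟙 _ := by
    rw [hq, hR.linear, CategoryTheory.Functor.map_id, Linear.smul_comp, Linear.comp_smul,
      Category.id_comp, Functor.Monoidal.ε_η]
  have h6 := h5.symm.trans (h4.trans h3)
  have h7 := LinearMap.congr_fun (congrArg ModuleCat.Hom.hom h6) (1 : K)
  change (algebraMap L K q) • (1 : K) =
    (LinearMap.trace K (R.H.obj X) (R.H.map a ≫ R.par X).hom) • (1 : K) at h7
  rw [smul_eq_mul, smul_eq_mul, mul_one, mul_one] at h7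
  exact h7.symm

/-- **Descent to the field of coefficients.** -/
theorem descends_of_coefficients (hR : Coefficients L R) : Descends R := by
  intro M hM
  have hc := R_charZero R
  have hfin := R.finite M
  have h2 : (2 : K) ≠ 0 := two_ne_zero
  have hmul := (isPA R M).mul
  have hone := (isPA R M).one
  have h : evp R M ∈ combs R M := by
    have h3 : evp R M = (2 : K)⁻¹ • ((1 : Module.End K (R.H.obj M)) + (R.par M).hom) := by
      rw [par_hom]
      have : (1 : Module.End K (R.H.obj M)) + (evp R M - (1 - evp R M)) = (2 : K) • evp R M := by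
        rw [two_smul]
        abel
      rw [this, smul_smul, inv_mul_cancel₀ h2, one_smul]
    rw [h3]
    exact Submodule.smul_mem _ _ (Submodule.add_mem _ (isPA R M).one hM)
  rw [cplus_iff_op]
  obtain ⟨S, hS⟩ : ∃ S : Subalgebra K (Module.End K (R.H.obj M)),
      S = (combs R M).toSubalgebra hone (fun a b ha hb => hmul a ha b hb) := ⟨_, rfl⟩
  have hmemS : ∀ x, x ∈ S ↔ x ∈ combs R M := by
    intro x
    rw [hS]
    rfl
  obtain ⟨A, hAd⟩ : ∃ A : Set S, A = {x : S | ∃ f : M ⟶ M, op R f = x.1} := ⟨_, rfl⟩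
  have hA : ∀ x : S, x ∈ A ↔ ∃ f : M ⟶ M, op R f = x.1 := by
    intro x
    rw [hAd]
    rfl
  have hcomm : ∀ x ∈ combs R M, evp R M * x = x * evp R M := by
    intro x hx
    have h4 := (isPA R M).comm x hx
    rw [par_hom] at h4
    have h5 : (2 : K) • (evp R M * x) = (2 : K) • (x * evp R M) := by
      have e1 : (2 : K) • (evp R M * x) = (evp R M - (1 - evp R M)) * x + x := by
        rw [two_smul]
        noncomm_ring
      have e2 : (2 : K) • (x * evp R M) = x * (evp R M - (1 - evp R M)) + x := by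
        rw [two_smul]
        noncomm_ring
      rw [e1, e2, h4]
    have h6 := congrArg (fun z => (2 : K)⁻¹ • z) h5
    simpa only [smul_smul, inv_mul_cancel₀ h2, one_smul] using h6
  have hPS : evp R M ∈ S := (hmemS _).2 h
  have hmem : (⟨evp R M, hPS⟩ : S) ∈ A := by
    apply central_idem_mem_field (K := K) (L := L) (V := R.H.obj M) (A := A)
      ((hA _).2 ⟨𝟙 M, Pool.Agent.R484.NC.op_id R M⟩) ?_ ?_ ?_ ?_ S.val Subtype.val_injective
    · exact Subtype.ext (evp_idem R M)
    · exact fun x => Subtype.ext (hcomm x.1 ((hmemS _).1 x.2))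
    · intro x hx
      obtain ⟨f, hf⟩ := (hA x).1 hx
      obtain ⟨q, hq⟩ := str_mem R hR f
      refine ⟨q, ?_⟩
      have e1 : S.val ((⟨evp R M, hPS⟩ : S) * x) = evp R M * x.1 := rfl
      have e2 : S.val ((1 - (⟨evp R M, hPS⟩ : S)) * x) = (1 - evp R M) * x.1 := rfl
      rw [← hq, str_eq, e1, e2, ← map_sub, ← sub_mul, hf]
    · intro x hx y hy
      obtain ⟨f, hf⟩ := (hA x).1 hx
      obtain ⟨g, hg⟩ := (hA y).1 hy
      exact (hA _).2 ⟨f + g, by rw [Pool.Agent.R484.NC.op_add, hf, hg]; rfl⟩
    · intro q x hx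
      obtain ⟨f, hf⟩ := (hA x).1 hx
      refine (hA _).2 ⟨q • f, ?_⟩
      have h8 : op R (q • f) = algebraMap L K q • op R f := by
        rw [op, hR.linear, ModuleCat.hom_smul]
        rfl
      rw [h8, hf]
      rfl
    · intro x hx y hy
      obtain ⟨f, hf⟩ := (hA x).1 hx
      obtain ⟨g, hg⟩ := (hA y).1 hy
      exact (hA _).2 ⟨g ≫ f, by rw [Pool.Agent.R484.NC.op_comp, hf, hg]; rfl⟩
    · rw [eq_top_iff]
      rintro ⟨y, hy⟩ -
      have key : ∀ y (hy : y ∈ combs R M),
          (⟨y, (hmemS y).2 hy⟩ : S) ∈ Submodule.span K A := by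
        intro y hy
        induction hy using Submodule.span_induction with
        | mem y hy =>
          obtain ⟨f, hf⟩ := hy
          exact Submodule.subset_span ((hA _).2 ⟨f, hf⟩)
        | zero => exact Submodule.zero_mem _
        | add x y _ _ h1 h2 => exact Submodule.add_mem _ h1 h2
        | smul a x _ h1 => exact Submodule.smul_mem _ a h1
      exact key y ((hmemS y).1 hy)
  exact (hA _).1 hmem

end Pool.Agent.Run7.h301.SL
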