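import Pool.Agent.Run7.h301.SL.Ratio

/-!
# The sharper bound for a tensor product
-/

set_option autoImplicit false
set_option linter.unusedSectionVars false

open Module TensorProduct

namespace Pool.Agent.Run7.h301.SL

open Pool.Agent.H914 Pool.Agent.N536.HK

section One

variable {K V : Type*} [Field K] [CharZero K] [AddCommGroup V] [Module K V]
  [FiniteDimensional K V] {p : Module.End K V} {A : Submodule K (Module.End K V)}

lemma ppart_mul_idem (hp : p * p = 1) {s : K} (hs : s * s = 1) {e : Module.End K V}
    (hpe : p * e = e * p) (hee : e * e = e) :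
    (ppart p s * e) * (ppart p s * e) = ppart p s * e := by
  have h1 := ppart_comm hpe s
  calc (ppart p s * e) * (ppart p s * e) = ppart p s * (e * ppart p s) * e := by
        simp only [mul_assoc]
    _ = (ppart p s * ppart p s) * (e * e) := by rw [← h1]; simp only [mul_assoc]
    _ = ppart p s * e := by rw [ppart_idem hp hs, hee]

lemma ppart_sub (p : Module.End K V) : ppart p 1 - ppart p (-1) = p := by
  have h1 : (2 : K) • (ppart p 1 - ppart p (-1)) = (2 : K) • p := by
    rw [smul_sub, two_smul_ppart, two_smul_ppart, one_smul, neg_smul, one_smul, two_smul]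
    abel
  have h2 := congrArg (fun z => (2 : K)⁻¹ • z) h1
  simpa only [smul_smul, inv_mul_cancel₀ (two_ne_zero : (2 : K) ≠ 0), one_smul] using h2

/-- The dimensions of the even and of the odd part of a summand. -/
noncomputable def sdim (p : Module.End K V) (e : Module.End K V) (s : K) : ℕ :=
  finrank K (LinearMap.range (ppart p s * e))

lemma sdim_cast (h : IsPA p A) {s : K} (hs : s * s = 1) {e : Module.End K V} (he : e ∈ A)
    (hee : e * e = e) : (sdim p e s : K) = LinearMap.trace K V (ppart p s * e) :=
  (Pool.Agent.N536.HK.trace_idem (ppart_mul_idem h.sq hs (h.comm _ he) hee)).symm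

lemma sdim_add (h : IsPA p A) {e : Module.End K V} (he : e ∈ A) (hee : e * e = e) :
    sdim p e 1 + sdim p e (-1) = finrank K (LinearMap.range e) := by
  have h1 := sdim_cast h (by ring : (1 : K) * 1 = 1) he hee
  have h2 := sdim_cast h (by ring : (-1 : K) * (-1) = 1) he hee
  have h3 : LinearMap.trace K V e = LinearMap.trace K V (ppart p 1 * e) +
      LinearMap.trace K V (ppart p (-1) * e) := by
    rw [← map_add, ← add_mul, ppart_add, one_mul]
  rw [← h1, ← h2, Pool.Agent.N536.HK.trace_idem hee] at h3
  exact_mod_cast h3.symm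

lemma trace_par (h : IsPA p A) {e : Module.End K V} (he : e ∈ A) (hee : e * e = e) :
    LinearMap.trace K V (p * e) = (sdim p e 1 : K) - sdim p e (-1) := by
  rw [sdim_cast h (by ring : (1 : K) * 1 = 1) he hee,
    sdim_cast h (by ring : (-1 : K) * (-1) = 1) he hee, ← map_sub, ← sub_mul, ppart_sub]

lemma sdim_pos (h : IsPA p A) {s : K} (hs : s = 1 ∨ s = -1) {e : Module.End K V} (he : e ∈ A)
    (hn : e ∉ Pure p A (-s)) : 1 ≤ sdim p e s := by
  rw [Nat.one_le_iff_ne_zero]
  intro h0
  apply hn
  have h1 : ppart p s * e = 0 := LinearMap.range_eq_bot.1 (Submodule.finrank_eq_zero.1 h0)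
  have h2 : ppart p (-s) * e = e := by
    have h3 : ppart p s + ppart p (-s) = 1 := by
      rcases hs with rfl | rfl
      · exact ppart_add p
      · rw [neg_neg, add_comm]; exact ppart_add p
    calc ppart p (-s) * e = (ppart p s + ppart p (-s)) * e - ppart p s * e := by
          rw [add_mul]; abel
      _ = e := by rw [h3, h1, one_mul, sub_zero]
  have hs' : (-s) * (-s) = 1 := by rcases hs with rfl | rfl <;> ring
  refine ⟨he, ?_⟩
  rw [← h2, ← mul_assoc, par_ppart h.sq hs', smul_mul_assoc]

/-- The numbers of a summand. -/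
lemma exists_nums (h : IsPA p A) {ε0 ε1 : Module.End K V} (h0 : IsMaxIdem p A 1 ε0)
    (h1 : IsMaxIdem p A (-1) ε1) {e : Module.End K V} (he : e ∈ A) (hee : e * e = e) :
    ∃ c d : ℕ, (c : K) = LinearMap.trace K V (e * (ε0 + ε1)) ∧
      (d : K) = LinearMap.trace K V (e * (1 - (ε0 + ε1))) ∧
      c + d = finrank K (LinearMap.range e) := by
  obtain ⟨n0, hn0, hl0⟩ := trace_corner h (by ring : (1 : K) * 1 = 1) h0 he hee
  obtain ⟨n1, hn1, hl1⟩ := trace_corner h (by ring : (-1 : K) * (-1) = 1) h1 he hee
  have h2 := sdim_add h he hee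
  rw [sdim, sdim] at h2
  have h3 : n0 + n1 ≤ finrank K (LinearMap.range e) := by omega
  have h4 : ((n0 + n1 : ℕ) : K) = LinearMap.trace K V (e * (ε0 + ε1)) := by
    rw [mul_add, map_add, ← hn0, ← hn1]
    push_cast
    rfl
  refine ⟨n0 + n1, finrank K (LinearMap.range e) - (n0 + n1), h4, ?_, by omega⟩
  rw [mul_sub, mul_one, map_sub, ← h4, Nat.cast_sub h3, Pool.Agent.N536.HK.trace_idem hee]

end One

variable {K V W : Type*} [Field K] [CharZero K] [AddCommGroup V] [Module K V] [AddCommGroup W]
  [Module K W] [FiniteDimensional K V] [FiniteDimensional K W]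
  {U : Type*} [AddCommGroup U] [Module K U] {E : (V ⊗[K] W) ≃ₗ[K] U}
  {p : Module.End K V} {A : Submodule K (Module.End K V)} {p' : Module.End K W}
  {B : Submodule K (Module.End K W)} {q : Module.End K U} {D : Submodule K (Module.End K U)}
  {U' : Type*} [AddCommGroup U'] [Module K U'] {E' : (W ⊗[K] V) ≃ₗ[K] U'}
  {q' : Module.End K U'} {D' : Submodule K (Module.End K U')} {σ : U ≃ₗ[K] U'}

lemma ext_idem {e : Module.End K V} {f : Module.End K W} (hee : e * e = e) (hff : f * f = f) :
    ext E e f * ext E e f = ext E e f := by rw [ext_mul, hee, hff]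

/-- The dimensions of the even and the odd part of a tensor product. -/
lemma sdim_ext [FiniteDimensional K U] (hA : IsPA p A) (hB : IsPA p' B) (hD : IsPA q D)
    (h : IsProd E p A p' B q D)
    {e : Module.End K V} (he : e ∈ A) (hee : e * e = e) {f : Module.End K W} (hf : f ∈ B)
    (hff : f * f = f) :
    sdim q (ext E e f) 1 = sdim p e 1 * sdim p' f 1 + sdim p e (-1) * sdim p' f (-1) ∧
    sdim q (ext E e f) (-1) = sdim p e 1 * sdim p' f (-1) + sdim p e (-1) * sdim p' f 1 := by
  have hX := h.mem _ he _ hf
  have hXX := ext_idem (E := E) hee hff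
  have h1 := sdim_cast hD (by ring : (1 : K) * 1 = 1) hX hXX
  have h2 := sdim_cast hD (by ring : (-1 : K) * (-1) = 1) hX hXX
  have h3 : LinearMap.trace K U (q * ext E e f) =
      LinearMap.trace K V (p * e) * LinearMap.trace K W (p' * f) := by
    rw [h.par, ext_mul, trace_ext]
  have h4 : ∀ s : K, (2 : K) * LinearMap.trace K U (ppart q s * ext E e f) =
      LinearMap.trace K U (ext E e f) + s * LinearMap.trace K U (q * ext E e f) := by
    intro s
    have h5 : (2 : K) • (ppart q s * ext E e f) = ext E e f + s • (q * ext E e f) := by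
      rw [← smul_mul_assoc, two_smul_ppart, add_mul, one_mul, smul_mul_assoc]
    have h6 := congrArg (LinearMap.trace K U) h5
    rwa [map_smul, map_add, map_smul, smul_eq_mul, smul_eq_mul] at h6
  have h7 : LinearMap.trace K V e = (sdim p e 1 : K) + sdim p e (-1) := by
    rw [Pool.Agent.N536.HK.trace_idem hee, ← sdim_add hA he hee]
    push_cast
    rfl
  have h8 : LinearMap.trace K W f = (sdim p' f 1 : K) + sdim p' f (-1) := by
    rw [Pool.Agent.N536.HK.trace_idem hff, ← sdim_add hB hf hff]
    push_cast
    rfl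
  have h9 := h4 1
  have h10 := h4 (-1)
  rw [← h1, h3, trace_ext, h7, h8, trace_par hA he hee, trace_par hB hf hff] at h9
  rw [← h2, h3, trace_ext, h7, h8, trace_par hA he hee, trace_par hB hf hff] at h10
  have h2' : (2 : K) ≠ 0 := two_ne_zero
  constructor
  · have : (sdim q (ext E e f) 1 : K) =
        ((sdim p e 1 * sdim p' f 1 + sdim p e (-1) * sdim p' f (-1) : ℕ) : K) := by
      apply mul_left_cancel₀ h2'
      rw [h9]
      push_cast
      ring
    exact_mod_cast this
  · have : (sdim q (ext E e f) (-1) : K) =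
        ((sdim p e 1 * sdim p' f (-1) + sdim p e (-1) * sdim p' f 1 : ℕ) : K) := by
      apply mul_left_cancel₀ h2'
      rw [h10]
      push_cast
      ring
    exact_mod_cast this

/-- **The ratio law.** Let `e` and `f` be primitive and `y` of parity `s`. If the trace of
`(e ⊗ f) y` is not zero, then the dimensions of the even and odd parts of `e` and `f` have the same
ratio, for `s = 1`, and inverse ratios, for `s = -1`. -/
theorem ratio [FiniteDimensional K U] (hA : IsPA p A) (hB : IsPA p' B)
    (hD : IsPA q D) (hD' : IsPA q' D')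
    (h : IsProd E p A p' B q D) (h' : IsProd E' p' B p A q' D')
    (hσ : IsSwap E E' σ p p' q D q' D') {e : Module.End K V} (he : Prim A e)
    {f : Module.End K W} (hf : Prim B f) :
    (∀ y ∈ Pure q D 1, LinearMap.trace K U (ext E e f * y) ≠ 0 →
      sdim p e 1 ≠ sdim p e (-1) ∧ sdim p e 1 * sdim p' f (-1) = sdim p' f 1 * sdim p e (-1)) ∧
    (∀ y ∈ Pure q D (-1), LinearMap.trace K U (ext E e f * y) ≠ 0 →
      sdim p e 1 ≠ sdim p e (-1) ∧ sdim p e 1 * sdim p' f 1 = sdim p e (-1) * sdim p' f (-1)) := by
  have o1 : (1 : K) * 1 = 1 := by ring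
  have o2 : (-1 : K) * (-1) = 1 := by ring
  have ca1 := sdim_cast hA o1 he.1 he.2.1
  have ca2 := sdim_cast hA o2 he.1 he.2.1
  have cb1 := sdim_cast hB o1 hf.1 hf.2.1
  have cb2 := sdim_cast hB o2 hf.1 hf.2.1
  -- the four traces
  have dec1 : ∀ (r : K) (y : Module.End K U), LinearMap.trace K U (ext E (ppart p r * e) f * y) =
      LinearMap.trace K U (ext E (ppart p r * e) (ppart p' 1 * f) * y) +
      LinearMap.trace K U (ext E (ppart p r * e) (ppart p' (-1) * f) * y) := by
    intro r y
    rw [← map_add, ← add_mul, ← ext_add_right, ← add_mul, ppart_add, one_mul]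
  have dec2 : ∀ (r : K) (y : Module.End K U), LinearMap.trace K U (ext E e (ppart p' r * f) * y) =
      LinearMap.trace K U (ext E (ppart p 1 * e) (ppart p' r * f) * y) +
      LinearMap.trace K U (ext E (ppart p (-1) * e) (ppart p' r * f) * y) := by
    intro r y
    rw [← map_add, ← add_mul, ← ext_add_left, ← add_mul, ppart_add, one_mul]
  have dec3 : ∀ (y : Module.End K U), LinearMap.trace K U (ext E e f * y) =
      LinearMap.trace K U (ext E (ppart p 1 * e) f * y) +
      LinearMap.trace K U (ext E (ppart p (-1) * e) f * y) := by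
    intro y
    rw [← map_add, ← add_mul, ← ext_add_left, ← add_mul, ppart_add, one_mul]
  have hside' : ∀ {s : K}, s * s = 1 → ∀ y ∈ Pure q D s, ∃ c : K, ∀ r : K, r * r = 1 →
      LinearMap.trace K U (ext E e (ppart p' r * f) * y) =
        r * (c * LinearMap.trace K W (ppart p' r * f)) := by
    intro s hs y hy
    have hσy : σ.conj y ∈ Pure q' D' s := by
      refine ⟨hσ.mem y hy.1, ?_⟩
      rw [← hσ.par, ← conj_mul', hy.2, map_smul]
    obtain ⟨c, hc⟩ := side hB hA hD' h' hs hσy hf he.1
    refine ⟨c, fun r hr => ?_⟩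
    rw [← hc r hr]
    have hcomm : p' * (ppart p' r * f) = ppart p' r * f * p' := by
      rw [← mul_assoc, ← ppart_comm rfl r, mul_assoc, hB.comm _ hf.1, mul_assoc]
    rw [← hσ.ext e (ppart p' r * f) (hA.comm _ he.1) hcomm, ← conj_mul', LinearMap.trace_conj']
  constructor
  · intro y hy hne
    obtain ⟨c, hc⟩ := side hA hB hD h o1 hy he hf.1
    obtain ⟨c', hc'⟩ := hside' o1 y hy
    have x1 := cross hA hB hD h o1 hy o1 o2 (by ring) e f
    have x2 := cross hA hB hD h o1 hy o2 o1 (by ring) e f
    have e1 := hc 1 o1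
    have e2 := hc (-1) o2
    have e3 := hc' 1 o1
    have e4 := hc' (-1) o2
    rw [dec1, x1, add_zero, ← ca1] at e1
    rw [dec1, x2, zero_add, ← ca2] at e2
    rw [dec2, x2, add_zero, ← cb1] at e3
    rw [dec2, x1, zero_add, ← cb2] at e4
    rw [dec3, dec1, dec1, x1, x2, add_zero, zero_add] at hne
    rw [e1, e2] at hne
    have f1 : c * (sdim p e 1 : K) = c' * sdim p' f 1 := by linear_combination e3 - e1
    have f2 : c * (sdim p e (-1) : K) = c' * sdim p' f (-1) := by linear_combination e2 - e4
    have hcc : c ≠ 0 := by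
      rintro rfl
      apply hne
      ring
    have hcc' : c' ≠ 0 := by
      rintro rfl
      rw [zero_mul] at f1 f2
      apply hne
      rw [f1, f2]
      ring
    constructor
    · intro heq
      apply hne
      rw [heq]
      ring
    · have h5 : (c * c') * ((sdim p e 1 : K) * sdim p' f (-1)) =
          (c * c') * ((sdim p' f 1 : K) * sdim p e (-1)) := by
        linear_combination (c' * (sdim p' f (-1) : K)) * f1 - (c' * (sdim p' f 1 : K)) * f2
      have h6 := mul_left_cancel₀ (mul_ne_zero hcc hcc') h5
      exact_mod_cast h6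
  · intro y hy hne
    obtain ⟨c, hc⟩ := side hA hB hD h o2 hy he hf.1
    obtain ⟨c', hc'⟩ := hside' o2 y hy
    have x1 := cross hA hB hD h o2 hy o1 o1 (by ring) e f
    have x2 := cross hA hB hD h o2 hy o2 o2 (by ring) e f
    have e1 := hc 1 o1
    have e2 := hc (-1) o2
    have e3 := hc' 1 o1
    have e4 := hc' (-1) o2
    rw [dec1, x1, zero_add, ← ca1] at e1
    rw [dec1, x2, add_zero, ← ca2] at e2
    rw [dec2, x1, zero_add, ← cb1] at e3
    rw [dec2, x2, add_zero, ← cb2] at e4
    rw [dec3, dec1, dec1, x1, x2, add_zero, zero_add] at hne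
    rw [e1, e2] at hne
    have f1 : c * (sdim p e 1 : K) = - (c' * sdim p' f (-1)) := by linear_combination e4 - e1
    have f2 : c * (sdim p e (-1) : K) = - (c' * sdim p' f 1) := by linear_combination e2 - e3
    have hcc : c ≠ 0 := by
      rintro rfl
      apply hne
      ring
    have hcc' : c' ≠ 0 := by
      rintro rfl
      rw [zero_mul, neg_zero] at f1 f2
      apply hne
      rw [f1, f2]
      ring
    constructor
    · intro heq
      apply hne
      rw [heq]
      ring
    · have h5 : (c * c') * ((sdim p e 1 : K) * sdim p' f 1) =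
          (c * c') * ((sdim p e (-1) : K) * sdim p' f (-1)) := by
        linear_combination (c' * (sdim p' f 1 : K)) * f1 - (c' * (sdim p' f (-1) : K)) * f2
      have h6 := mul_left_cancel₀ (mul_ne_zero hcc hcc') h5
      exact_mod_cast h6

end Pool.Agent.Run7.h301.SL
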