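import Pool.Agent.Run7.h301.SL.Prod

/-!
# Characteristic polynomials which are powers of an irreducible polynomial
-/

set_option autoImplicit false
set_option linter.unusedSectionVars false

open Module Polynomial TensorProduct

namespace Pool.Agent.Run7.h301.SL

section Roots

variable {K : Type*} [Field K]

/-- A monic polynomial all of whose roots are roots of an irreducible monic polynomial is a power of
it. -/
lemma pow_of_roots {g : K[X]} (hg : Irreducible g) (hm : g.Monic) (n : ℕ) :
    ∀ f : K[X], f.natDegree ≤ n → f.Monic →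
      (∀ x : AlgebraicClosure K, aeval x f = 0 → aeval x g = 0) → ∃ k : ℕ, f = g ^ k := by
  induction n with
  | zero =>
    intro f hf hfm _
    exact ⟨0, by rw [pow_zero]; exact hfm.natDegree_eq_zero.1 (Nat.le_zero.1 hf)⟩
  | succ n ih =>
    intro f hf hfm hr
    by_cases h0 : f.natDegree = 0
    · exact ⟨0, by rw [pow_zero]; exact hfm.natDegree_eq_zero.1 h0⟩
    obtain ⟨x, hx⟩ := IsAlgClosed.exists_aeval_eq_zero (AlgebraicClosure K) f (by
      intro hd
      exact h0 (natDegree_eq_zero_iff_degree_le_zero.2 hd.le))
    have hgx : g = minpoly K x := minpoly.eq_of_irreducible_of_monic hg (hr x hx) hm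
    obtain ⟨q, hq⟩ : g ∣ f := by rw [hgx]; exact minpoly.dvd K x hx
    have hqm : q.Monic := hm.of_mul_monic_left (by rw [← hq]; exact hfm)
    have hgd : 0 < g.natDegree := hg.natDegree_pos
    have hdeg : f.natDegree = g.natDegree + q.natDegree := by rw [hq, hm.natDegree_mul hqm]
    obtain ⟨k, hk⟩ := ih q (by omega) hqm (fun y hy => hr y (by rw [hq, map_mul, hy, mul_zero]))
    exact ⟨k + 1, by rw [hq, hk, pow_succ, mul_comm]⟩

end Roots

section Char

variable {K M : Type*} [Field K] [AddCommGroup M] [Module K M] [FiniteDimensional K M]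

lemma aeval_baseChange (T : Module.End K M) (g : K[X]) :
    aeval (T.baseChange (AlgebraicClosure K)) (g.map (algebraMap K (AlgebraicClosure K))) =
      (aeval T g).baseChange (AlgebraicClosure K) := by
  rw [aeval_map_algebraMap]
  exact (aeval_algHom_apply (Module.End.baseChangeHom K (AlgebraicClosure K) M) T g)

/-- If `g(T)` is nilpotent with `g` irreducible, the characteristic polynomial is a power of `g`. -/
lemma charpoly_eq_pow (T : Module.End K M) {g : K[X]} (hg : Irreducible g) (hm : g.Monic)
    (hn : IsNilpotent (aeval T g)) : ∃ k : ℕ, T.charpoly = g ^ k := by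
  refine pow_of_roots hg hm _ _ le_rfl T.charpoly_monic ?_
  intro x hx
  obtain ⟨n, hn⟩ := hn
  have h1 : (T.baseChange (AlgebraicClosure K)).charpoly.IsRoot x := by
    rw [LinearMap.charpoly_baseChange, IsRoot.def, eval_map, ← aeval_def]
    exact hx
  rw [← Module.End.hasEigenvalue_iff_isRoot_charpoly] at h1
  obtain ⟨v, hv⟩ := h1.exists_hasEigenvector
  have h2 := Module.End.aeval_apply_of_hasEigenvector
    (p := (g ^ n).map (algebraMap K (AlgebraicClosure K))) hv
  rw [aeval_baseChange, map_pow, hn, LinearMap.baseChange_zero, LinearMap.zero_apply, eval_map,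
    ← aeval_def, map_pow, eq_comm, smul_eq_zero] at h2
  by_contra hne
  exact hv.2 (h2.resolve_left (pow_ne_zero n hne))

/-- The trace is a fixed multiple of the dimension. -/
lemma trace_eq_of_pow [CharZero K] (T : Module.End K M) {g : K[X]} (hg : Irreducible g)
    (hm : g.Monic) (hn : IsNilpotent (aeval T g)) :
    LinearMap.trace K M T = (-g.nextCoeff / (g.natDegree : K)) * (finrank K M : K) := by
  obtain ⟨k, hk⟩ := charpoly_eq_pow T hg hm hn
  have h1 : LinearMap.trace K M T = -T.charpoly.nextCoeff := by
    rw [LinearMap.trace_eq_matrix_trace K (Module.Free.chooseBasis K M),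
      Matrix.trace_eq_neg_charpoly_nextCoeff, LinearMap.charpoly_toMatrix]
  have h2 : (finrank K M : K) = (k : K) * g.natDegree := by
    rw [← LinearMap.charpoly_natDegree T, hk, hm.natDegree_pow, Nat.cast_mul]
  have h3 : (g.natDegree : K) ≠ 0 := Nat.cast_ne_zero.2 hg.natDegree_pos.ne'
  rw [h1, hk, hm.nextCoeff_pow, h2, nsmul_eq_mul]
  field_simp

end Char

end Pool.Agent.Run7.h301.SL
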