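import Pool.Agent.Run7.h301.SL.CharP

/-!
# Corners and primitive idempotents
-/

set_option autoImplicit false
set_option linter.unusedSectionVars false

open Module Polynomial

namespace Pool.Agent.Run7.h301.SL

open Pool.Agent.H914 Pool.Agent.N536.HK

variable {K V : Type*} [Field K] [CharZero K] [AddCommGroup V] [Module K V]
  [FiniteDimensional K V] {p : Module.End K V} {A : Submodule K (Module.End K V)}

/-- The projector to the part of parity `s`. -/
noncomputable def ppart (p : Module.End K V) (s : K) : Module.End K V := (2 : K)⁻¹ • (1 + s • p)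

lemma two_smul_ppart (p : Module.End K V) (s : K) : (2 : K) • ppart p s = 1 + s • p := by
  rw [ppart, smul_smul, mul_inv_cancel₀ two_ne_zero, one_smul]

lemma ppart_comm {a : Module.End K V} (h : p * a = a * p) (s : K) :
    ppart p s * a = a * ppart p s := by
  rw [ppart, smul_mul_assoc, mul_smul_comm, add_mul, mul_add, one_mul, mul_one, smul_mul_assoc,
    mul_smul_comm, h]

lemma par_ppart (hp : p * p = 1) {s : K} (hs : s * s = 1) : p * ppart p s = s • ppart p s := by
  have h1 : p + s • (1 : Module.End K V) = s • (1 + s • p) := by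
    rw [smul_add, smul_smul, hs, one_smul, add_comm]
  rw [ppart, mul_smul_comm, mul_add, mul_one, mul_smul_comm, hp, h1, smul_comm s]

lemma ppart_mul {s : K} (hs : s * s = 1) {a : Module.End K V} (ha : p * a = s • a) :
    ppart p s * a = a := by
  rw [ppart, smul_mul_assoc, add_mul, one_mul, smul_mul_assoc, ha, smul_smul, hs, one_smul,
    ← two_smul K a, smul_smul, inv_mul_cancel₀ two_ne_zero, one_smul]

lemma ppart_idem (hp : p * p = 1) {s : K} (hs : s * s = 1) :
    ppart p s * ppart p s = ppart p s := ppart_mul hs (par_ppart hp hs)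

lemma ppart_add (p : Module.End K V) : ppart p 1 + ppart p (-1) = 1 := by
  rw [ppart, ppart, ← smul_add, one_smul, neg_smul, one_smul]
  have : (1 : Module.End K V) + p + (1 + -p) = (2 : K) • 1 := by
    rw [two_smul]
    abel
  rw [this, smul_smul, inv_mul_cancel₀ two_ne_zero, one_smul]

/-- An idempotent of parity `s` of maximal rank. -/
structure IsMaxIdem (p : Module.End K V) (A : Submodule K (Module.End K V)) (s : K)
    (ε : Module.End K V) : Prop where
  mem : ε ∈ Pure p A s
  idem : ε * ε = ε
  max : ∀ a ∈ Pure p A s, LinearMap.trace K V ((1 - ε) * a) = 0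

lemma exists_maxIdem (h : IsPA p A) (s : K) : ∃ ε, IsMaxIdem p A s ε := by
  obtain ⟨e0, h0, h01, h02⟩ := exists_max_idem (Pure p A s) fun a ha b hb => pure_mul h ha hb.1
  exact ⟨e0, h0, h01, h02⟩

lemma mul_pure (h : IsPA p A) {s : K} {a b : Module.End K V} (ha : a ∈ Pure p A s) (hb : b ∈ A) :
    b * a ∈ Pure p A s :=
  ⟨h.mul _ hb _ ha.1, by rw [← mul_assoc, h.comm _ hb, mul_assoc, ha.2, mul_smul_comm]⟩

/-- The trace against a maximal idempotent is a natural number. -/
lemma trace_corner (h : IsPA p A) {s : K} (hs : s * s = 1) {ε : Module.End K V}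
    (hε : IsMaxIdem p A s ε) {e : Module.End K V} (he : e ∈ A) (hee : e * e = e) :
    ∃ n : ℕ, (n : K) = LinearMap.trace K V (e * ε) ∧
      n ≤ finrank K (LinearMap.range (ppart p s * e)) := by
  let S : Submodule K (Module.End K V) :=
    { carrier := {a | a ∈ Pure p A s ∧ e * a = a ∧ a * e = a}
      zero_mem' := ⟨Submodule.zero_mem _, by rw [mul_zero], by rw [zero_mul]⟩
      add_mem' := fun {a b} ha hb => ⟨Submodule.add_mem _ ha.1 hb.1,
        by rw [mul_add, ha.2.1, hb.2.1], by rw [add_mul, ha.2.2, hb.2.2]⟩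
      smul_mem' := fun c a ha => ⟨Submodule.smul_mem _ _ ha.1,
        by rw [mul_smul_comm, ha.2.1], by rw [smul_mul_assoc, ha.2.2]⟩ }
  obtain ⟨k, hk, hkk, hk2⟩ := exists_max_idem S fun a ha b hb =>
    ⟨pure_mul h ha.1 hb.1.1, by rw [← mul_assoc, ha.2.1], by rw [mul_assoc, hb.2.2]⟩
  have hk' : k ∈ Pure p A s ∧ e * k = k ∧ k * e = k := hk
  have ha : e * ε * e ∈ S := by
    refine ⟨pure_mul h (mul_pure h hε.mem he) he, ?_, ?_⟩
    · rw [← mul_assoc, ← mul_assoc, hee]
    · rw [mul_assoc, hee]
  have h1 := hk2 _ ha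
  have h2 : LinearMap.trace K V (e * ε * e) = LinearMap.trace K V (e * ε) := by
    rw [LinearMap.trace_mul_comm, ← mul_assoc, hee]
  have h3 : LinearMap.trace K V (k * (e * ε * e)) = LinearMap.trace K V (k * ε) := by
    rw [← mul_assoc, ← mul_assoc, hk'.2.2, LinearMap.trace_mul_comm, ← mul_assoc, hk'.2.1]
  have h4 := hε.max _ hk'.1
  rw [sub_mul, one_mul, map_sub, h2, h3, sub_eq_zero] at h1
  rw [sub_mul, one_mul, map_sub, sub_eq_zero, LinearMap.trace_mul_comm K ε] at h4
  refine ⟨finrank K (LinearMap.range k), ?_, ?_⟩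
  · rw [h1, ← h4, Pool.Agent.N536.HK.trace_idem hkk]
  · apply Submodule.finrank_mono
    have h5 : ppart p s * e * k = k := by rw [mul_assoc, hk'.2.1, ppart_mul hs hk'.1.2]
    rintro _ ⟨x, rfl⟩
    exact ⟨k x, by rw [← Module.End.mul_apply, h5]⟩

/-- `e` is an idempotent in `A` which is not the sum of two others. -/
def Prim (A : Submodule K (Module.End K V)) (e : Module.End K V) : Prop :=
  e ∈ A ∧ e * e = e ∧ ∀ f ∈ A, f * f = f → e * f = f → f * e = f → f = 0 ∨ f = e

lemma aeval_mem (h : IsPA p A) {a : Module.End K V} (ha : a ∈ A) (g : K[X]) : aeval a g ∈ A := by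
  have hpow : ∀ n : ℕ, a ^ n ∈ A := by
    intro n
    induction n with
    | zero => rw [pow_zero]; exact h.one
    | succ n ih => rw [pow_succ]; exact h.mul _ ih _ ha
  induction g using Polynomial.induction_on' with
  | add p q hp hq => rw [map_add]; exact A.add_mem hp hq
  | monomial n c =>
    rw [aeval_monomial, ← Algebra.smul_def]
    exact A.smul_mem _ (hpow n)

/-- In the corner of a primitive idempotent an element is nilpotent or divides it. -/
lemma corner_nil (h : IsPA p A) {e : Module.End K V} (he : Prim A e) {a : Module.End K V}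
    (ha : a ∈ A) (h1 : e * a = a) (h2 : a * e = a) :
    IsNilpotent a ∨ ∃ g ∈ A, a * g = e ∧ g * a = e := by
  obtain ⟨w, k, hw0, hw, hkw, g, hg⟩ := exists_fitting a
  obtain ⟨f, hf⟩ : ∃ f, f = a * aeval a g := ⟨_, rfl⟩
  have hf1 : f = 1 - aeval a w := by
    have := congrArg (aeval a) hg
    rw [map_sub, map_one, map_mul, aeval_X] at this
    rw [hf, this]
  have hcomm : a * aeval a g = aeval a g * a := by
    have h1 : aeval a (X * g) = aeval a (g * X) := by rw [mul_comm]
    rwa [map_mul, map_mul, aeval_X] at h1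
  have hfid : f * f = f := by rw [hf1]; exact idem_compl hw
  have hfA : f ∈ A := by rw [hf]; exact h.mul _ ha _ (aeval_mem h ha g)
  rcases he.2.2 f hfA hfid (by rw [hf, ← mul_assoc, h1]) (by rw [hf, hcomm, mul_assoc, h2]) with
    h0 | h0
  · left
    rw [h0, eq_comm, sub_eq_zero] at hf1
    rw [← hf1, mul_one] at hkw
    exact ⟨k, hkw⟩
  · right
    exact ⟨aeval a g, aeval_mem h ha g, by rw [← hf, h0], by rw [← hcomm, ← hf, h0]⟩

/-- A primitive idempotent whose trace against a maximal idempotent is not zero is pure. -/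
lemma pure_of_trace (h : IsPA p A) {s : K} {ε : Module.End K V}
    (hε : IsMaxIdem p A s ε) {e : Module.End K V} (he : Prim A e)
    (htr : LinearMap.trace K V (e * ε) ≠ 0) : e ∈ Pure p A s := by
  have hee := he.2.1
  have ha : e * ε * e ∈ Pure p A s := pure_mul h (mul_pure h hε.mem he.1) he.1
  rcases corner_nil h he ha.1 (by rw [← mul_assoc, ← mul_assoc, hee]) (by rw [mul_assoc, hee]) with
    h0 | ⟨g, hg, h0, -⟩
  · exfalso
    apply htr
    have h1 := LinearMap.isNilpotent_trace_of_isNilpotent h0
    rw [LinearMap.trace_mul_comm, ← mul_assoc, hee] at h1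
    exact h1.eq_zero
  · rw [← h0]
    exact pure_mul h ha hg

lemma trace_of_pure {s : K} {ε : Module.End K V} (hε : IsMaxIdem p A s ε)
    {e : Module.End K V} (he : e ∈ Pure p A s) :
    LinearMap.trace K V (e * ε) = LinearMap.trace K V e := by
  have h4 := hε.max _ he
  rw [sub_mul, one_mul, map_sub, sub_eq_zero, LinearMap.trace_mul_comm K ε] at h4
  exact h4.symm

lemma aeval_comm {a e : Module.End K V} (h : Commute e a) (g : K[X]) :
    e * aeval a g = aeval a g * e := by
  induction g using Polynomial.induction_on' with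
  | add p q hp hq => rw [map_add, mul_add, add_mul, hp, hq]
  | monomial n c =>
    rw [aeval_monomial, ← Algebra.smul_def, mul_smul_comm, smul_mul_assoc, (h.pow_right n).eq]

/-- In the corner of a primitive idempotent every element is killed, up to nilpotent elements, by an
irreducible polynomial. -/
lemma corner_irreducible (h : IsPA p A) {e : Module.End K V} (he : Prim A e) (h0 : e ≠ 0)
    {a : Module.End K V} (ha : a ∈ A) (h1 : e * a = a) (h2 : a * e = a) :
    ∃ g : K[X], Irreducible g ∧ g.Monic ∧ IsNilpotent (aeval a g * e) := by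
  have hee := he.2.1
  have hcomm : ∀ g : K[X], e * aeval a g = aeval a g * e :=
    fun g => aeval_comm (by rw [Commute, SemiconjBy, h1, h2]) g
  have hmem : ∀ g : K[X], aeval a g * e ∈ A := fun g => h.mul _ (aeval_mem h ha g) _ he.1
  have hl : ∀ g : K[X], e * (aeval a g * e) = aeval a g * e := by
    intro g
    rw [← mul_assoc, hcomm, mul_assoc, hee]
  have hr : ∀ g : K[X], aeval a g * e * e = aeval a g * e := by
    intro g
    rw [mul_assoc, hee]
  have hne : ¬ IsNilpotent e := by
    rintro ⟨n, hn⟩
    apply h0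
    rcases Nat.eq_zero_or_pos n with rfl | hpos
    · rw [pow_zero] at hn
      rw [← one_mul e, hn, zero_mul]
    · have hee' : IsIdempotentElem e := hee
      rwa [hee'.pow_eq hpos.ne'] at hn
  classical
  obtain ⟨d, ⟨g, hg, hgn, hgd⟩, hmin⟩ : ∃ d : ℕ, (∃ g : K[X], g.Monic ∧
      IsNilpotent (aeval a g * e) ∧ g.natDegree = d) ∧ ∀ m < d, ¬ ∃ g : K[X], g.Monic ∧
      IsNilpotent (aeval a g * e) ∧ g.natDegree = m := by
    have hex : ∃ d : ℕ, ∃ g : K[X], g.Monic ∧ IsNilpotent (aeval a g * e) ∧ g.natDegree = d :=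
      ⟨_, a.charpoly, a.charpoly_monic, by
        rw [LinearMap.aeval_self_charpoly, zero_mul]; exact IsNilpotent.zero, rfl⟩
    exact ⟨Nat.find hex, Nat.find_spec hex, fun m hm => Nat.find_min hex hm⟩
  refine ⟨g, ?_, hg, hgn⟩
  rw [hg.irreducible_iff_natDegree]
  constructor
  · rintro rfl
    rw [map_one, one_mul] at hgn
    exact hne hgn
  · intro f1 f2 hf1 hf2 hf
    by_contra hcon
    push Not at hcon
    have hdeg : g.natDegree = f1.natDegree + f2.natDegree := by rw [← hf, hf1.natDegree_mul hf2]
    rcases corner_nil h he (hmem f1) (hl f1) (hr f1) with hn | ⟨g1, -, k1, -⟩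
    · exact hmin _ (by omega) ⟨f1, hf1, hn, rfl⟩
    rcases corner_nil h he (hmem f2) (hl f2) (hr f2) with hn | ⟨g2, -, k2, -⟩
    · exact hmin _ (by omega) ⟨f2, hf2, hn, rfl⟩
    -- the product divides `e` and is nilpotent
    have k3 : aeval a g * e * (g2 * g1) = e := by
      calc aeval a g * e * (g2 * g1) = aeval a f1 * (aeval a f2 * e * g2) * g1 := by
            rw [← hf, map_mul]
            simp only [mul_assoc]
        _ = e := by rw [k2, k1]
    obtain ⟨n, hn⟩ := hgn
    have key : ∀ m : ℕ, ∃ y, e * y = y ∧ (aeval a g * e) ^ m * y = e := by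
      intro m
      induction m with
      | zero => exact ⟨e, hee, by rw [pow_zero, one_mul]⟩
      | succ m ih =>
        obtain ⟨y, hy1, hy2⟩ := ih
        refine ⟨e * (g2 * g1) * y, by rw [← mul_assoc, ← mul_assoc, hee], ?_⟩
        calc (aeval a g * e) ^ (m + 1) * (e * (g2 * g1) * y)
            = (aeval a g * e) ^ m * ((aeval a g * e * e) * (g2 * g1) * y) := by
              rw [pow_succ]
              simp only [mul_assoc]
          _ = e := by rw [hr, k3, hy1, hy2]
    obtain ⟨y, -, hy⟩ := key n
    rw [hn, zero_mul] at hy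
    exact h0 hy.symm

/-- The traces of the elements of the corner on the even and the odd part are proportional. -/
lemma corner_trace (h : IsPA p A) {e : Module.End K V} (he : Prim A e)
    {a : Module.End K V} (ha : a ∈ A) : ∃ c : K, ∀ s : K, s * s = 1 →
      LinearMap.trace K V (ppart p s * e * a) = c * LinearMap.trace K V (ppart p s * e) := by
  by_cases h0 : e = 0
  · exact ⟨0, fun s _ => by rw [h0, mul_zero, zero_mul, map_zero, zero_mul]⟩
  have hee := he.2.1
  obtain ⟨T, hT⟩ : ∃ T, T = e * a * e := ⟨_, rfl⟩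
  have hTA : T ∈ A := by rw [hT]; exact h.mul _ (h.mul _ he.1 _ ha) _ he.1
  have hT1 : e * T = T := by rw [hT, ← mul_assoc, ← mul_assoc, hee]
  have hT2 : T * e = T := by rw [hT, mul_assoc, hee]
  obtain ⟨g, hg, hm, n, hn⟩ := corner_irreducible h he h0 hTA hT1 hT2
  refine ⟨-g.nextCoeff / (g.natDegree : K), fun s hs => ?_⟩
  have hcomm : ∀ b ∈ A, ppart p s * b = b * ppart p s := fun b hb => ppart_comm (h.comm b hb) s
  have h1 : LinearMap.trace K V (ppart p s * e * a) = LinearMap.trace K V (ppart p s * T) := by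
    have e1 : ppart p s * e * a = e * (ppart p s * e * a) := by
      rw [← mul_assoc, ← mul_assoc, ← hcomm e he.1, mul_assoc _ e e, hee]
    rw [e1, LinearMap.trace_mul_comm, hT]
    simp only [mul_assoc]
  obtain ⟨P, hP⟩ : ∃ P, P = ppart p s * e := ⟨_, rfl⟩
  have hPP : P * P = P := by
    rw [hP]
    calc (ppart p s * e) * (ppart p s * e) = ppart p s * (e * ppart p s) * e := by
          simp only [mul_assoc]
      _ = (ppart p s * ppart p s) * (e * e) := by rw [← hcomm e he.1]; simp only [mul_assoc]
      _ = ppart p s * e := by rw [ppart_idem h.sq hs, hee]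
  have hPT : P * T = ppart p s * T := by rw [hP, mul_assoc, hT1]
  have hTP : T * P = P * T := by
    rw [hPT, hP, ← mul_assoc, ← hcomm T hTA, mul_assoc, hT2]
  have heP : e * P = P := by rw [hP, ← mul_assoc, ← hcomm e he.1, mul_assoc, hee]
  have hfix : ∀ x ∈ LinearMap.range P, P x = x := by
    rintro _ ⟨y, rfl⟩
    rw [← Module.End.mul_apply, hPP]
  have hst : ∀ x ∈ LinearMap.range P, T x ∈ LinearMap.range P := by
    rintro _ ⟨y, rfl⟩
    exact ⟨T y, by rw [← Module.End.mul_apply, ← hTP, Module.End.mul_apply]⟩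
  have hf : ∀ x, (P * T) x ∈ LinearMap.range P := fun x => ⟨T x, rfl⟩
  have h2 : LinearMap.trace K V (P * T) =
      LinearMap.trace K (LinearMap.range P) (T.restrict hst) := by
    rw [← LinearMap.trace_restrict_eq_of_forall_mem (LinearMap.range P) (P * T) hf]
    congr 1
    ext x
    show (P * T) (x : V) = T x
    rw [Module.End.mul_apply, hfix _ (hst x x.2)]
  have hint : ∀ (f : K[X]) (x : LinearMap.range P),
      ((aeval (T.restrict hst) f x : LinearMap.range P) : V) = aeval T f (x : V) := by
    intro f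
    induction f using Polynomial.induction_on' with
    | add p q hp hq =>
      intro x
      rw [map_add, map_add, LinearMap.add_apply, LinearMap.add_apply, Submodule.coe_add, hp, hq]
    | monomial m c =>
      intro x
      rw [aeval_monomial, aeval_monomial, ← Algebra.smul_def, ← Algebra.smul_def,
        LinearMap.smul_apply, LinearMap.smul_apply, Submodule.coe_smul]
      congr 1
      induction m with
      | zero => rfl
      | succ m ih =>
        rw [pow_succ', pow_succ', Module.End.mul_apply, Module.End.mul_apply, ← ih]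
        rfl
  have hnil : IsNilpotent (aeval (T.restrict hst) g) := by
    refine ⟨n, ?_⟩
    ext x
    rw [← map_pow, hint, LinearMap.zero_apply, ZeroMemClass.coe_zero, map_pow]
    obtain ⟨y, hy⟩ := x.2
    have hc : Commute (aeval T g) e := (aeval_comm (by rw [Commute, SemiconjBy, hT1, hT2]) g).symm
    rw [hc.mul_pow] at hn
    have hx : (x : V) = (e ^ n) x := by
      rcases Nat.eq_zero_or_pos n with rfl | hpos
      · rw [pow_zero, Module.End.one_apply]
      · have hee' : IsIdempotentElem e := hee
        rw [hee'.pow_eq hpos.ne', ← hy, ← Module.End.mul_apply, heP]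
    rw [hx, ← Module.End.mul_apply, hn, LinearMap.zero_apply]
  rw [h1, ← hPT, h2, trace_eq_of_pow _ hg hm hnil, ← hP, Pool.Agent.N536.HK.trace_idem hPP]

end Pool.Agent.Run7.h301.SL
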