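import Pool.Agent.Y112.SR.Main
import Pool.Agent.R484.NCc

/-!
# The even and the odd direct summands of an object with a realisation in super vector spaces
-/

set_option autoImplicit false

open CategoryTheory MonoidalCategory Module Filter

namespace Pool.Agent.Run7.h301.SL

open Pool.Agent.Y112.SR Pool.Agent.R484.NC

universe v u w

section

variable {C : Type u} [Category.{v} C] [Preadditive C] [MonoidalCategory C] [SymmetricCategory C]
  {K : Type w} [Field K]

/-- The linear combinations, with coefficients in `K`, of the operators on `R(M)` which are given by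
the endomorphisms of `M`. -/
def combs (R : SuperRealisation C K) (M : C) : Submodule K (Module.End K (R.H.obj M)) :=
  Submodule.span K (Set.range fun f : M ⟶ M => (R.H.map f).hom)

/-- `e` is an idempotent combination of endomorphisms of `M`, and its image is contained in the part
of parity `s` of `R(M)`, so that `e` is the projector to a direct summand of `M` (coefficients in
`K`) whose realisation is even, if `s = 1`, or odd, if `s = -1`. -/
def IsPart (R : SuperRealisation C K) (M : C) (s : K) (e : Module.End K (R.H.obj M)) : Prop :=
  e ∈ combs R M ∧ e * e = e ∧ (R.par M).hom * e = s • e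

/-- The dimensions of the realisations of the direct summands of `M` (coefficients in `K`) which are
the sum of an even and an odd one: the numbers `rank e₀ + rank e₁`, where `e₀` projects to an even
and `e₁` to an odd summand. -/
def splitDims (R : SuperRealisation C K) (M : C) : Set ℕ :=
  {r | ∃ e₀ e₁ : Module.End K (R.H.obj M), IsPart R M 1 e₀ ∧ IsPart R M (-1) e₁ ∧
    r = finrank K (LinearMap.range e₀) + finrank K (LinearMap.range e₁)}

/-- The dimension of the largest direct summand of `M` which is the sum of an even and an odd one. -/
noncomputable def splitDim (R : SuperRealisation C K) (M : C) : ℕ := sSup (splitDims R M)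

/-- `2 c ≤ b^n + (b - 2)^n` for the tensor power `M^n` or for the next one, where `b` is the dimension
of `R(M)` and `c` is `splitDim` of the power. -/
def HalfAt (R : SuperRealisation C K) (M : C) (n : ℕ) : Prop :=
  2 * splitDim R (pow M n) ≤ totalDim R M ^ n + (totalDim R M - 2) ^ n ∨
    2 * splitDim R (pow M (n + 1)) ≤ totalDim R M ^ (n + 1) + (totalDim R M - 2) ^ (n + 1)

/-- The share of the largest summand of `M` which is the sum of an even and an odd one is at least
`1 / 2 + f(b)`, where `b` is the dimension of `R(M)`. -/
def MoreThanHalf (R : SuperRealisation C K) (f : ℕ → ℝ) (M : C) : Prop :=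
  (1 / 2 + f (totalDim R M)) * totalDim R M ≤ splitDim R M

/-- For `0 < ε ≤ 1 / 2` the sign conjecture for `M` is equivalent to the share `1 / 2 + ε` for all
large tensor powers of `M`; and the sign conjecture for all objects is equivalent to the share
`1 / 2 + ε` for all objects. -/
def SignIffHalf (R : SuperRealisation C K) : Prop :=
  ∀ ε : ℝ, 0 < ε → ε ≤ 1 / 2 →
    (∀ M : C, R.CPlus M ↔ ∃ n₀, ∀ n ≥ n₀, MoreThanHalf R (fun _ => ε) (pow M n)) ∧
    ((∀ M : C, R.CPlus M) ↔ ∀ M : C, MoreThanHalf R (fun _ => ε) M)

/-- The sign conjecture for `M` follows from the share `1 / 2 + f(b)` for all large tensor powers of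
`M`, if `f(y) y^κ` tends to infinity for all `κ > 0`. -/
def SignFromRate (R : SuperRealisation C K) : Prop :=
  ∀ f : ℕ → ℝ, (∀ κ : ℝ, 0 < κ → Tendsto (fun y : ℕ => f y * (y : ℝ) ^ κ) atTop atTop) →
    ∀ M : C, (∃ n₀, ∀ n ≥ n₀, MoreThanHalf R f (pow M n)) → R.CPlus M

/-- The coefficients of the category are the field `L`: the endomorphisms of the unit object are the
elements of `L`, and the realisation is linear along the inclusion of `L` in the field `K` of the
realisation. -/
structure Coefficients (L : Type*) [Field L] [Linear L C] [Algebra L K]
    (R : SuperRealisation C K) : Prop where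
  unit : ∀ c : 𝟙_ C ⟶ 𝟙_ C, ∃ a : L, c = a • 𝟙 (𝟙_ C)
  linear : ∀ {X Y : C} (a : L) (f : X ⟶ Y), R.H.map (a • f) = algebraMap L K a • R.H.map f

end

end Pool.Agent.Run7.h301.SL
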