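import Pool.Agent.TH133.PW.CasB

/-!
# Descent of a central idempotent along a trace form with values in a subfield
-/

set_option autoImplicit false

open Polynomial Finset TensorProduct

namespace Pool.Agent.Run7.h301.SL

open Pool.Agent.H914 Pool.Agent.H447 Pool.Agent.TH133.PW

variable {K : Type*} [Field K] [CharZero K] {V : Type*} [AddCommGroup V] [Module K V]
  [Module.Finite K V]

variable {S : Type*} [Ring S] [Algebra K S] [Module.Finite K S]

/-- **Descent of a central idempotent.** Let `A` be a set of elements of a finite dimensional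
algebra `S` over `K`, closed under sums, products and multiples with coefficients in the subfield
`L` of `K`, which spans `S`, and `ρ` a faithful representation of `S` on `V`. If `p` is a central
idempotent of `S` and the difference of the traces of `ρ(x)` on the two summands `p V` and
`(1 - p) V` is in `L` for all `x` in `A`, then `p` is in `A`. -/
theorem central_idem_mem_field {L : Type*} [Field L] [Algebra L K] {A : Set S} (h1A : (1 : S) ∈ A)
    (hadd : ∀ x ∈ A, ∀ y ∈ A, x + y ∈ A) (hsmul : ∀ q : L, ∀ x ∈ A, (algebraMap L K q • x) ∈ A)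
    (hmul : ∀ x ∈ A, ∀ y ∈ A, x * y ∈ A) (hspan : Submodule.span K A = ⊤)
    (ρ : S →ₐ[K] Module.End K V) (hρ : Function.Injective ρ) {p : S} (hp : p * p = p)
    (hpc : ∀ x, p * x = x * p)
    (ht : ∀ x ∈ A, ∃ q : L, LinearMap.trace K V (ρ (p * x)) -
      LinearMap.trace K V (ρ ((1 - p) * x)) = algebraMap L K q) : p ∈ A := by
  classical
  -- the form
  let t : S →ₗ[K] K := (LinearMap.trace K V ∘ₗ ρ.toLinearMap) ∘ₗ
    (LinearMap.mulLeft K p - LinearMap.mulLeft K (1 - p))
  have htx : ∀ x, t x = LinearMap.trace K V (ρ (p * x)) - LinearMap.trace K V (ρ ((1 - p) * x)) := by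
    intro x
    simp only [t, LinearMap.comp_apply, LinearMap.sub_apply, LinearMap.mulLeft_apply, map_sub]
    rfl
  have hpp' : (1 - p) * (1 - p) = 1 - p := by rw [mul_sub, sub_mul, sub_mul, hp]; simp
  have hpc' : ∀ x, (1 - p) * x = x * (1 - p) := fun x => by
    rw [sub_mul, one_mul, hpc, mul_sub, mul_one]
  have hp0 : p * (1 - p) = 0 := by rw [mul_sub, mul_one, hp, sub_self]
  have hp0' : (1 - p) * p = 0 := by rw [sub_mul, one_mul, hp, sub_self]
  have hcyc : ∀ x y, t (x * y) = t (y * x) := by
    intro x y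
    have e : ∀ e : S, (∀ x, e * x = x * e) →
        LinearMap.trace K V (ρ (e * (x * y))) = LinearMap.trace K V (ρ (e * (y * x))) := by
      intro e he
      rw [← mul_assoc, map_mul ρ (e * x), LinearMap.trace_mul_comm, ← map_mul, ← mul_assoc,
        ← he y, mul_assoc]
    rw [htx, htx, e p hpc, e (1 - p) hpc']
  have hcyc3 : ∀ x y z, t (x * y * z) = t (y * (z * x)) := fun x y z => by
    rw [mul_assoc, hcyc, mul_assoc]
  have ht1 : ∀ x, LinearMap.trace K V (ρ (p * x)) = t (p * x) := by
    intro x
    rw [htx, ← mul_assoc, ← mul_assoc, hp, hp0', zero_mul, map_zero, map_zero, sub_zero]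
  have ht2 : ∀ x, LinearMap.trace K V (ρ ((1 - p) * x)) = - t ((1 - p) * x) := by
    intro x
    rw [htx, ← mul_assoc, ← mul_assoc, hpp', hp0, zero_mul, map_zero, map_zero, zero_sub, neg_neg]
  -- the radical and the quotient
  let B : S →ₗ[K] S →ₗ[K] K := (LinearMap.mul K S).compr₂ t
  have hB : ∀ x y, B x y = t (x * y) := fun _ _ => rfl
  let N : Submodule K S := LinearMap.ker B
  have hN : ∀ x, x ∈ N ↔ ∀ y, t (x * y) = 0 := by
    intro x
    rw [LinearMap.mem_ker]
    constructor
    · intro h y; rw [← hB, h, LinearMap.zero_apply]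
    · intro h; exact LinearMap.ext (fun y => by rw [hB, h, LinearMap.zero_apply])
  have hNr : ∀ x, N ≤ N.comap (LinearMap.mulRight K x) := by
    intro x n hn
    rw [Submodule.mem_comap, LinearMap.mulRight_apply, hN]
    intro y
    rw [mul_assoc]
    exact (hN n).1 hn _
  let Rm : S → Module.End K (S ⧸ N) := fun x => N.mapQ N (LinearMap.mulRight K x) (hNr x)
  have hRm : ∀ x y, Rm x (N.mkQ y) = N.mkQ (y * x) := fun _ _ => rfl
  have hRmul : ∀ x y, Rm (x * y) = Rm y * Rm x := by
    intro x y
    apply Submodule.linearMap_qext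
    apply LinearMap.ext
    intro z
    rw [LinearMap.comp_apply, LinearMap.comp_apply, Module.End.mul_apply, hRm, hRm, hRm, mul_assoc]
  have hRone : Rm 1 = 1 := by
    apply Submodule.linearMap_qext
    apply LinearMap.ext
    intro z
    rw [LinearMap.comp_apply, LinearMap.comp_apply, hRm, mul_one, Module.End.one_apply]
  have hRsub : ∀ x y, Rm (x - y) = Rm x - Rm y := by
    intro x y
    apply Submodule.linearMap_qext
    apply LinearMap.ext
    intro z
    rw [LinearMap.comp_apply, LinearMap.comp_apply, LinearMap.sub_apply, hRm, hRm, hRm, mul_sub,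
      map_sub]
  have hRpow : ∀ x (n : ℕ), Rm (x ^ n) = Rm x ^ n := by
    intro x n
    induction n with
    | zero => rw [pow_zero, pow_zero, hRone]
    | succ n ih => rw [pow_succ, hRmul, ih, pow_succ']
  -- the basis
  have hspanU : ⊤ ≤ Submodule.span K (N.mkQ '' A) := by
    rw [Submodule.span_image, hspan, Submodule.map_top, Submodule.range_mkQ]
  obtain ⟨m, b, hbs⟩ : ∃ (m : ℕ) (b : Module.Basis (Fin m) K (S ⧸ N)),
      ∀ i, ∃ a ∈ A, N.mkQ a = b i := by
    let b := Module.Basis.ofSpan hspanU
    have hfin := Module.Finite.finite_basis b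
    obtain ⟨m, ⟨e⟩⟩ := Finite.exists_equiv_fin
      ((linearIndepOn_empty K id).extend (Set.empty_subset (N.mkQ '' A)))
    refine ⟨m, b.reindex e, fun i => ?_⟩
    rw [Module.Basis.reindex_apply]
    exact Module.Basis.ofSpan_subset hspanU ⟨e.symm i, rfl⟩
  choose a haA hab using hbs
  choose q hq using fun x : A => ht x.1 x.2
  let G : Matrix (Fin m) (Fin m) L := fun i j => q ⟨a i * a j, hmul _ (haA i) _ (haA j)⟩
  have hG : ∀ i j, t (a i * a j) = algebraMap L K (G i j) := by
    intro i j
    rw [htx]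
    exact hq ⟨a i * a j, hmul _ (haA i) _ (haA j)⟩
  have hmk0 : ∀ x : S, N.mkQ x = 0 ↔ x ∈ N := fun x => Submodule.Quotient.mk_eq_zero N
  have hdec : ∀ c : S, c - ∑ i, b.repr (N.mkQ c) i • a i ∈ N := by
    intro c
    rw [← hmk0, map_sub, map_sum, sub_eq_zero]
    conv_lhs => rw [← b.sum_repr (N.mkQ c)]
    exact Finset.sum_congr rfl (fun i _ => by rw [map_smul, hab])
  have hdec2 : ∀ (c y : S), t (c * y) = ∑ i, b.repr (N.mkQ c) i * t (a i * y) := by
    intro c y
    have e1 := (hN _).1 (hdec c) y
    rw [sub_mul, map_sub, sub_eq_zero] at e1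
    rw [e1, Finset.sum_mul, map_sum]
    exact Finset.sum_congr rfl (fun i _ => by rw [smul_mul_assoc, map_smul, smul_eq_mul])
  have hdet : G.det ≠ 0 := by
    intro h0
    obtain ⟨v, hv0, hv⟩ := Matrix.exists_mulVec_eq_zero_iff.2 h0
    apply hv0
    have hx : (∑ j, algebraMap L K (v j) • a j) ∈ N := by
      rw [hN]
      intro y
      rw [hcyc, hdec2]
      apply Finset.sum_eq_zero
      intro i _
      have e1 : t (a i * ∑ j, algebraMap L K (v j) • a j) = algebraMap L K (∑ j, G i j * v j) := by
        rw [Finset.mul_sum, map_sum, map_sum]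
        apply Finset.sum_congr rfl
        intro j _
        rw [mul_smul_comm, map_smul, hG, smul_eq_mul, map_mul, mul_comm]
      have e2 := congrFun hv i
      rw [Matrix.mulVec, dotProduct] at e2
      rw [e1, e2, Pi.zero_apply, map_zero, mul_zero]
    rw [← hmk0, map_sum] at hx
    have hli := Fintype.linearIndependent_iff.1 b.linearIndependent (fun j => algebraMap L K (v j)) (by
      rw [← hx]
      exact Finset.sum_congr rfl (fun j _ => by rw [map_smul, hab]))
    funext j
    exact (map_eq_zero (algebraMap L K)).1 (hli j)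
  have hGC : G * G⁻¹ = 1 := Matrix.mul_nonsing_inv G (Ne.isUnit hdet)
  have hcoord : ∀ (c : S) (i : (Fin m)), b.repr (N.mkQ c) i = ∑ k, algebraMap L K (G⁻¹ k i) * t (c * a k) := by
    intro c i
    have e1 : ∀ k, t (c * a k) = ∑ j, b.repr (N.mkQ c) j * algebraMap L K (G j k) := by
      intro k
      rw [hdec2]
      exact Finset.sum_congr rfl (fun j _ => by rw [hG])
    have e2 : ∀ j, ∑ k, algebraMap L K (G⁻¹ k i) * algebraMap L K (G j k) = if j = i then 1 else 0 := by
      intro j
      have e3 := congrFun (congrFun hGC j) i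
      rw [Matrix.mul_apply, Matrix.one_apply] at e3
      have e4 : algebraMap L K (∑ k, G j k * G⁻¹ k i) = algebraMap L K (if j = i then 1 else 0) := by
        rw [e3]
      rw [map_sum] at e4
      have e5 : algebraMap L K (if j = i then 1 else 0) = if j = i then 1 else 0 := by
        split_ifs <;> simp
      rw [← e5, ← e4]
      exact Finset.sum_congr rfl (fun k _ => by rw [map_mul, mul_comm])
    simp_rw [e1, Finset.mul_sum]
    rw [Finset.sum_comm]
    have e3 : ∀ j, ∑ k, algebraMap L K (G⁻¹ k i) * (b.repr (N.mkQ c) j * algebraMap L K (G j k)) =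
        b.repr (N.mkQ c) j * if j = i then 1 else 0 := by
      intro j
      rw [← e2 j, Finset.mul_sum]
      exact Finset.sum_congr rfl (fun k _ => by ring)
    simp_rw [e3]
    simp
  -- the Casimir element
  let Ω : S := ∑ i, ∑ k, algebraMap L K (G⁻¹ k i) • (a k * a i)
  have hsumA : ∀ (s : Finset (Fin m)) (f : (Fin m) → S), (∀ i, f i ∈ A) → ∑ i ∈ s, f i ∈ A := by
    intro s f hf
    induction s using Finset.induction_on with
    | empty =>
      rw [Finset.sum_empty]
      have := hsmul 0 1 h1A
      rwa [map_zero, zero_smul] at this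
    | insert i s hi ih =>
      rw [Finset.sum_insert hi]
      exact hadd _ (hf i) _ ih
  have hΩA : Ω ∈ A := hsumA _ _ (fun i => hsumA _ _ (fun k =>
    hsmul _ _ (hmul _ (haA k) _ (haA i))))
  have htrR : ∀ x, LinearMap.trace K (S ⧸ N) (Rm x) = t (x * Ω) := by
    intro x
    rw [LinearMap.trace_eq_matrix_trace K b, Matrix.trace]
    have e1 : ∀ i, (LinearMap.toMatrix b b (Rm x)).diag i =
        ∑ k, algebraMap L K (G⁻¹ k i) * t (x * (a k * a i)) := by
      intro i
      rw [Matrix.diag_apply, LinearMap.toMatrix_apply, ← hab, hRm, hcoord]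
      exact Finset.sum_congr rfl (fun k _ => by rw [hcyc3])
    rw [Finset.sum_congr rfl (fun i _ => e1 i), Finset.mul_sum, map_sum]
    apply Finset.sum_congr rfl
    intro i _
    rw [Finset.mul_sum, map_sum]
    exact Finset.sum_congr rfl (fun k _ => by rw [mul_smul_comm, map_smul, smul_eq_mul])
  -- the functional
  have htN : N ≤ LinearMap.ker t := by
    intro n hn
    have := (hN n).1 hn 1
    rw [mul_one] at this
    exact this
  let lam : (S ⧸ N) →ₗ[K] K := N.liftQ t htN
  have hlam : ∀ x, lam (N.mkQ x) = t x := fun _ => rfl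
  let F : Module.End K (S ⧸ N) := lam.smulRight (N.mkQ 1)
  have htrF : ∀ x, LinearMap.trace K (S ⧸ N) (Rm x * F) = t x := by
    intro x
    have e1 : Rm x * F = lam.smulRight (N.mkQ x) := by
      apply LinearMap.ext
      intro u
      rw [Module.End.mul_apply]
      change Rm x (lam u • N.mkQ 1) = lam u • N.mkQ x
      rw [map_smul, hRm, one_mul]
    rw [e1, LinearMap.trace_smulRight, hlam]
  -- the application
  have hρp : ∀ (e : S) (n : ℕ), ρ e * ρ Ω ^ n = ρ (e * Ω ^ n) := fun e n => by
    rw [map_mul, map_pow]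
  have hQs : ∀ (e : S), (∀ x, e * x = x * e) → ∀ n : ℕ, Rm e * Rm Ω ^ n = Rm (e * Ω ^ n) := by
    intro e he n
    rw [he, hRmul, hRpow]
  have hQc : Commute (Rm p) (Rm Ω) := by
    rw [Commute, SemiconjBy, ← hRmul, ← hRmul, hpc]
  obtain ⟨f, hf⟩ := cas_main (p := ρ p) (Ω := ρ Ω) (Q := Rm p) (R := Rm Ω) (F := F)
    (by rw [← map_mul, hp])
    (by rw [Commute, SemiconjBy, ← map_mul, ← map_mul, hpc]) (by rw [← hRmul, hp]) hQc
    (by
      intro s
      rw [hρp, ht1, hQs p hpc, htrR, pow_succ, mul_assoc])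
    (by
      intro s
      rw [← hRone, ← hRsub, ← map_one ρ, ← map_sub, hρp, ht2, hQs _ hpc', htrR, pow_succ, mul_assoc])
    (by
      intro s
      rw [hρp, ht1, hQs p hpc, htrF])
    (by
      intro s
      rw [← hRone, ← hRsub, ← map_one ρ, ← map_sub, hρp, ht2, hQs _ hpc', htrF])
  -- the conclusion
  have hevA : ∀ f : ℚ[X], ∃ y ∈ A, ρ y = ev (ρ Ω) f := by
    intro f
    induction f using Polynomial.induction_on' with
    | add f g hf hg =>
      obtain ⟨y, hy, hy'⟩ := hf
      obtain ⟨z, hz, hz'⟩ := hg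
      exact ⟨y + z, hadd _ hy _ hz, by rw [map_add, map_add, hy', hz']⟩
    | monomial n c =>
      refine ⟨(c : K) • Ω ^ n, by
        rw [← map_ratCast (algebraMap L K) c]
        refine hsmul _ _ ?_
        induction n with
        | zero => rw [pow_zero]; exact h1A
        | succ n ih => rw [pow_succ]; exact hmul _ ih _ hΩA, ?_⟩
      rw [← C_mul_X_pow_eq_monomial, map_mul, map_pow, ev_C, ev_X, smul_mul_assoc, one_mul,
        map_smul, map_pow]
  obtain ⟨y, hy, hy'⟩ := hevA f
  rw [hf] at hy'
  rw [← hρ hy']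
  exact hy

end Pool.Agent.Run7.h301.SL
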