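import Pool.Agent.Run7.h301.SL.Half

/-!
# Consequences of the ratio law
-/

set_option autoImplicit false
set_option linter.unusedSectionVars false

open CategoryTheory MonoidalCategory Module

namespace Pool.Agent.Run7.h301.SL

open Pool.Agent.Y112.SR Pool.Agent.Y112.KD Pool.Agent.R484.NC

universe v u w

section Defs

variable {C : Type u} [Category.{v} C] [Preadditive C] [MonoidalCategory C] [SymmetricCategory C]
  {K : Type w} [Field K]

/-- The tensor product of the images of `e` and `f` has a direct summand (coefficients in `K`), not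
zero, whose realisation has parity `s`. -/
def HasPart (R : SuperRealisation C K) (s : K) {M N : C} (e : Module.End K (R.H.obj M))
    (f : Module.End K (R.H.obj N)) : Prop :=
  ∃ y : Module.End K (R.H.obj (M ⊗ N)), IsSummand (combs R (M ⊗ N)) (tens R e f) y ∧
    (R.par (M ⊗ N)).hom * y = s • y

/-- `e` is the projector to an indecomposable direct summand of `M` (coefficients in `K`). -/
def IsIndecOf (R : SuperRealisation C K) {M : C} (e : Module.End K (R.H.obj M)) : Prop :=
  IsIndec (combs R M) e

/-- The dimensions `(a₀, a₁)` and `(b₀, b₁)` of the even and odd parts of the images of `e` and `f`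
satisfy `a₀ ≠ a₁` and `a₀ b₁ = b₀ a₁`. -/
def Proportional (R : SuperRealisation C K) {M N : C} (e : Module.End K (R.H.obj M))
    (f : Module.End K (R.H.obj N)) : Prop :=
  SameRatio (R.par M).hom e (R.par N).hom f

/-- The dimensions `(a₀, a₁)` and `(b₀, b₁)` of the even and odd parts of the images of `e` and `f`
satisfy `a₀ ≠ a₁` and `a₀ b₀ = a₁ b₁`. -/
def InverselyProportional (R : SuperRealisation C K) {M N : C} (e : Module.End K (R.H.obj M))
    (f : Module.End K (R.H.obj N)) : Prop :=
  InverseRatio (R.par M).hom e (R.par N).hom f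

/-- **The ratio law.** If the tensor product of two indecomposable direct summands has an even direct
summand, not zero, their even and odd dimensions are proportional; if it has an odd one, they are
inversely proportional. -/
def Ratios (R : SuperRealisation C K) : Prop :=
  ∀ (M N : C) (e : Module.End K (R.H.obj M)) (f : Module.End K (R.H.obj N)),
    IsIndecOf R e → IsIndecOf R f →
      (HasPart R 1 e f → Proportional R e f) ∧ (HasPart R (-1) e f → InverselyProportional R e f)

/-- The tensor product of two indecomposable direct summands does not have both an even and an odd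
direct summand. -/
def NotBoth (R : SuperRealisation C K) : Prop :=
  ∀ (M N : C) (e : Module.End K (R.H.obj M)) (f : Module.End K (R.H.obj N)),
    IsIndecOf R e → IsIndecOf R f → ¬ (HasPart R 1 e f ∧ HasPart R (-1) e f)

/-- The tensor square of an indecomposable direct summand has no odd direct summand. -/
def NoOddInSquare (R : SuperRealisation C K) : Prop :=
  ∀ (M : C) (e : Module.End K (R.H.obj M)), IsIndecOf R e → ¬ HasPart R (-1) e e

/-- If the even and the odd part of the realisation of an indecomposable direct summand have the same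
dimension, its tensor products with indecomposable summands have no even and no odd direct
summand. -/
def NoneIfBalanced (R : SuperRealisation C K) : Prop :=
  ∀ (M N : C) (e : Module.End K (R.H.obj M)) (f : Module.End K (R.H.obj N)),
    IsIndecOf R e → IsIndecOf R f →
    signDim (R.par M).hom 1 e = signDim (R.par M).hom (-1) e →
      ¬ HasPart R 1 e f ∧ ¬ HasPart R (-1) e f

/-- `C_NC(M)` holds if and only if each indecomposable direct summand of `M` (coefficients in `K`) is
even or odd: `a₁ = 0` or `a₀ = 0`. -/
def SignIffIndec (R : SuperRealisation C K) : Prop :=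
  ∀ M : C, R.CPlus M ↔ ∀ e : Module.End K (R.H.obj M), IsIndecOf R e →
    signDim (R.par M).hom 1 e = 0 ∨ signDim (R.par M).hom (-1) e = 0

end Defs

section Prim

variable {K V : Type*} [Field K] [CharZero K] [AddCommGroup V] [Module K V]
  [FiniteDimensional K V] {p : Module.End K V} {A : Submodule K (Module.End K V)}

lemma par_mul_of_sdim (h : IsPA p A) {s : K} (hs : s * s = 1) {e : Module.End K V}
    (h0 : sdim p e s = 0) : p * e = (-s) • e := by
  have h1 : ppart p s * e = 0 := LinearMap.range_eq_bot.1 (Submodule.finrank_eq_zero.1 h0)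
  have h2 : (1 + s • p) * e = 0 := by
    rw [← two_smul_ppart, smul_mul_assoc, h1, smul_zero]
  rw [add_mul, one_mul, smul_mul_assoc] at h2
  have h3 : s • (s • (p * e)) = s • (-e) := by
    rw [eq_neg_of_add_eq_zero_right h2]
  rw [smul_smul, hs, one_smul] at h3
  rw [h3, smul_neg, neg_smul]

/-- If all primitive idempotents are even or odd, the parity operator is in the algebra. -/
lemma par_mem_of_prim (h : IsPA p A)
    (hp : ∀ e, Prim A e → sdim p e 1 = 0 ∨ sdim p e (-1) = 0) : p ∈ A := by
  have key : ∀ n : ℕ, ∀ e ∈ A, e * e = e → finrank K (LinearMap.range e) ≤ n → p * e ∈ A := by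
    intro n
    induction n with
    | zero =>
      intro e _ _ hn
      have h0 : e = 0 := LinearMap.range_eq_bot.1 (Submodule.finrank_eq_zero.1 (Nat.le_zero.1 hn))
      rw [h0, mul_zero]
      exact A.zero_mem
    | succ n ih =>
      intro e he hee hn
      by_cases hprim : Prim A e
      · rcases hp e hprim with h0 | h0
        · rw [par_mul_of_sdim h (by ring) h0]
          exact A.smul_mem _ he
        · rw [par_mul_of_sdim h (by ring) h0]
          exact A.smul_mem _ he
      · have h1 : ∃ f ∈ A, f * f = f ∧ e * f = f ∧ f * e = f ∧ f ≠ 0 ∧ f ≠ e := by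
          by_contra hcon
          apply hprim
          refine ⟨he, hee, fun f hf hff h1 h2 => ?_⟩
          by_contra hne
          push Not at hne
          exact hcon ⟨f, hf, hff, h1, h2, hne.1, hne.2⟩
        obtain ⟨f, hf, hff, h1, h2, hf0, hfe⟩ := h1
        have h3 : (e - f) * (e - f) = e - f := by
          rw [sub_mul, mul_sub, mul_sub, hee, h1, h2, hff, sub_self, sub_zero]
        have h4 : f * (e - f) = 0 := by rw [mul_sub, h2, hff, sub_self]
        have h5 : (e - f) * f = 0 := by rw [sub_mul, h1, hff, sub_self]
        have h6 := Pool.Agent.N536.HK.rank_add hff h3 h4 h5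
        rw [add_sub_cancel] at h6
        have h7 : 0 < finrank K (LinearMap.range f) := by
          rw [Nat.pos_iff_ne_zero]
          intro h0
          exact hf0 (LinearMap.range_eq_bot.1 (Submodule.finrank_eq_zero.1 h0))
        have h8 : 0 < finrank K (LinearMap.range (e - f)) := by
          rw [Nat.pos_iff_ne_zero]
          intro h0
          exact hfe (sub_eq_zero.1 (LinearMap.range_eq_bot.1 (Submodule.finrank_eq_zero.1 h0))).symm
        have h9 : p * e = p * f + p * (e - f) := by rw [← mul_add, add_sub_cancel]
        rw [h9]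
        exact A.add_mem (ih f hf hff (by omega)) (ih _ (A.sub_mem he hf) h3 (by omega))
  have h1 := key _ 1 h.one (mul_one 1) le_rfl
  rwa [mul_one] at h1

/-- If the parity operator is in the algebra, all primitive idempotents are even or odd. -/
lemma prim_of_par_mem (h : IsPA p A) (hp : p ∈ A) {e : Module.End K V} (he : Prim A e) :
    sdim p e 1 = 0 ∨ sdim p e (-1) = 0 := by
  have o1 : (1 : K) * 1 = 1 := by ring
  have hpp : ppart p 1 ∈ A := A.smul_mem _ (A.add_mem h.one (A.smul_mem _ hp))
  have hcomm := ppart_comm (h.comm _ he.1) (1 : K)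
  have h1 := ppart_mul_idem h.sq o1 (h.comm _ he.1) he.2.1
  have h2 : e * (ppart p 1 * e) = ppart p 1 * e := by
    rw [← mul_assoc, ← hcomm, mul_assoc, he.2.1]
  have h3 : ppart p 1 * e * e = ppart p 1 * e := by rw [mul_assoc, he.2.1]
  rcases he.2.2 _ (h.mul _ hpp _ he.1) h1 h2 h3 with h4 | h4
  · left
    rw [sdim, h4, LinearMap.range_zero, finrank_bot]
  · right
    have h5 : ppart p (-1) * e = 0 := by
      have h6 : ppart p 1 * e + ppart p (-1) * e = e := by
        rw [← add_mul, ppart_add, one_mul]
      rw [h4] at h6
      exact left_eq_add.1 h6.symm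
    rw [sdim, h5, LinearMap.range_zero, finrank_bot]

end Prim

variable {C : Type u} [Category.{v} C] [Preadditive C] [Linear ℚ C] [MonoidalCategory C]
  [SymmetricCategory C] [RightRigidCategory C] {K : Type w} [Field K]
  (R : SuperRealisation C K)

theorem ratios : Ratios R := by
  intro M N e f he hf
  refine ⟨?_, ?_⟩
  · rintro ⟨y, hy, h⟩
    exact (ratioLaw R M N e f he hf y hy).1 (by rw [h, one_smul])
  · rintro ⟨y, hy, h⟩
    exact (ratioLaw R M N e f he hf y hy).2 (by rw [h, neg_smul, one_smul])

theorem notBoth : NotBoth R := by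
  rintro M N e f he hf ⟨h0, h1⟩
  have hc := R_charZero R
  have hN := R.finite N
  obtain ⟨hne, h2⟩ := (ratios R M N e f he hf).1 h0
  obtain ⟨-, h3⟩ := (ratios R M N e f he hf).2 h1
  have h6 := sdim_add (isPA R N) hf.1 hf.2.1
  rw [← signDim_eq (isPA R N) (by ring : (1 : K) * 1 = 1) hf.1 hf.2.1,
    ← signDim_eq (isPA R N) (by ring : (-1 : K) * (-1) = 1) hf.1 hf.2.1] at h6
  set a := signDim (R.par M).hom 1 e
  set a' := signDim (R.par M).hom (-1) e
  set b := signDim (R.par N).hom 1 f
  set b' := signDim (R.par N).hom (-1) f
  have hb' : b' = 0 := by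
    by_contra hb
    apply hne
    have h7 : b' * (a * a) = b' * (a' * a') := by
      calc b' * (a * a) = a * (a * b') := by ring
        _ = a * (b * a') := by rw [h2]
        _ = a' * (a * b) := by ring
        _ = a' * (a' * b') := by rw [h3]
        _ = b' * (a' * a') := by ring
    exact Nat.mul_self_inj.1 (Nat.eq_of_mul_eq_mul_left (Nat.pos_of_ne_zero hb) h7)
  have hb : b = 0 := by
    by_contra hb
    apply hne
    rw [hb', mul_zero] at h2 h3
    rcases Nat.mul_eq_zero.1 h3 with h8 | h8
    · rcases Nat.mul_eq_zero.1 h2.symm with h9 | h9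
      · exact absurd h9 hb
      · rw [h8, h9]
    · exact absurd h8 hb
  rw [hb, hb', add_zero] at h6
  have hf0 : f = 0 := LinearMap.range_eq_bot.1 (Submodule.finrank_eq_zero.1 h6.symm)
  obtain ⟨y, ⟨-, -, hy0, hy⟩, -⟩ := h0
  apply hy0
  have h9 : ext (mu R M N) e f * y = y := hy
  rw [← h9, hf0, ext_zero_right, zero_mul]

theorem noOddInSquare : NoOddInSquare R := by
  intro M e he h1
  obtain ⟨hne, h2⟩ := (ratios R M M e e he he).2 h1
  exact hne (Nat.mul_self_inj.1 h2)

theorem noneIfBalanced : NoneIfBalanced R := by
  intro M N e f he hf hb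
  exact ⟨fun h => ((ratios R M N e f he hf).1 h).1 hb,
    fun h => ((ratios R M N e f he hf).2 h).1 hb⟩

theorem signIffIndec (hD : Descends R) : SignIffIndec R := by
  intro M
  have hc := R_charZero R
  have hM := R.finite M
  have h1 : R.CPlus M ↔ (R.par M).hom ∈ combs R M := by
    rw [cplus_iff_split hD M, splitDim_eq, ← cdim_eq_iff (isPA R M)]
    rfl
  rw [h1]
  constructor
  · intro hp e he
    rw [signDim_eq (isPA R M) (by ring : (1 : K) * 1 = 1) he.1 he.2.1,
      signDim_eq (isPA R M) (by ring : (-1 : K) * (-1) = 1) he.1 he.2.1]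
    exact prim_of_par_mem (isPA R M) hp he
  · intro h
    refine par_mem_of_prim (isPA R M) fun e he => ?_
    have h2 := h e he
    rwa [signDim_eq (isPA R M) (by ring : (1 : K) * 1 = 1) he.1 he.2.1,
      signDim_eq (isPA R M) (by ring : (-1 : K) * (-1) = 1) he.1 he.2.1] at h2

end Pool.Agent.Run7.h301.SL
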