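import Pool.Agent.Run7.h301.SL.Bound

/-!
# The sharper bound: the induction
-/

set_option autoImplicit false
set_option linter.unusedSectionVars false

open Module TensorProduct

namespace Pool.Agent.Run7.h301.SL

open Pool.Agent.H914 Pool.Agent.N536.HK

section One

variable {K V : Type*} [Field K] [CharZero K] [AddCommGroup V] [Module K V]
  [FiniteDimensional K V] {p : Module.End K V} {A : Submodule K (Module.End K V)}

/-- A splitting of an idempotent which is not primitive. -/
lemma exists_split {e : Module.End K V} (he : e ∈ A) (hee : e * e = e) (hn : ¬ Prim A e) :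
    ∃ e1 ∈ A, ∃ e2 ∈ A, e1 * e1 = e1 ∧ e2 * e2 = e2 ∧ e = e1 + e2 ∧
      finrank K (LinearMap.range e) = finrank K (LinearMap.range e1) +
        finrank K (LinearMap.range e2) ∧ 1 ≤ finrank K (LinearMap.range e1) ∧
      1 ≤ finrank K (LinearMap.range e2) := by
  have hpos : ∀ g : Module.End K V, g ≠ 0 → 1 ≤ finrank K (LinearMap.range g) := by
    intro g hg
    rw [Nat.one_le_iff_ne_zero]
    intro h0
    exact hg (LinearMap.range_eq_bot.1 (Submodule.finrank_eq_zero.1 h0))
  simp only [Prim, not_and, not_forall, not_or] at hn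
  obtain ⟨f, hf, hff, h1, h2, h3, h4⟩ := hn he hee
  have h5 : (e - f) * (e - f) = e - f := by
    rw [mul_sub, sub_mul, sub_mul, hee, h1, h2, hff]
    abel
  have h6 : f * (e - f) = 0 := by rw [mul_sub, h2, hff, sub_self]
  have h7 : (e - f) * f = 0 := by rw [sub_mul, h1, hff, sub_self]
  have h8 : e = f + (e - f) := by abel
  refine ⟨f, hf, e - f, A.sub_mem he hf, hff, h5, h8, ?_, hpos f h3, hpos _ ?_⟩
  · conv_lhs => rw [h8]
    exact Pool.Agent.N536.HK.rank_add hff h5 h6 h7
  · intro h9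
    exact h4 (sub_eq_zero.1 h9).symm

/-- The numbers of a pure idempotent. -/
lemma pure_nums (h : IsPA p A) {ε0 ε1 : Module.End K V} (h0 : IsMaxIdem p A 1 ε0)
    (h1 : IsMaxIdem p A (-1) ε1) {s : K} (hs : s * s = 1) {e : Module.End K V}
    (he : e ∈ Pure p A s) {c d : ℕ}
    (hc : (c : K) = LinearMap.trace K V (e * (ε0 + ε1)))
    (hd : (d : K) = LinearMap.trace K V (e * (1 - (ε0 + ε1)))) :
    d = 0 ∧ (c : K) = LinearMap.trace K V e := by
  have h2 := trace_pure_total h h0 h1 hs he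
  rw [mul_sub, mul_one, map_sub, h2, sub_self] at hd
  rw [h2] at hc
  exact ⟨by exact_mod_cast hd, hc⟩

/-- The numbers of a primitive idempotent which is not pure. -/
lemma mixed_nums (h : IsPA p A) {ε0 ε1 : Module.End K V} (h0 : IsMaxIdem p A 1 ε0)
    (h1 : IsMaxIdem p A (-1) ε1) {e : Module.End K V} (he : Prim A e)
    (hn : ∀ s : K, s * s = 1 → e ∉ Pure p A s) {c d : ℕ}
    (hc : (c : K) = LinearMap.trace K V (e * (ε0 + ε1)))
    (hd : (d : K) = LinearMap.trace K V (e * (1 - (ε0 + ε1)))) :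
    c = 0 ∧ d = finrank K (LinearMap.range e) := by
  have t0 : LinearMap.trace K V (e * ε0) = 0 := by
    by_contra hne
    exact hn 1 (by ring) (pure_of_trace h h0 he hne)
  have t1 : LinearMap.trace K V (e * ε1) = 0 := by
    by_contra hne
    exact hn (-1) (by ring) (pure_of_trace h h1 he hne)
  have t2 : LinearMap.trace K V (e * (ε0 + ε1)) = 0 := by rw [mul_add, map_add, t0, t1, add_zero]
  rw [mul_sub, mul_one, map_sub, t2, sub_zero, Pool.Agent.N536.HK.trace_idem he.2.1] at hd
  rw [t2] at hc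
  exact ⟨by exact_mod_cast hc, by exact_mod_cast hd⟩

lemma nk_mul (h : IsPA p A) {v : Module.End K V} (hv : NK p A v) {f : Module.End K V}
    (hf : f ∈ A) : NK p A (f * v) := by
  intro s hs a ha
  rw [mul_assoc, LinearMap.trace_mul_comm, mul_assoc]
  exact hv s hs _ (pure_mul h ha hf)

end One

variable {K V W : Type*} [Field K] [CharZero K] [AddCommGroup V] [Module K V] [AddCommGroup W]
  [Module K W] [FiniteDimensional K V] [FiniteDimensional K W]
  {U : Type*} [AddCommGroup U] [Module K U] {E : (V ⊗[K] W) ≃ₗ[K] U}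
  {p : Module.End K V} {A : Submodule K (Module.End K V)} {p' : Module.End K W}
  {B : Submodule K (Module.End K W)} {q : Module.End K U} {D : Submodule K (Module.End K U)}
  {U' : Type*} [AddCommGroup U'] [Module K U'] {E' : (W ⊗[K] V) ≃ₗ[K] U'}
  {q' : Module.End K U'} {D' : Submodule K (Module.End K U')} {σ : U ≃ₗ[K] U'}

/-- Pure first factor. -/
lemma pure_left [FiniteDimensional K U] (hA : IsPA p A) (hB : IsPA p' B) (hD : IsPA q D)
    (hD' : IsPA q' D')
    (h : IsProd E p A p' B q D) (h' : IsProd E' p' B p A q' D')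
    (hσ : IsSwap E E' σ p p' q D q' D') {φ0 φ1 : Module.End K W}
    (b0 : IsMaxIdem p' B 1 φ0) (b1 : IsMaxIdem p' B (-1) φ1) {δ0 δ1 : Module.End K U}
    (d0 : IsMaxIdem q D 1 δ0) (d1 : IsMaxIdem q D (-1) δ1) {s : K} (hs : s * s = 1)
    {e : Module.End K V} (he : e ∈ Pure p A s) {f : Module.End K W} (hf : f ∈ B) :
    LinearMap.trace K U (ext E e f * (δ0 + δ1)) =
      LinearMap.trace K V e * LinearMap.trace K W (f * (φ0 + φ1)) := by
  have o1 : (1 : K) * 1 = 1 := by ring
  have o2 : (-1 : K) * (-1) = 1 := by ring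
  have hφ : (φ0 + φ1) ∈ B := B.add_mem b0.mem.1 b1.mem.1
  have hw : NK p' B (f * (1 - (φ0 + φ1))) := nk_mul hB (nk_of_max hB b0 b1) hf
  have hwB : f * (1 - (φ0 + φ1)) ∈ B := hB.mul _ hf _ (B.sub_mem hB.one hφ)
  have k0 := orth_left hA hB hD' h' hσ hw hwB hs he o1 d0.mem
  have k1 := orth_left hA hB hD' h' hσ hw hwB hs he o2 d1.mem
  have e1 : ext E e f = ext E e (f * (1 - (φ0 + φ1))) + (ext E e (f * φ0) + ext E e (f * φ1)) := by
    rw [← ext_add_right, ← ext_add_right, ← mul_add, ← mul_add, sub_add_cancel, mul_one]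
  have p0 : ext E e (f * φ0) ∈ Pure q D (s * 1) := by
    have hm := mul_pure hB b0.mem hf
    refine ⟨h.mem _ he.1 _ hm.1, ?_⟩
    rw [h.par, ext_mul, he.2, hm.2, ext_smul_left, ext_smul_right, smul_smul]
  have p1 : ext E e (f * φ1) ∈ Pure q D (s * (-1)) := by
    have hm := mul_pure hB b1.mem hf
    refine ⟨h.mem _ he.1 _ hm.1, ?_⟩
    rw [h.par, ext_mul, he.2, hm.2, ext_smul_left, ext_smul_right, smul_smul]
  have q0 := trace_pure_total hD d0 d1 (by linear_combination hs) p0
  have q1 := trace_pure_total hD d0 d1 (by linear_combination hs) p1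
  rw [e1, add_mul, add_mul, map_add, map_add, q0, q1, mul_add, map_add, k0, k1, trace_ext,
    trace_ext, ← mul_add, ← map_add, ← mul_add]
  ring

/-- Pure second factor. -/
lemma pure_right [FiniteDimensional K U] (hA : IsPA p A) (hB : IsPA p' B) (hD : IsPA q D)
    (h : IsProd E p A p' B q D) {ε0 ε1 : Module.End K V}
    (a0 : IsMaxIdem p A 1 ε0) (a1 : IsMaxIdem p A (-1) ε1) {δ0 δ1 : Module.End K U}
    (d0 : IsMaxIdem q D 1 δ0) (d1 : IsMaxIdem q D (-1) δ1) {s : K} (hs : s * s = 1)
    {f : Module.End K W} (hf : f ∈ Pure p' B s) {e : Module.End K V} (he : e ∈ A) :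
    LinearMap.trace K U (ext E e f * (δ0 + δ1)) =
      LinearMap.trace K V (e * (ε0 + ε1)) * LinearMap.trace K W f := by
  have o1 : (1 : K) * 1 = 1 := by ring
  have o2 : (-1 : K) * (-1) = 1 := by ring
  have hw : NK p A (e * (1 - (ε0 + ε1))) := nk_mul hA (nk_of_max hA a0 a1) he
  have k0 := orth_right hA hB hD h hw hs hf o1 d0.mem
  have k1 := orth_right hA hB hD h hw hs hf o2 d1.mem
  have e1 : ext E e f = ext E (e * (1 - (ε0 + ε1))) f + (ext E (e * ε0) f + ext E (e * ε1) f) := by
    rw [← ext_add_left, ← ext_add_left, ← mul_add, ← mul_add, sub_add_cancel, mul_one]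
  have p0 : ext E (e * ε0) f ∈ Pure q D (1 * s) := by
    have hm := mul_pure hA a0.mem he
    refine ⟨h.mem _ hm.1 _ hf.1, ?_⟩
    rw [h.par, ext_mul, hm.2, hf.2, ext_smul_left, ext_smul_right, smul_smul]
  have p1 : ext E (e * ε1) f ∈ Pure q D ((-1) * s) := by
    have hm := mul_pure hA a1.mem he
    refine ⟨h.mem _ hm.1 _ hf.1, ?_⟩
    rw [h.par, ext_mul, hm.2, hf.2, ext_smul_left, ext_smul_right, smul_smul]
  have q0 := trace_pure_total hD d0 d1 (by linear_combination hs) p0
  have q1 := trace_pure_total hD d0 d1 (by linear_combination hs) p1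
  rw [e1, add_mul, add_mul, map_add, map_add, q0, q1, mul_add, map_add, k0, k1, trace_ext,
    trace_ext, ← add_mul, ← map_add, ← mul_add]
  ring

/-- The induction. -/
lemma bound_aux [FiniteDimensional K U] (hA : IsPA p A) (hB : IsPA p' B)
    (hD : IsPA q D) (hD' : IsPA q' D')
    (h : IsProd E p A p' B q D) (h' : IsProd E' p' B p A q' D')
    (hσ : IsSwap E E' σ p p' q D q' D') {ε0 ε1 : Module.End K V}
    (a0 : IsMaxIdem p A 1 ε0) (a1 : IsMaxIdem p A (-1) ε1) {φ0 φ1 : Module.End K W}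
    (b0 : IsMaxIdem p' B 1 φ0) (b1 : IsMaxIdem p' B (-1) φ1) {δ0 δ1 : Module.End K U}
    (d0 : IsMaxIdem q D 1 δ0) (d1 : IsMaxIdem q D (-1) δ1) (m : ℕ) :
    ∀ (n : ℕ) (e : Module.End K V) (f : Module.End K W), e ∈ A → e * e = e → f ∈ B → f * f = f →
      finrank K (LinearMap.range e) + finrank K (LinearMap.range f) ≤ n →
      finrank K (LinearMap.range e) ≤ m + 1 →
      ∀ c d c' d' c'' : ℕ, (c : K) = LinearMap.trace K V (e * (ε0 + ε1)) →
        (d : K) = LinearMap.trace K V (e * (1 - (ε0 + ε1))) →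
        (c' : K) = LinearMap.trace K W (f * (φ0 + φ1)) →
        (d' : K) = LinearMap.trace K W (f * (1 - (φ0 + φ1))) →
        (c'' : K) = LinearMap.trace K U (ext E e f * (δ0 + δ1)) →
        (m + 1) ^ 2 * c'' + 2 * m * (d * d') ≤ (m + 1) ^ 2 * (c * c' + d * d') := by
  have o1 : (1 : K) * 1 = 1 := by ring
  have o2 : (-1 : K) * (-1) = 1 := by ring
  intro n
  induction n using Nat.strong_induction_on with
  | _ n ih =>
  intro e f he hee hf hff hn hm c d c' d' c'' hc hd hc' hd' hc''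
  by_cases hpe : Prim A e
  · by_cases hpf : Prim B f
    · by_cases hpure : ∃ s : K, s * s = 1 ∧ e ∈ Pure p A s
      · obtain ⟨s, hs, hes⟩ := hpure
        obtain ⟨rfl, h1⟩ := pure_nums hA a0 a1 hs hes hc hd
        have h2 := pure_left hA hB hD hD' h h' hσ b0 b1 d0 d1 hs hes hf
        rw [← hc'', ← hc', ← h1] at h2
        have h3 : c'' = c * c' := by exact_mod_cast h2
        rw [h3]
        simp
      · by_cases hpure' : ∃ s : K, s * s = 1 ∧ f ∈ Pure p' B s
        · obtain ⟨s, hs, hfs⟩ := hpure'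
          obtain ⟨rfl, h1⟩ := pure_nums hB b0 b1 hs hfs hc' hd'
          have h2 := pure_right hA hB hD h a0 a1 d0 d1 hs hfs he
          rw [← hc'', ← hc, ← h1] at h2
          have h3 : c'' = c * c' := by exact_mod_cast h2
          rw [h3]
          simp
        · push Not at hpure hpure'
          obtain ⟨rfl, hd1⟩ := mixed_nums hA a0 a1 hpe hpure hc hd
          obtain ⟨rfl, hd1'⟩ := mixed_nums hB b0 b1 hpf hpure' hc' hd'
          have hX := h.mem _ he _ hf
          have hXX := ext_idem (E := E) hee hff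
          obtain ⟨c0, k0, l0⟩ := trace_corner hD o1 d0 hX hXX
          obtain ⟨c1, k1, l1⟩ := trace_corner hD o2 d1 hX hXX
          obtain ⟨s1, s2⟩ := sdim_ext hA hB hD h he hee hf hff
          obtain ⟨r1, r2⟩ := ratio hA hB hD hD' h h' hσ hpe hpf
          have hc2 : c'' = c0 + c1 := by
            have : (c'' : K) = ((c0 + c1 : ℕ) : K) := by
              rw [hc'', mul_add, map_add, ← k0, ← k1]
              push_cast
              rfl
            exact_mod_cast this
          have ha := sdim_add hA he hee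
          have hb := sdim_add hB hf hff
          have p1 := sdim_pos hA (Or.inl rfl) he (hpure _ (by ring : (-(1 : K)) * (-1) = 1))
          have p2 := sdim_pos hA (Or.inr rfl) he (hpure _ (by ring : (-(-1 : K)) * (-(-1)) = 1))
          have p3 := sdim_pos hB (Or.inl rfl) hf (hpure' _ (by ring : (-(1 : K)) * (-1) = 1))
          have p4 := sdim_pos hB (Or.inr rfl) hf (hpure' _ (by ring : (-(-1 : K)) * (-(-1)) = 1))
          rw [hd1, hd1', ← ha, ← hb, hc2, zero_mul, zero_add]
          refine arith p1 p2 p3 p4 (by rw [ha]; exact hm) ?_ ?_ ?_ ?_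
          · intro hne
            refine r1 δ0 d0.mem ?_
            rw [← k0]
            exact_mod_cast hne
          · intro hne
            refine r2 δ1 d1.mem ?_
            rw [← k1]
            exact_mod_cast hne
          · rw [← s1]
            exact l0
          · rw [← s2]
            exact l1
    · obtain ⟨f1, hf1, f2, hf2, hff1, hff2, hsum, hrk, hp1, hp2⟩ := exists_split hf hff hpf
      obtain ⟨x1, y1, hx1, hy1, -⟩ := exists_nums hB b0 b1 hf1 hff1
      obtain ⟨x2, y2, hx2, hy2, -⟩ := exists_nums hB b0 b1 hf2 hff2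
      obtain ⟨z1, -, hz1, -, -⟩ := exists_nums hD d0 d1 (h.mem _ he _ hf1) (ext_idem hee hff1)
      obtain ⟨z2, -, hz2, -, -⟩ := exists_nums hD d0 d1 (h.mem _ he _ hf2) (ext_idem hee hff2)
      have i1 := ih (finrank K (LinearMap.range e) + finrank K (LinearMap.range f1)) (by omega)
        e f1 he hee hf1 hff1 le_rfl hm c d x1 y1 z1 hc hd hx1 hy1 hz1
      have i2 := ih (finrank K (LinearMap.range e) + finrank K (LinearMap.range f2)) (by omega)
        e f2 he hee hf2 hff2 le_rfl hm c d x2 y2 z2 hc hd hx2 hy2 hz2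
      have g1 : c' = x1 + x2 := by
        have : (c' : K) = ((x1 + x2 : ℕ) : K) := by
          rw [hc', hsum, add_mul, map_add, ← hx1, ← hx2]
          push_cast
          rfl
        exact_mod_cast this
      have g2 : d' = y1 + y2 := by
        have : (d' : K) = ((y1 + y2 : ℕ) : K) := by
          rw [hd', hsum, add_mul, map_add, ← hy1, ← hy2]
          push_cast
          rfl
        exact_mod_cast this
      have g3 : c'' = z1 + z2 := by
        have : (c'' : K) = ((z1 + z2 : ℕ) : K) := by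
          rw [hc'', hsum, ext_add_right, add_mul, map_add, ← hz1, ← hz2]
          push_cast
          rfl
        exact_mod_cast this
      rw [g1, g2, g3]
      calc (m + 1) ^ 2 * (z1 + z2) + 2 * m * (d * (y1 + y2)) =
          ((m + 1) ^ 2 * z1 + 2 * m * (d * y1)) + ((m + 1) ^ 2 * z2 + 2 * m * (d * y2)) := by ring
        _ ≤ (m + 1) ^ 2 * (c * x1 + d * y1) + (m + 1) ^ 2 * (c * x2 + d * y2) := add_le_add i1 i2
        _ = (m + 1) ^ 2 * (c * (x1 + x2) + d * (y1 + y2)) := by ring
  · obtain ⟨e1, he1, e2, he2, hee1, hee2, hsum, hrk, hp1, hp2⟩ := exists_split he hee hpe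
    obtain ⟨x1, y1, hx1, hy1, -⟩ := exists_nums hA a0 a1 he1 hee1
    obtain ⟨x2, y2, hx2, hy2, -⟩ := exists_nums hA a0 a1 he2 hee2
    obtain ⟨z1, -, hz1, -, -⟩ := exists_nums hD d0 d1 (h.mem _ he1 _ hf) (ext_idem hee1 hff)
    obtain ⟨z2, -, hz2, -, -⟩ := exists_nums hD d0 d1 (h.mem _ he2 _ hf) (ext_idem hee2 hff)
    have i1 := ih (finrank K (LinearMap.range e1) + finrank K (LinearMap.range f)) (by omega)
      e1 f he1 hee1 hf hff le_rfl (by omega) x1 y1 c' d' z1 hx1 hy1 hc' hd' hz1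
    have i2 := ih (finrank K (LinearMap.range e2) + finrank K (LinearMap.range f)) (by omega)
      e2 f he2 hee2 hf hff le_rfl (by omega) x2 y2 c' d' z2 hx2 hy2 hc' hd' hz2
    have g1 : c = x1 + x2 := by
      have : (c : K) = ((x1 + x2 : ℕ) : K) := by
        rw [hc, hsum, add_mul, map_add, ← hx1, ← hx2]
        push_cast
        rfl
      exact_mod_cast this
    have g2 : d = y1 + y2 := by
      have : (d : K) = ((y1 + y2 : ℕ) : K) := by
        rw [hd, hsum, add_mul, map_add, ← hy1, ← hy2]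
        push_cast
        rfl
      exact_mod_cast this
    have g3 : c'' = z1 + z2 := by
      have : (c'' : K) = ((z1 + z2 : ℕ) : K) := by
        rw [hc'', hsum, ext_add_left, add_mul, map_add, ← hz1, ← hz2]
        push_cast
        rfl
      exact_mod_cast this
    rw [g1, g2, g3]
    calc (m + 1) ^ 2 * (z1 + z2) + 2 * m * ((y1 + y2) * d') =
        ((m + 1) ^ 2 * z1 + 2 * m * (y1 * d')) + ((m + 1) ^ 2 * z2 + 2 * m * (y2 * d')) := by ring
      _ ≤ (m + 1) ^ 2 * (x1 * c' + y1 * d') + (m + 1) ^ 2 * (x2 * c' + y2 * d') := add_le_add i1 i2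
      _ = (m + 1) ^ 2 * ((x1 + x2) * c' + (y1 + y2) * d') := by ring

/-- **The sharper bound.** -/
theorem cdim_prod_sharp [FiniteDimensional K U] (hA : IsPA p A) (hB : IsPA p' B)
    (hD : IsPA q D) (hD' : IsPA q' D')
    (h : IsProd E p A p' B q D) (h' : IsProd E' p' B p A q' D')
    (hσ : IsSwap E E' σ p p' q D q' D') {m : ℕ} (hm : finrank K V ≤ m + 1) :
    (m + 1) ^ 2 * cdim q D +
        2 * m * ((finrank K V - cdim p A) * (finrank K W - cdim p' B)) ≤
      (m + 1) ^ 2 * (cdim p A * cdim p' B +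
        (finrank K V - cdim p A) * (finrank K W - cdim p' B)) := by
  obtain ⟨ε0, a0⟩ := exists_maxIdem hA 1
  obtain ⟨ε1, a1⟩ := exists_maxIdem hA (-1)
  obtain ⟨φ0, b0⟩ := exists_maxIdem hB 1
  obtain ⟨φ1, b1⟩ := exists_maxIdem hB (-1)
  obtain ⟨δ0, d0⟩ := exists_maxIdem hD 1
  obtain ⟨δ1, d1⟩ := exists_maxIdem hD (-1)
  have hε : Halves p A (ε0 + ε1) := ⟨ε0, a0.mem, ε1, a1.mem, a0.idem, a1.idem, rfl⟩
  have hφ : Halves p' B (φ0 + φ1) := ⟨φ0, b0.mem, φ1, b1.mem, b0.idem, b1.idem, rfl⟩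
  have hδ : Halves q D (δ0 + δ1) := ⟨δ0, d0.mem, δ1, d1.mem, d0.idem, d1.idem, rfl⟩
  have tA := halves_map hA hε (nk_of_max hA a0 a1)
  have tB := halves_map hB hφ (nk_of_max hB b0 b1)
  have tD := halves_map hD hδ (nk_of_max hD d0 d1)
  refine bound_aux hA hB hD hD' h h' hσ a0 a1 b0 b1 d0 d1 m _ 1 1 hA.one (mul_one 1) hB.one
    (mul_one 1) le_rfl ((Submodule.finrank_le _).trans hm) _ _ _ _ _ ?_ ?_ ?_ ?_ ?_
  · rw [one_mul]; exact tA.1
  · rw [one_mul]; exact tA.2
  · rw [one_mul]; exact tB.1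
  · rw [one_mul]; exact tB.2
  · rw [ext_one, one_mul]; exact tD.1

end Pool.Agent.Run7.h301.SL
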