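import Pool.Agent.Run7.h301.SL.HalfDefs
import Pool.Agent.Run7.h301.SL.Induct
import Pool.Agent.Run7.h301.SL.Main

/-!
# One half suffices
-/

set_option autoImplicit false
set_option linter.unusedSectionVars false

open CategoryTheory Limits MonoidalCategory Module Filter

namespace Pool.Agent.Run7.h301.SL

open Pool.Agent.Y112.SR Pool.Agent.Y112.KD Pool.Agent.R484.NC

universe v u w

/-- Transport along a linear equivalence. -/
lemma cdim_conj_le {K U U' : Type*} [Field K] [CharZero K] [AddCommGroup U] [Module K U]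
    [FiniteDimensional K U] [AddCommGroup U'] [Module K U'] [FiniteDimensional K U']
    {q : Module.End K U} {D : Submodule K (Module.End K U)} {q' : Module.End K U'}
    {D' : Submodule K (Module.End K U')} (hD : IsPA q D) (hD' : IsPA q' D') (σ : U ≃ₗ[K] U')
    (hmem : ∀ y ∈ D, σ.conj y ∈ D') (hpar : σ.conj q = q') : cdim q D ≤ cdim q' D' := by
  obtain ⟨e, he, hN⟩ := exists_halves hD
  have hid := he.idem hD
  have hp : ∀ {s : K} {a : Module.End K U}, a ∈ Pure q D s → σ.conj a ∈ Pure q' D' s := by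
    intro s a ha
    exact ⟨hmem a ha.1, by rw [← hpar, ← conj_mul', ha.2, map_smul]⟩
  have he' : Halves q' D' (σ.conj e) := by
    obtain ⟨e0, h0, e1, h1, h2, h3, rfl⟩ := he
    exact ⟨_, hp h0, _, hp h1, by rw [← conj_mul', h2], by rw [← conj_mul', h3], map_add _ _ _⟩
  have h1 := rank_le_cdim hD' he'
  have h2 : (finrank K (LinearMap.range (σ.conj e)) : K) = finrank K (LinearMap.range e) := by
    rw [← Pool.Agent.N536.HK.trace_idem hid, ← Pool.Agent.N536.HK.trace_idem (he'.idem hD'),
      LinearMap.trace_conj']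
  have h3 : finrank K (LinearMap.range (σ.conj e)) = finrank K (LinearMap.range e) := by
    exact_mod_cast h2
  rwa [h3, ← cdim_eq hD he hN] at h1

section

variable {C : Type u} [Category.{v} C] [Preadditive C] [Linear ℚ C] [MonoidalCategory C]
  [SymmetricCategory C] [RightRigidCategory C] {K : Type w} [Field K]
  (R : SuperRealisation C K)

lemma splitDim_swap (M N : C) : splitDim R (M ⊗ N) = splitDim R (N ⊗ M) := by
  have hc := R_charZero R
  have hM := R.finite (M ⊗ N)
  have hN := R.finite (N ⊗ M)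
  rw [splitDim_eq, splitDim_eq]
  exact le_antisymm
    (cdim_conj_le (isPA R _) (isPA R _) (sw R M N) (isSwap R M N).mem (isSwap R M N).par)
    (cdim_conj_le (isPA R _) (isPA R _) (sw R N M) (isSwap R N M).mem (isSwap R N M).par)

/-- **The sharper bound.** -/
theorem sharpBound (M N : C) : SharpBound R M N := by
  have hc := R_charZero R
  have hM := R.finite M
  have hN := R.finite N
  have hMN := R.finite (M ⊗ N)
  unfold SharpBound
  by_cases h0 : totalDim R M = 0
  · rw [h0]
    simp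
  obtain ⟨m, hm⟩ := Nat.exists_eq_succ_of_ne_zero h0
  have h1 := cdim_prod_sharp (isPA R M) (isPA R N) (isPA R (M ⊗ N)) (isPA R (N ⊗ M))
    (isProd R M N) (isProd R N M) (isSwap R M N) (m := m) (by
      have : totalDim R M ≤ m + 1 := by omega
      exact this)
  rw [← splitDim_eq, ← splitDim_eq, ← splitDim_eq] at h1
  have h2 : totalDim R M = m + 1 := hm
  have h3 : totalDim R M - 1 = m := by omega
  rw [h3]
  have h4 : finrank K (R.H.obj M) = totalDim R M := rfl
  have h5 : finrank K (R.H.obj N) = totalDim R N := rfl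
  rw [h4, h5] at h1
  rw [← h2] at h1
  exact h1

/-- The two descriptions of the dimension of a part agree. -/
lemma signDim_eq {L V : Type*} [Field L] [CharZero L] [AddCommGroup V] [Module L V]
    [FiniteDimensional L V] {p : Module.End L V} {A : Submodule L (Module.End L V)} (h : IsPA p A)
    {s : L} (hs : s * s = 1) {e : Module.End L V} (he : e ∈ A) (hee : e * e = e) :
    signDim p s e = sdim p e s := by
  have h3 : LinearMap.range e ⊓ Module.End.eigenspace p s = LinearMap.range (ppart p s * e) := by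
    apply le_antisymm
    · rintro x ⟨⟨y, hy⟩, hx2⟩
      have hx3 : p x = s • x := Module.End.mem_eigenspace_iff.1 hx2
      have hx1 : e x = x := by rw [← hy, ← Module.End.mul_apply, hee]
      refine ⟨x, ?_⟩
      rw [Module.End.mul_apply, hx1, ppart, LinearMap.smul_apply, LinearMap.add_apply,
        LinearMap.smul_apply, hx3, Module.End.one_apply, smul_smul, hs, one_smul, ← two_smul L x,
        smul_smul, inv_mul_cancel₀ (two_ne_zero : (2 : L) ≠ 0), one_smul]
    · rintro _ ⟨x, rfl⟩
      constructor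
      · refine ⟨(ppart p s * e) x, ?_⟩
        have h4 : e * (ppart p s * e) = ppart p s * e := by
          rw [← mul_assoc, ← ppart_comm (h.comm _ he) s, mul_assoc, hee]
        rw [← Module.End.mul_apply, h4]
      · apply Module.End.mem_eigenspace_iff.2
        have h4 : p * (ppart p s * e) = s • (ppart p s * e) := by
          rw [← mul_assoc, par_ppart h.sq hs, smul_mul_assoc]
        rw [← Module.End.mul_apply, h4, LinearMap.smul_apply]
  rw [signDim, sdim, h3]

/-- **The ratio law.** -/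
theorem ratioLaw : RatioLaw R := by
  rintro M N e f he hf y ⟨hy, hyy, hy0, hefy⟩
  have hc := R_charZero R
  have hM := R.finite M
  have hN := R.finite N
  have hMN := R.finite (M ⊗ N)
  have o1 : (1 : K) * 1 = 1 := by ring
  have o2 : (-1 : K) * (-1) = 1 := by ring
  have h1 := ratio (isPA R M) (isPA R N) (isPA R (M ⊗ N)) (isPA R (N ⊗ M)) (isProd R M N)
    (isProd R N M) (isSwap R M N) he hf
  have h2 : LinearMap.trace K (R.H.obj (M ⊗ N)) (ext (mu R M N) e f * y) ≠ 0 := by
    have h3 : ext (mu R M N) e f * y = y := hefy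
    rw [h3, Pool.Agent.N536.HK.trace_idem hyy]
    intro h4
    apply hy0
    exact LinearMap.range_eq_bot.1 (Submodule.finrank_eq_zero.1 (by exact_mod_cast h4))
  rw [SameRatio, InverseRatio, signDim_eq (isPA R M) o1 he.1 he.2.1,
    signDim_eq (isPA R M) o2 he.1 he.2.1,
    signDim_eq (isPA R N) o1 hf.1 hf.2.1,
    signDim_eq (isPA R N) o2 hf.1 hf.2.1]
  exact ⟨fun hp => h1.1 y ⟨hy, by rw [one_smul]; exact hp⟩ h2,
    fun hp => h1.2 y ⟨hy, by rw [neg_smul, one_smul]; exact hp⟩ h2⟩

variable {R}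

/-- **The law below one half.** -/
theorem belowTheta (hD : Descends R) {M : C} (hC : ¬ R.CPlus M) :
    BelowTheta R M := by
  intro η hη n₀
  by_contra hcon
  push Not at hcon
  set b := totalDim R M with hb
  have hb2 : 2 ≤ b := two_le_of_not hD hC
  have hbR : (2 : ℝ) ≤ b := by exact_mod_cast hb2
  have hb0 : (0 : ℝ) < b := by linarith
  set κ : ℝ := 1 - 2 * (b - 1) / (b : ℝ) ^ 2 with hκ
  have hκ1 : (b : ℝ) ^ 2 * κ = (b : ℝ) ^ 2 - 2 * b + 2 := by
    rw [hκ]
    field_simp
    ring
  have hκ0 : 0 < κ := by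
    have h1 : 0 < (b : ℝ) ^ 2 * κ := by rw [hκ1]; nlinarith
    exact (mul_pos_iff_of_pos_left (by positivity)).1 h1
  have hθ : theta b = κ / (1 + κ) := by
    rw [theta, div_eq_div_iff (by nlinarith) (by linarith)]
    nlinarith [hκ1]
  set θ := theta b with hθd
  have hθκ : (1 + κ) * θ = κ := by
    rw [hθ]
    field_simp
  have hc1 : splitDim R M + 1 ≤ b := by
    have h1 := splitDim_le R M
    have h2 : splitDim R M ≠ totalDim R M := fun h => hC ((cplus_iff_split hD M).2 h)
    omega
  have hcR : (splitDim R M : ℝ) + 1 ≤ b := by exact_mod_cast hc1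
  -- the shares
  obtain ⟨x, hx⟩ : ∃ x : ℕ → ℝ, ∀ n, x n = splitDim R (pow M n) / (b : ℝ) ^ n := ⟨_, fun n => rfl⟩
  obtain ⟨x1, hx1⟩ : ∃ x1 : ℝ, x1 = splitDim R M / (b : ℝ) := ⟨_, rfl⟩
  have hx1' : x1 ≤ 1 - 1 / b := by
    rw [hx1, le_sub_iff_add_le, ← add_div, div_le_one hb0]
    exact hcR
  have hrec : ∀ n, x (n + 1) ≤ x n * x1 + κ * ((1 - x n) * (1 - x1)) := by
    intro n
    have h1 := sharpBound R M (pow M n)
    unfold SharpBound at h1
    rw [← splitDim_swap R (pow M n) M, totalDim_pow, ← hb] at h1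
    have h2 : splitDim R (pow M n) ≤ b ^ n := by
      rw [hb, ← totalDim_pow]
      exact splitDim_le R _
    have h3 : splitDim R M ≤ b := by omega
    have h4 : ((b ^ 2 * splitDim R (pow M n ⊗ M) + 2 * (b - 1) *
        ((b - splitDim R M) * (b ^ n - splitDim R (pow M n))) : ℕ) : ℝ) ≤
        ((b ^ 2 * (splitDim R M * splitDim R (pow M n) +
          (b - splitDim R M) * (b ^ n - splitDim R (pow M n))) : ℕ) : ℝ) := by exact_mod_cast h1
    push_cast [Nat.cast_sub h2, Nat.cast_sub h3, Nat.cast_sub (by omega : 1 ≤ b)] at h4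
    have h5 : (pow M n ⊗ M : C) = pow M (n + 1) := rfl
    rw [h5] at h4
    have e1 : (splitDim R (pow M (n + 1)) : ℝ) = x (n + 1) * (b : ℝ) ^ (n + 1) := by
      rw [hx]; field_simp
    have e2 : (splitDim R (pow M n) : ℝ) = x n * (b : ℝ) ^ n := by
      rw [hx]; field_simp
    have e3 : (splitDim R M : ℝ) = x1 * b := by
      rw [hx1]; field_simp
    rw [e1, e2, e3] at h4
    have hpos : (0 : ℝ) < (b : ℝ) ^ 2 * (b : ℝ) ^ (n + 1) := by positivity
    have h6 : (b : ℝ) ^ 2 * (b : ℝ) ^ (n + 1) * x (n + 1) ≤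
        (b : ℝ) ^ 2 * (b : ℝ) ^ (n + 1) * (x n * x1 + κ * ((1 - x n) * (1 - x1))) := by
      have h7 : (b : ℝ) ^ 2 * (b : ℝ) ^ (n + 1) * (x n * x1 + κ * ((1 - x n) * (1 - x1))) =
          (b : ℝ) ^ 2 * (b : ℝ) ^ (n + 1) * (x n * x1) +
            ((b : ℝ) ^ 2 * κ) * ((b : ℝ) ^ (n + 1) * ((1 - x n) * (1 - x1))) := by ring
      rw [h7, hκ1, pow_succ (b : ℝ) n]
      rw [pow_succ (b : ℝ) n] at h4
      nlinarith [h4]
    exact le_of_mul_le_mul_left h6 hpos
  have hu : ∀ n, x (n + 1) - θ ≤ ((1 + κ) * (x1 - θ)) * (x n - θ) := by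
    intro n
    have h1 := hrec n
    have h2 : ((1 + κ) * (x1 - θ)) * (x n - θ) = x n * x1 + κ * ((1 - x n) * (1 - x1)) - θ := by
      have : θ = κ - κ * θ := by linarith
      linear_combination ((1 : ℝ) - x1 - x n + θ) * hθκ
    rw [h2]
    linarith
  have hlow : ∀ n ≥ n₀, η - θ ≤ x n - θ := by
    intro n hn
    have h1 := hcon n hn
    have h2 : η ≤ x n := by
      rw [hx, le_div_iff₀ (by positivity)]
      exact h1
    linarith
  have hδ : 0 < η - θ := by linarith
  by_cases hneg : x1 - θ ≤ 0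
  · have h1 := hu n₀
    have h2 := hlow (n₀ + 1) (by omega)
    have h3 := hlow n₀ le_rfl
    have h4 : ((1 + κ) * (x1 - θ)) * (x n₀ - θ) ≤ 0 :=
      mul_nonpos_of_nonpos_of_nonneg (mul_nonpos_of_nonneg_of_nonpos (by linarith) hneg)
        (by linarith)
    linarith
  · push Not at hneg
    set ρ : ℝ := (1 + κ) * (x1 - θ) with hρ
    have hρ0 : 0 ≤ ρ := mul_nonneg (by linarith) hneg.le
    have hρ1 : ρ < 1 := by
      have h1 : ρ = (1 + κ) * x1 - κ := by rw [hρ, mul_sub, hθκ]
      have h2 : (1 + κ) * x1 ≤ (1 + κ) * (1 - 1 / b) := mul_le_mul_of_nonneg_left hx1' (by linarith)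
      have h3 : 0 < (1 + κ) * (1 / b) := by positivity
      rw [h1]
      nlinarith
    have hpow : ∀ k : ℕ, x (n₀ + k) - θ ≤ ρ ^ k * (x n₀ - θ) := by
      intro k
      induction k with
      | zero => rw [pow_zero, one_mul, add_zero]
      | succ k ih =>
        calc x (n₀ + (k + 1)) - θ ≤ ρ * (x (n₀ + k) - θ) := hu (n₀ + k)
          _ ≤ ρ * (ρ ^ k * (x n₀ - θ)) := mul_le_mul_of_nonneg_left ih hρ0
          _ = ρ ^ (k + 1) * (x n₀ - θ) := by rw [pow_succ]; ring
    have ht : Tendsto (fun k : ℕ => ρ ^ k * (x n₀ - θ)) atTop (nhds (0 * (x n₀ - θ))) :=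
      (tendsto_pow_atTop_nhds_zero_of_lt_one hρ0 hρ1).mul_const _
    rw [zero_mul] at ht
    obtain ⟨k, hk⟩ := (ht.eventually (gt_mem_nhds hδ)).exists
    have h1 := hpow k
    have h2 := hlow (n₀ + k) (by omega)
    linarith

lemma theta_lt {b : ℕ} (hb : 2 ≤ b) : theta b < 1 / 2 := by
  have hbR : (2 : ℝ) ≤ b := by exact_mod_cast hb
  rw [theta, div_lt_div_iff₀ (by nlinarith) (by norm_num)]
  nlinarith

/-- **One half suffices**, one object. -/
theorem cplus_iff_half (hD : Descends R) (M : C) : R.CPlus M ↔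
    ∃ n₀, ∀ n ≥ n₀, totalDim R (pow M n) ≤ 2 * splitDim R (pow M n) := by
  constructor
  · intro h
    refine ⟨0, fun n _ => ?_⟩
    rw [(cplus_iff_split hD _).1 (cplus_pow R h n)]
    omega
  · rintro ⟨n₀, h⟩
    by_contra hC
    obtain ⟨n, hn, hlt⟩ := belowTheta hD hC (1 / 2) (theta_lt (two_le_of_not hD hC)) n₀
    have h1 := h n hn
    rw [totalDim_pow] at h1
    have h2 : ((totalDim R M ^ n : ℕ) : ℝ) ≤ ((2 * splitDim R (pow M n) : ℕ) : ℝ) := by
      exact_mod_cast h1
    push_cast at h2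
    linarith

/-- **One half suffices**, all objects. -/
theorem all_iff_half (hD : Descends R) : (∀ M : C, R.CPlus M) ↔
    ∀ M : C, totalDim R M ≤ 2 * splitDim R M := by
  constructor
  · intro h M
    rw [(cplus_iff_split hD _).1 (h M)]
    omega
  · intro h M
    exact (cplus_iff_half hD M).2 ⟨0, fun n _ => h _⟩

end

end Pool.Agent.Run7.h301.SL
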