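import Pool.Agent.Run7.h301.SL.Defs

/-!
# The ratio law and one half: definitions
-/

set_option autoImplicit false

open CategoryTheory MonoidalCategory Module

namespace Pool.Agent.Run7.h301.SL

open Pool.Agent.Y112.SR Pool.Agent.R484.NC Functor.LaxMonoidal Functor.OplaxMonoidal

universe v u w

section

variable {K V W : Type*} [Field K] [AddCommGroup V] [Module K V] [AddCommGroup W] [Module K W]

/-- `e` is an idempotent in the algebra `A` of operators, and the only idempotents in `e A e` are `0`
and `e`: it is the projector to an indecomposable direct summand. -/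
def IsIndec (A : Submodule K (Module.End K V)) (e : Module.End K V) : Prop :=
  e ∈ A ∧ e * e = e ∧ ∀ f ∈ A, f * f = f → e * f = f → f * e = f → f = 0 ∨ f = e

/-- The dimension of the part of parity `s` of the image of `e`, where `p` is the parity operator: of
the even part, if `s = 1`, and of the odd part, if `s = -1`. -/
noncomputable def signDim (p : Module.End K V) (s : K) (e : Module.End K V) : ℕ :=
  finrank K ↥(LinearMap.range e ⊓ Module.End.eigenspace p s)

/-- `y` is an idempotent in the algebra `A`, not zero, with image in the image of `e`. -/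
def IsSummand (A : Submodule K (Module.End K V)) (e y : Module.End K V) : Prop :=
  y ∈ A ∧ y * y = y ∧ y ≠ 0 ∧ e * y = y

/-- The images of `e` and `f` have dimensions `(a₀, a₁)` and `(b₀, b₁)` (even part, odd part) with
`a₀ ≠ a₁` and `a₀ b₁ = b₀ a₁`. -/
def SameRatio (p e : Module.End K V) (q f : Module.End K W) : Prop :=
  signDim p 1 e ≠ signDim p (-1) e ∧ signDim p 1 e * signDim q (-1) f = signDim q 1 f * signDim p (-1) e

/-- The images of `e` and `f` have dimensions `(a₀, a₁)` and `(b₀, b₁)` (even part, odd part) with
`a₀ ≠ a₁` and `a₀ b₀ = a₁ b₁`. -/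
def InverseRatio (p e : Module.End K V) (q f : Module.End K W) : Prop :=
  signDim p 1 e ≠ signDim p (-1) e ∧ signDim p 1 e * signDim q 1 f = signDim p (-1) e * signDim q (-1) f

end

variable {C : Type u} [Category.{v} C] [Preadditive C] [MonoidalCategory C] [SymmetricCategory C]
  {K : Type w} [Field K]

/-- The operator `e ⊗ f` on `R(M ⊗ N)`. -/
noncomputable def tens (R : SuperRealisation C K) {M N : C} (e : Module.End K (R.H.obj M))
    (f : Module.End K (R.H.obj N)) : Module.End K (R.H.obj (M ⊗ N)) :=
  (δ R.H M N ≫ (ModuleCat.ofHom e ⊗ₘ ModuleCat.ofHom f) ≫ μ R.H M N).hom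

/-- **The ratio law.** Let `e` and `f` be the projectors to indecomposable direct summands of `M` and
`N` (coefficients in `K`), with realisations of dimensions `(a₀, a₁)` and `(b₀, b₁)` (even part, odd
part), and let `y` be the projector to a direct summand, not zero, of their tensor product. If this
summand is even, then `a₀ ≠ a₁` and `a₀ b₁ = b₀ a₁`. If it is odd, then `a₀ ≠ a₁` and
`a₀ b₀ = a₁ b₁`. -/
def RatioLaw (R : SuperRealisation C K) : Prop :=
  ∀ (M N : C) (e : Module.End K (R.H.obj M)) (f : Module.End K (R.H.obj N)),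
    IsIndec (combs R M) e → IsIndec (combs R N) f →
    ∀ y : Module.End K (R.H.obj (M ⊗ N)), IsSummand (combs R (M ⊗ N)) (tens R e f) y →
      ((R.par (M ⊗ N)).hom * y = y → SameRatio (R.par M).hom e (R.par N).hom f) ∧
      ((R.par (M ⊗ N)).hom * y = -y → InverseRatio (R.par M).hom e (R.par N).hom f)

/-- `c(M ⊗ N) ≤ c(M) c(N) + κ (b(M) - c(M)) (b(N) - c(N))` with `κ = 1 - 2 (b(M) - 1) / b(M)^2`, where
`b` is the dimension of the realisation and `c` is `splitDim`. -/
def SharpBound (R : SuperRealisation C K) (M N : C) : Prop :=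
  totalDim R M ^ 2 * splitDim R (M ⊗ N) + 2 * (totalDim R M - 1) *
      ((totalDim R M - splitDim R M) * (totalDim R N - splitDim R N)) ≤
    totalDim R M ^ 2 * (splitDim R M * splitDim R N +
      (totalDim R M - splitDim R M) * (totalDim R N - splitDim R N))

/-- The number `θ(b) = (b^2 - 2 b + 2) / (2 b^2 - 2 b + 2)`, which is smaller than `1 / 2` if
`b ≥ 2`. -/
noncomputable def theta (b : ℕ) : ℝ := ((b : ℝ) ^ 2 - 2 * b + 2) / (2 * (b : ℝ) ^ 2 - 2 * b + 2)

/-- For each `η > θ(b(M))` there are arbitrarily large `n` such that the largest direct summand of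
`M^n` which is the sum of an even and an odd one has dimension less than `η b(M)^n`. -/
def BelowTheta (R : SuperRealisation C K) (M : C) : Prop :=
  ∀ η : ℝ, theta (totalDim R M) < η → ∀ n₀ : ℕ, ∃ n ≥ n₀,
    (splitDim R (pow M n) : ℝ) < η * (totalDim R M : ℝ) ^ n

/-- **One half suffices.** The sign conjecture for `M` holds if and only if for all large `n` the
largest direct summand of `M^n` which is the sum of an even and an odd one has at least half of the
dimension of `M^n`; and it holds for all objects if and only if this is so for all objects. -/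
def OneHalf (R : SuperRealisation C K) : Prop :=
  (∀ M : C, R.CPlus M ↔ ∃ n₀, ∀ n ≥ n₀, totalDim R (pow M n) ≤ 2 * splitDim R (pow M n)) ∧
    ((∀ M : C, R.CPlus M) ↔ ∀ M : C, totalDim R M ≤ 2 * splitDim R M)

end Pool.Agent.Run7.h301.SL
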