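import Pool.Agent.N536.HK.Lin

/-!
# Algebras of operators with a parity, and their even and odd idempotents
-/

set_option autoImplicit false

open Module TensorProduct

namespace Pool.Agent.Run7.h301.SL

open Pool.Agent.H914 Pool.Agent.N536.HK

section One

variable {K V : Type*} [Field K] [AddCommGroup V] [Module K V]

/-- `A` is an algebra of operators which commute with the parity operator `p`. -/
structure IsPA (p : Module.End K V) (A : Submodule K (Module.End K V)) : Prop where
  sq : p * p = 1
  one : (1 : Module.End K V) ∈ A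
  mul : ∀ a ∈ A, ∀ b ∈ A, a * b ∈ A
  comm : ∀ a ∈ A, p * a = a * p

/-- The operators in `A` whose image has parity `s`. -/
def Pure (p : Module.End K V) (A : Submodule K (Module.End K V)) (s : K) :
    Submodule K (Module.End K V) where
  carrier := {a | a ∈ A ∧ p * a = s • a}
  zero_mem' := ⟨A.zero_mem, by simp⟩
  add_mem' := fun {a b} ha hb => ⟨A.add_mem ha.1 hb.1, by rw [mul_add, ha.2, hb.2, smul_add]⟩
  smul_mem' := fun c a ha => ⟨A.smul_mem _ ha.1, by rw [mul_smul_comm, ha.2, smul_comm]⟩

variable {p : Module.End K V} {A : Submodule K (Module.End K V)}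

lemma pure_mul (h : IsPA p A) {s : K} {a b : Module.End K V} (ha : a ∈ Pure p A s) (hb : b ∈ A) :
    a * b ∈ Pure p A s :=
  ⟨h.mul _ ha.1 _ hb, by rw [← mul_assoc, ha.2, smul_mul_assoc]⟩

lemma pure_orth (h : IsPA p A) {s t : K} (hst : s ≠ t) {a b : Module.End K V}
    (ha : a ∈ Pure p A s) (hb : b ∈ Pure p A t) : a * b = 0 := by
  have h1 : s • (a * b) = t • (a * b) := by
    rw [← smul_mul_assoc, ← ha.2, h.comm _ ha.1, mul_assoc, hb.2, mul_smul_comm]
  rw [← sub_eq_zero, ← sub_smul] at h1
  exact (smul_eq_zero.1 h1).resolve_left (sub_ne_zero.2 hst)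

/-- Orthogonality to all operators of pure parity. -/
def NK (p : Module.End K V) (A : Submodule K (Module.End K V)) (q : Module.End K V) : Prop :=
  ∀ s : K, s * s = 1 → ∀ a ∈ Pure p A s, LinearMap.trace K V (q * a) = 0

/-- A sum of an even and an odd idempotent. -/
def Halves (p : Module.End K V) (A : Submodule K (Module.End K V)) (e : Module.End K V) : Prop :=
  ∃ e0 ∈ Pure p A 1, ∃ e1 ∈ Pure p A (-1), e0 * e0 = e0 ∧ e1 * e1 = e1 ∧ e = e0 + e1

/-- The numbers `rank e`, where `e` is the sum of an even and an odd idempotent. -/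
def ranks (p : Module.End K V) (A : Submodule K (Module.End K V)) : Set ℕ :=
  {r | ∃ e, Halves p A e ∧ r = finrank K (LinearMap.range e)}

/-- The greatest of these numbers. -/
noncomputable def cdim (p : Module.End K V) (A : Submodule K (Module.End K V)) : ℕ := sSup (ranks p A)

lemma one_ne_neg_one [CharZero K] : (1 : K) ≠ -1 := by
  intro h
  have h2 : (2 : K) = 0 := by linear_combination h
  exact two_ne_zero h2

lemma Halves.mem {e : Module.End K V} (he : Halves p A e) : e ∈ A := by
  obtain ⟨e0, h0, e1, h1, h2, h3, rfl⟩ := he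
  exact A.add_mem h0.1 h1.1

lemma Halves.idem [CharZero K] [FiniteDimensional K V] (h : IsPA p A) {e : Module.End K V} (he : Halves p A e) :
    e * e = e := by
  obtain ⟨e0, h0, e1, h1, h2, h3, rfl⟩ := he
  exact idem_add h2 h3 (pure_orth h one_ne_neg_one h0 h1)
    (pure_orth h (Ne.symm one_ne_neg_one) h1 h0)

variable [CharZero K] [FiniteDimensional K V]

lemma exists_halves (h : IsPA p A) : ∃ e, Halves p A e ∧ NK p A (1 - e) := by
  obtain ⟨e0, h0, h01, h02⟩ := exists_max_idem (Pure p A 1) fun a ha b hb => pure_mul h ha hb.1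
  obtain ⟨e1, h1, h11, h12⟩ := exists_max_idem (Pure p A (-1)) fun a ha b hb => pure_mul h ha hb.1
  refine ⟨e0 + e1, ⟨e0, h0, e1, h1, h01, h11, rfl⟩, fun s hs a ha => ?_⟩
  rcases mul_self_eq_one_iff.1 hs with rfl | rfl
  · have h3 : e1 * a = 0 := pure_orth h (Ne.symm one_ne_neg_one) h1 ha
    have h4 : (1 - (e0 + e1)) * a = (1 - e0) * a - e1 * a := by
      rw [sub_mul, sub_mul, add_mul, sub_add_eq_sub_sub]
    rw [h4, h3, sub_zero, h02 a ha]
  · have h3 : e0 * a = 0 := pure_orth h one_ne_neg_one h0 ha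
    have h4 : (1 - (e0 + e1)) * a = (1 - e1) * a - e0 * a := by
      rw [sub_mul, sub_mul, add_mul, sub_add_eq_sub_sub]
      abel
    rw [h4, h3, sub_zero, h12 a ha]

lemma rank_halves_le (h : IsPA p A) {q e : Module.End K V} (hq : q ∈ A) (hN : NK p A q)
    (he : Halves p A e) : finrank K (LinearMap.range e) ≤ finrank K (LinearMap.range (1 - q)) := by
  apply rank_le_of_nilpotent (he.idem h)
  apply isNilpotent_of_trace_pow
  intro r
  have hmem : ∀ r : ℕ, (q * e) ^ r ∈ A := by
    intro r
    induction r with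
    | zero => exact h.one
    | succ r ih => rw [pow_succ]; exact h.mul _ ih _ (h.mul _ hq _ he.mem)
  obtain ⟨e0, h0, e1, h1, h2, h3, he'⟩ := he
  have h5 : (q * e) ^ (r + 1) = q * (e0 * (q * e) ^ r) + q * (e1 * (q * e) ^ r) := by
    rw [pow_succ', he', ← mul_add, ← add_mul, mul_assoc]
  rw [h5, map_add, hN 1 (by ring) _ (pure_mul h h0 (hmem r)),
    hN (-1) (by ring) _ (pure_mul h h1 (hmem r)), add_zero]

lemma isGreatest_ranks (h : IsPA p A) {e : Module.End K V} (he : Halves p A e)
    (hN : NK p A (1 - e)) : IsGreatest (ranks p A) (finrank K (LinearMap.range e)) := by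
  refine ⟨⟨e, he, rfl⟩, ?_⟩
  rintro r ⟨e', he', rfl⟩
  have h2 := rank_halves_le h (A.sub_mem h.one he.mem) hN he'
  rwa [sub_sub_cancel] at h2

lemma cdim_eq (h : IsPA p A) {e : Module.End K V} (he : Halves p A e) (hN : NK p A (1 - e)) :
    cdim p A = finrank K (LinearMap.range e) := (isGreatest_ranks h he hN).csSup_eq

lemma isGreatest_cdim (h : IsPA p A) : IsGreatest (ranks p A) (cdim p A) := by
  obtain ⟨e, he, hN⟩ := exists_halves h
  rw [cdim_eq h he hN]
  exact isGreatest_ranks h he hN

lemma cdim_le (h : IsPA p A) : cdim p A ≤ finrank K V := by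
  obtain ⟨e, he, hN⟩ := exists_halves h
  rw [cdim_eq h he hN]
  exact Submodule.finrank_le _

lemma rank_le_cdim (h : IsPA p A) {e : Module.End K V} (he : Halves p A e) :
    finrank K (LinearMap.range e) ≤ cdim p A := (isGreatest_cdim h).2 ⟨e, he, rfl⟩

/-- The parity operator is in the algebra if and only if the number is everything. -/
lemma cdim_eq_iff (h : IsPA p A) :
    cdim p A = finrank K V ↔ p ∈ A := by
  have h2 : (2 : K) ≠ 0 := two_ne_zero
  constructor
  · intro hc
    obtain ⟨e, he, hN⟩ := exists_halves h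
    rw [cdim_eq h he hN] at hc
    have h1 : LinearMap.range e = ⊤ := Submodule.eq_top_of_finrank_eq hc
    have h3 : e = 1 := by
      apply LinearMap.ext
      intro x
      obtain ⟨y, rfl⟩ : x ∈ LinearMap.range e := by rw [h1]; trivial
      rw [← Module.End.mul_apply, he.idem h, Module.End.one_apply]
    obtain ⟨e0, h0, e1, h1', h4, h5, h6⟩ := he
    have h7 : p = e0 - e1 := by
      rw [← mul_one p, ← h3, h6, mul_add, h0.2, h1'.2, one_smul, neg_smul, one_smul, sub_eq_add_neg]
    rw [h7]
    exact A.sub_mem h0.1 h1'.1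
  · intro hp
    have hq : ∀ s : K, s * s = 1 → ((2 : K)⁻¹ • (1 + s • p)) ∈ Pure p A s ∧
        ((2 : K)⁻¹ • (1 + s • p)) * ((2 : K)⁻¹ • (1 + s • p)) = (2 : K)⁻¹ • (1 + s • p) := by
      intro s hs
      have e1 : p * (1 + s • p) = s • (1 + s • p) := by
        rw [mul_add, mul_one, mul_smul_comm, h.sq, smul_add, smul_smul, hs, one_smul, add_comm]
      refine ⟨⟨A.smul_mem _ (A.add_mem h.one (A.smul_mem _ hp)), ?_⟩, ?_⟩
      · rw [mul_smul_comm, e1, smul_comm]
      · have e2 : (1 + s • p) * (1 + s • p) = (2 : K) • (1 + s • p) := by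
          rw [add_mul, one_mul, smul_mul_assoc, e1, smul_smul, hs, one_smul, two_smul]
        rw [smul_mul_assoc, mul_smul_comm, e2, smul_smul, smul_smul, mul_assoc,
          inv_mul_cancel₀ h2, mul_one]
    have h1 := hq 1 (by ring)
    have h3 := hq (-1) (by ring)
    have h4 : Halves p A 1 := by
      refine ⟨_, h1.1, _, h3.1, h1.2, h3.2, ?_⟩
      rw [← smul_add, one_smul, neg_smul, one_smul]
      have : (1 : Module.End K V) + p + (1 + -p) = (2 : K) • 1 := by
        rw [two_smul]
        abel
      rw [this, smul_smul, inv_mul_cancel₀ h2, one_smul]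
    have h5 := rank_le_cdim h h4
    have h6 : LinearMap.range (1 : Module.End K V) = ⊤ := LinearMap.range_id
    rw [h6, finrank_top] at h5
    exact le_antisymm (cdim_le h) h5

end One

end Pool.Agent.Run7.h301.SL
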