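import Mathlib

/-!
# The recursion for the shares
-/

set_option autoImplicit false

open Filter

namespace Pool.Agent.Run7.h301.SL

/-- The recursion with `κ = 1 - 2 (b - 1) / b^2` brings the share below each number greater than
`κ / (1 + κ)`. -/
theorem share_below {b c1 : ℕ} {c : ℕ → ℕ} (hb2 : 2 ≤ b) (hc1 : c1 + 1 ≤ b)
    (hle : ∀ n, 1 ≤ n → c n ≤ b ^ n)
    (hsharp : ∀ n, 1 ≤ n → b ^ 2 * c (n + 1) + 2 * (b - 1) * ((b - c1) * (b ^ n - c n)) ≤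
      b ^ 2 * (c1 * c n + (b - c1) * (b ^ n - c n)))
    {η : ℝ} (hη : ((b : ℝ) ^ 2 - 2 * b + 2) / (2 * (b : ℝ) ^ 2 - 2 * b + 2) < η) (n₁ : ℕ) :
    ∃ n ≥ n₁, 1 ≤ n ∧ (c n : ℝ) < η * (b : ℝ) ^ n := by
  by_contra hcon
  push Not at hcon
  obtain ⟨n₀, hn₀, hn₁⟩ : ∃ n₀, n₁ ≤ n₀ ∧ 1 ≤ n₀ := ⟨max n₁ 1, le_max_left _ _, le_max_right _ _⟩
  have hbR : (2 : ℝ) ≤ b := by exact_mod_cast hb2
  have hb0 : (0 : ℝ) < b := by linarith
  set κ : ℝ := 1 - 2 * (b - 1) / (b : ℝ) ^ 2 with hκ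
  have hκ1 : (b : ℝ) ^ 2 * κ = (b : ℝ) ^ 2 - 2 * b + 2 := by
    rw [hκ]
    field_simp
    ring
  have hκ0 : 0 < κ := by
    have h1 : 0 < (b : ℝ) ^ 2 * κ := by rw [hκ1]; nlinarith
    exact (mul_pos_iff_of_pos_left (by positivity)).1 h1
  obtain ⟨θ, hθd⟩ : ∃ θ : ℝ, θ = ((b : ℝ) ^ 2 - 2 * b + 2) / (2 * (b : ℝ) ^ 2 - 2 * b + 2) :=
    ⟨_, rfl⟩
  rw [← hθd] at hη
  have hθ : θ = κ / (1 + κ) := by
    rw [hθd, div_eq_div_iff (by nlinarith) (by linarith)]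
    nlinarith [hκ1]
  have hθκ : (1 + κ) * θ = κ := by
    rw [hθ]
    field_simp
  have hcR : (c1 : ℝ) + 1 ≤ b := by exact_mod_cast hc1
  -- the shares
  obtain ⟨x, hx⟩ : ∃ x : ℕ → ℝ, ∀ n, x n = c n / (b : ℝ) ^ n := ⟨_, fun n => rfl⟩
  obtain ⟨x1, hx1⟩ : ∃ x1 : ℝ, x1 = c1 / (b : ℝ) := ⟨_, rfl⟩
  have hx1' : x1 ≤ 1 - 1 / b := by
    rw [hx1, le_sub_iff_add_le, ← add_div, div_le_one hb0]
    exact hcR
  have hrec : ∀ n, 1 ≤ n → x (n + 1) ≤ x n * x1 + κ * ((1 - x n) * (1 - x1)) := by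
    intro n hn
    have h1 := hsharp n hn
    have h2 : c n ≤ b ^ n := hle n hn
    have h3 : c1 ≤ b := by omega
    have h4 : ((b ^ 2 * c (n + 1) + 2 * (b - 1) * ((b - c1) * (b ^ n - c n)) : ℕ) : ℝ) ≤
        ((b ^ 2 * (c1 * c n + (b - c1) * (b ^ n - c n)) : ℕ) : ℝ) := by exact_mod_cast h1
    push_cast [Nat.cast_sub h2, Nat.cast_sub h3, Nat.cast_sub (by omega : 1 ≤ b)] at h4
    have e1 : (c (n + 1) : ℝ) = x (n + 1) * (b : ℝ) ^ (n + 1) := by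
      rw [hx]; field_simp
    have e2 : (c n : ℝ) = x n * (b : ℝ) ^ n := by
      rw [hx]; field_simp
    have e3 : (c1 : ℝ) = x1 * b := by
      rw [hx1]; field_simp
    rw [e1, e2, e3] at h4
    have hpos : (0 : ℝ) < (b : ℝ) ^ 2 * (b : ℝ) ^ (n + 1) := by positivity
    have h6 : (b : ℝ) ^ 2 * (b : ℝ) ^ (n + 1) * x (n + 1) ≤
        (b : ℝ) ^ 2 * (b : ℝ) ^ (n + 1) * (x n * x1 + κ * ((1 - x n) * (1 - x1))) := by
      have h7 : (b : ℝ) ^ 2 * (b : ℝ) ^ (n + 1) * (x n * x1 + κ * ((1 - x n) * (1 - x1))) =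
          (b : ℝ) ^ 2 * (b : ℝ) ^ (n + 1) * (x n * x1) +
            ((b : ℝ) ^ 2 * κ) * ((b : ℝ) ^ (n + 1) * ((1 - x n) * (1 - x1))) := by ring
      rw [h7, hκ1, pow_succ (b : ℝ) n]
      rw [pow_succ (b : ℝ) n] at h4
      nlinarith [h4]
    exact le_of_mul_le_mul_left h6 hpos
  have hu : ∀ n, 1 ≤ n → x (n + 1) - θ ≤ ((1 + κ) * (x1 - θ)) * (x n - θ) := by
    intro n hn
    have h1 := hrec n hn
    have h2 : ((1 + κ) * (x1 - θ)) * (x n - θ) = x n * x1 + κ * ((1 - x n) * (1 - x1)) - θ := by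
      linear_combination ((1 : ℝ) - x1 - x n + θ) * hθκ
    rw [h2]
    linarith
  have hlow : ∀ n ≥ n₀, η - θ ≤ x n - θ := by
    intro n hn
    have h1 := hcon n (by omega) (by omega)
    have h2 : η ≤ x n := by
      rw [hx, le_div_iff₀ (by positivity)]
      exact h1
    linarith
  have hδ : 0 < η - θ := by linarith
  by_cases hneg : x1 - θ ≤ 0
  · have h1 := hu n₀ hn₁
    have h2 := hlow (n₀ + 1) (by omega)
    have h3 := hlow n₀ le_rfl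
    have h4 : ((1 + κ) * (x1 - θ)) * (x n₀ - θ) ≤ 0 :=
      mul_nonpos_of_nonpos_of_nonneg (mul_nonpos_of_nonneg_of_nonpos (by linarith) hneg)
        (by linarith)
    linarith
  · push Not at hneg
    set ρ : ℝ := (1 + κ) * (x1 - θ) with hρ
    have hρ0 : 0 ≤ ρ := mul_nonneg (by linarith) hneg.le
    have hρ1 : ρ < 1 := by
      have h1 : ρ = (1 + κ) * x1 - κ := by rw [hρ, mul_sub, hθκ]
      have h2 : (1 + κ) * x1 ≤ (1 + κ) * (1 - 1 / b) := mul_le_mul_of_nonneg_left hx1' (by linarith)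
      have h3 : 0 < (1 + κ) * (1 / b) := by positivity
      rw [h1]
      nlinarith
    have hpow : ∀ k : ℕ, x (n₀ + k) - θ ≤ ρ ^ k * (x n₀ - θ) := by
      intro k
      induction k with
      | zero => rw [pow_zero, one_mul, add_zero]
      | succ k ih =>
        calc x (n₀ + (k + 1)) - θ ≤ ρ * (x (n₀ + k) - θ) := hu (n₀ + k) (by omega)
          _ ≤ ρ * (ρ ^ k * (x n₀ - θ)) := mul_le_mul_of_nonneg_left ih hρ0
          _ = ρ ^ (k + 1) * (x n₀ - θ) := by rw [pow_succ]; ring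
    have ht : Tendsto (fun k : ℕ => ρ ^ k * (x n₀ - θ)) atTop (nhds (0 * (x n₀ - θ))) :=
      (tendsto_pow_atTop_nhds_zero_of_lt_one hρ0 hρ1).mul_const _
    rw [zero_mul] at ht
    obtain ⟨k, hk⟩ := (ht.eventually (gt_mem_nhds hδ)).exists
    have h1 := hpow k
    have h2 := hlow (n₀ + k) (by omega)
    linarith

end Pool.Agent.Run7.h301.SL
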