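import Pool.Agent.Run7.h301.SL.Lin

/-!
# Even and odd idempotents on a tensor product and on a direct sum
-/

set_option autoImplicit false

open Module TensorProduct

namespace Pool.Agent.Run7.h301.SL

open Pool.Agent.H914 Pool.Agent.N536.HK

variable {K V W : Type*} [Field K] [AddCommGroup V] [Module K V] [AddCommGroup W] [Module K W]

lemma halves_map {p : Module.End K V} {A : Submodule K (Module.End K V)} {e : Module.End K V}
    (h : IsPA p A) [CharZero K] [FiniteDimensional K V] (he : Halves p A e) (hN : NK p A (1 - e)) :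
    (cdim p A : K) = LinearMap.trace K V e ∧
      ((finrank K V - cdim p A : ℕ) : K) = LinearMap.trace K V (1 - e) := by
  have h1 := Pool.Agent.N536.HK.trace_idem (he.idem h)
  have h2 := cdim_le h
  rw [cdim_eq h he hN] at h2 ⊢
  refine ⟨h1.symm, ?_⟩
  rw [Nat.cast_sub h2, map_sub, h1, LinearMap.trace_one]

section Ext

variable {U : Type*} [AddCommGroup U] [Module K U] (E : (V ⊗[K] W) ≃ₗ[K] U)

/-- The tensor product of two operators, as an operator on `U ≅ V ⊗ W`. -/
noncomputable def ext (F : Module.End K V) (G : Module.End K W) : Module.End K U :=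
  E.conj (TensorProduct.map F G)

lemma ext_mul (F F' : Module.End K V) (G G' : Module.End K W) :
    ext E F G * ext E F' G' = ext E (F * F') (G * G') := by
  have h1 : TensorProduct.map (F * F') (G * G') = TensorProduct.map F G * TensorProduct.map F' G' :=
    TensorProduct.map_mul F F' G G'
  rw [ext, ext, ext, h1]
  exact (E.conj_comp _ _).symm

lemma ext_one : ext E 1 1 = 1 := by
  rw [ext, TensorProduct.map_one]
  exact LinearEquiv.conj_id E

lemma ext_add_left (F F' : Module.End K V) (G : Module.End K W) :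
    ext E (F + F') G = ext E F G + ext E F' G := by
  rw [ext, ext, ext, TensorProduct.map_add_left, map_add]

lemma ext_add_right (F : Module.End K V) (G G' : Module.End K W) :
    ext E F (G + G') = ext E F G + ext E F G' := by
  rw [ext, ext, ext, TensorProduct.map_add_right, map_add]

lemma ext_smul_left (c : K) (F : Module.End K V) (G : Module.End K W) :
    ext E (c • F) G = c • ext E F G := by
  rw [ext, ext, TensorProduct.map_smul_left, map_smul]

lemma ext_smul_right (c : K) (F : Module.End K V) (G : Module.End K W) :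
    ext E F (c • G) = c • ext E F G := by
  rw [ext, ext, TensorProduct.map_smul_right, map_smul]

lemma ext_zero_left (G : Module.End K W) : ext E 0 G = 0 := by
  rw [ext, TensorProduct.map_zero_left, map_zero]

lemma ext_zero_right (F : Module.End K V) : ext E F 0 = 0 := by
  rw [ext, TensorProduct.map_zero_right, map_zero]

lemma trace_ext [FiniteDimensional K V] [FiniteDimensional K W] (F : Module.End K V)
    (G : Module.End K W) :
    LinearMap.trace K U (ext E F G) = LinearMap.trace K V F * LinearMap.trace K W G := by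
  rw [ext, LinearMap.trace_conj', LinearMap.trace_tensorProduct']

/-- Every operator on `U` is a sum of tensor products. -/
lemma ext_induction [FiniteDimensional K V] [FiniteDimensional K W] {P : Module.End K U → Prop}
    (h0 : P 0) (hadd : ∀ x y, P x → P y → P (x + y)) (h : ∀ F G, P (ext E F G))
    (x : Module.End K U) : P x := by
  obtain ⟨z, rfl⟩ := E.conj.surjective x
  obtain ⟨t, rfl⟩ := (homTensorHomEquiv K V W V W).surjective z
  induction t using TensorProduct.induction_on with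
  | zero => rw [map_zero, map_zero]; exact h0
  | tmul F G =>
    rw [homTensorHomEquiv_apply, homTensorHomMap_apply]
    exact h F G
  | add x y hx hy => rw [map_add, map_add]; exact hadd _ _ hx hy

/-- The partial super trace over the second factor. -/
lemma exists_ptr [FiniteDimensional K V] [FiniteDimensional K W] (p' : Module.End K W) :
    ∃ L : Module.End K U →ₗ[K] Module.End K V,
      ∀ F G, L (ext E F G) = LinearMap.trace K W (p' * G) • F := by
  let B : Module.End K V →ₗ[K] Module.End K W →ₗ[K] Module.End K V :=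
    LinearMap.mk₂ K (fun F G => LinearMap.trace K W (p' * G) • F)
      (fun a b c => smul_add _ _ _) (fun c a b => smul_comm _ _ _)
      (fun a b c => by rw [mul_add, map_add, add_smul])
      (fun c a b => by rw [mul_smul_comm, map_smul, smul_assoc])
  refine ⟨TensorProduct.lift B ∘ₗ (homTensorHomEquiv K V W V W).symm.toLinearMap ∘ₗ
    E.symm.conj.toLinearMap, fun F G => ?_⟩
  have h1 : E.symm.conj (ext E F G) = TensorProduct.map F G := by
    rw [ext, LinearEquiv.conj_symm_conj]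
  have h2 : (homTensorHomEquiv K V W V W).symm (TensorProduct.map F G) = F ⊗ₜ G := by
    rw [LinearEquiv.symm_apply_eq, homTensorHomEquiv_apply, homTensorHomMap_apply]
  rw [LinearMap.comp_apply, LinearMap.comp_apply, LinearEquiv.coe_coe, LinearEquiv.coe_coe, h1, h2,
    TensorProduct.lift.tmul]
  rfl

end Ext

/-- The data of a product: the algebras of operators on `V`, `W` and `U ≅ V ⊗ W`, and the partial
super trace over the second factor. -/
structure IsProd {U : Type*} [AddCommGroup U] [Module K U] (E : (V ⊗[K] W) ≃ₗ[K] U)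
    (p : Module.End K V) (A : Submodule K (Module.End K V)) (p' : Module.End K W)
    (B : Submodule K (Module.End K W)) (q : Module.End K U) (D : Submodule K (Module.End K U)) :
    Prop where
  par : q = ext E p p'
  mem : ∀ F ∈ A, ∀ G ∈ B, ext E F G ∈ D
  tr : ∃ L : Module.End K U →ₗ[K] Module.End K V, (∀ y ∈ D, L y ∈ A) ∧
    ∀ F G, L (ext E F G) = LinearMap.trace K W (p' * G) • F

section Prod

variable {U : Type*} [AddCommGroup U] [Module K U] {E : (V ⊗[K] W) ≃ₗ[K] U}
  {p : Module.End K V} {A : Submodule K (Module.End K V)} {p' : Module.End K W}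
  {B : Submodule K (Module.End K W)} {q : Module.End K U} {D : Submodule K (Module.End K U)}

/-- The partial trace of an operator of pure parity against an operator of pure parity. -/
lemma ptrace_pure [FiniteDimensional K V] [FiniteDimensional K W] (hA : IsPA p A) (hB : IsPA p' B)
    (hD : IsPA q D) (h : IsProd E p A p' B q D) {s t : K} (ht : t * t = 1)
    {y : Module.End K U} (hy : y ∈ Pure q D s) {ψ : Module.End K W} (hψ : ψ ∈ Pure p' B t) :
    ∃ T ∈ Pure p A (s * t), ∀ G : Module.End K V,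
      LinearMap.trace K U (ext E G ψ * y) = LinearMap.trace K V (G * T) := by
  obtain ⟨L, hL, hL'⟩ := h.tr
  have hp' : p' * p' = 1 := hB.sq
  -- the identities for the partial trace
  have i1 : ∀ (F : Module.End K V) (x : Module.End K U), L (ext E F 1 * x) = F * L x := by
    intro F x
    induction x using ext_induction (E := E) with
    | h0 => simp
    | hadd x y hx hy => rw [mul_add, map_add, hx, hy, map_add, mul_add]
    | h F' G => rw [ext_mul, one_mul, hL', hL', mul_smul_comm]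
  have i2 : ∀ (x : Module.End K U), L (ext E 1 p' * x) = L (x * ext E 1 p') := by
    intro x
    induction x using ext_induction (E := E) with
    | h0 => simp
    | hadd x y hx hy => rw [mul_add, map_add, hx, hy, add_mul, map_add]
    | h F' G =>
      rw [ext_mul, ext_mul, hL', hL', one_mul, mul_one, ← mul_assoc p' G p',
        LinearMap.trace_mul_comm K (p' * G) p']
  have i3 : ∀ (G : Module.End K V) (x : Module.End K U),
      LinearMap.trace K U (ext E G ψ * x) = LinearMap.trace K V (G * L (x * ext E 1 (ψ * p'))) := by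
    intro G x
    induction x using ext_induction (E := E) with
    | h0 => simp
    | hadd x y hx hy => rw [mul_add, map_add, hx, hy, add_mul, map_add, mul_add, map_add]
    | h F' G' =>
      rw [ext_mul, ext_mul, trace_ext, hL', mul_one, mul_smul_comm, map_smul, smul_eq_mul,
        mul_comm]
      congr 1
      rw [LinearMap.trace_mul_comm K p', mul_assoc G', mul_assoc ψ, hp', mul_one,
        LinearMap.trace_mul_comm]
  have hψp : ψ * p' = t • ψ := by rw [← hB.comm _ hψ.1, hψ.2]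
  have hT : L (y * ext E 1 (ψ * p')) = t • L (y * ext E 1 ψ) := by
    rw [hψp, ext_smul_right, mul_smul_comm, map_smul]
  refine ⟨L (y * ext E 1 (ψ * p')), ⟨?_, ?_⟩, fun G => i3 G y⟩
  · rw [hT]
    exact A.smul_mem _ (hL _ (hD.mul _ hy.1 _ (h.mem _ hA.one _ hψ.1)))
  · have h1 : ext E p 1 * y = s • (ext E 1 p' * y) := by
      have h2 : ext E 1 p' * (q * y) = ext E p 1 * y := by
        rw [h.par, ← mul_assoc, ext_mul, one_mul, hp']
      rw [← h2, hy.2, mul_smul_comm]
    rw [← i1, ← mul_assoc, h1, smul_mul_assoc, map_smul, mul_assoc, i2, mul_assoc, ext_mul, one_mul,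
      mul_assoc, hp', mul_one, hT, smul_smul]
    congr 1
    rw [mul_assoc, ht, mul_one]

/-- The lower bound. -/
lemma halves_ext (h : IsProd E p A p' B q D) {e : Module.End K V} {f : Module.End K W}
    (hA : IsPA p A) (hB : IsPA p' B) [CharZero K]
    (he : Halves p A e) (hf : Halves p' B f) : Halves q D (ext E e f) := by
  obtain ⟨e0, h0, e1, h1, h00, h11, rfl⟩ := he
  obtain ⟨f0, k0, f1, k1, k00, k11, rfl⟩ := hf
  have key : ∀ {s t : K} {a : Module.End K V} {b : Module.End K W}, a ∈ Pure p A s →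
      b ∈ Pure p' B t → ext E a b ∈ Pure q D (s * t) := by
    intro s t a b ha hb
    refine ⟨h.mem _ ha.1 _ hb.1, ?_⟩
    rw [h.par, ext_mul, ha.2, hb.2, ext_smul_left, ext_smul_right, smul_smul]
  have o1 := pure_orth hA one_ne_neg_one h0 h1
  have o2 := pure_orth hA (Ne.symm one_ne_neg_one) h1 h0
  have o3 := pure_orth hB one_ne_neg_one k0 k1
  have o4 := pure_orth hB (Ne.symm one_ne_neg_one) k1 k0
  refine ⟨ext E e0 f0 + ext E e1 f1, Submodule.add_mem _ ?_ ?_, ext E e0 f1 + ext E e1 f0,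
    Submodule.add_mem _ ?_ ?_, ?_, ?_, ?_⟩
  · have := key h0 k0
    rwa [one_mul] at this
  · have := key h1 k1
    rwa [neg_mul_neg, one_mul] at this
  · have := key h0 k1
    rwa [one_mul] at this
  · have := key h1 k0
    rwa [mul_one] at this
  · simp only [mul_add, add_mul, ext_mul, h00, h11, k00, k11, o1, o2, o3, o4, ext_zero_left,
      add_zero, zero_add]
  · simp only [mul_add, add_mul, ext_mul, h00, h11, k00, k11, o1, o2, o3, o4, ext_zero_left,
      add_zero, zero_add]
  · rw [ext_add_left, ext_add_right, ext_add_right]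
    abel

/-- The symmetry of the product: `σ` exchanges the factors. -/
structure IsSwap {U U' : Type*} [AddCommGroup U] [Module K U] [AddCommGroup U'] [Module K U']
    (E : (V ⊗[K] W) ≃ₗ[K] U) (E' : (W ⊗[K] V) ≃ₗ[K] U') (σ : U ≃ₗ[K] U')
    (p : Module.End K V) (p' : Module.End K W)
    (q : Module.End K U) (D : Submodule K (Module.End K U))
    (q' : Module.End K U') (D' : Submodule K (Module.End K U')) : Prop where
  mem : ∀ y ∈ D, σ.conj y ∈ D'
  par : σ.conj q = q'
  ext : ∀ F G, p * F = F * p → p' * G = G * p' → σ.conj (ext E F G) = SL.ext E' G F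

lemma conj_mul' {U U' : Type*} [AddCommGroup U] [Module K U] [AddCommGroup U'] [Module K U']
    (σ : U ≃ₗ[K] U') (x y : Module.End K U) : σ.conj (x * y) = σ.conj x * σ.conj y :=
  σ.conj_comp _ _

variable {U' : Type*} [AddCommGroup U'] [Module K U'] {E' : (W ⊗[K] V) ≃ₗ[K] U'}
  {q' : Module.End K U'} {D' : Submodule K (Module.End K U')} {σ : U ≃ₗ[K] U'}

/-- **Products.** -/
theorem nk_prod [CharZero K] [FiniteDimensional K V] [FiniteDimensional K W] (hA : IsPA p A)
    (hB : IsPA p' B) (hD : IsPA q D) (hD' : IsPA q' D') (h : IsProd E p A p' B q D)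
    (h' : IsProd E' p' B p A q' D') (hσ : IsSwap E E' σ p p' q D q' D')
    {e : Module.End K V} {f : Module.End K W} (he : Halves p A e) (he' : NK p A (1 - e))
    (hf : Halves p' B f) (hf' : NK p' B (1 - f)) :
    NK q D (ext E e (1 - f) + ext E (1 - e) f) := by
  intro s hs a ha
  have hfm : (1 - f) ∈ B := B.sub_mem hB.one hf.mem
  obtain ⟨e0, h0, e1, h1, -, -, rfl⟩ := he
  obtain ⟨f0, h2, f1, h3, -, -, hff⟩ := hf
  have hprod : ∀ t : K, t * t = 1 → s * t * (s * t) = 1 := by
    intro t ht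
    calc s * t * (s * t) = (s * s) * (t * t) := by ring
      _ = 1 := by rw [hs, ht, one_mul]
  have k1 : ∀ t : K, t * t = 1 → ∀ φ ∈ Pure p A t,
      LinearMap.trace K U (ext E φ (1 - f) * a) = 0 := by
    intro t ht φ hφ
    have hσa : σ.conj a ∈ Pure q' D' s := by
      refine ⟨hσ.mem a ha.1, ?_⟩
      rw [← hσ.par, ← conj_mul', ha.2, map_smul]
    obtain ⟨T, hT, h4⟩ := ptrace_pure hB hA hD' h' ht hσa hφ
    have h5 : LinearMap.trace K U (ext E φ (1 - f) * a) =
        LinearMap.trace K U' (ext E' (1 - f) φ * σ.conj a) := by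
      rw [← hσ.ext φ (1 - f) (hA.comm _ hφ.1) (hB.comm _ hfm), ← conj_mul', LinearMap.trace_conj']
    rw [h5, h4]
    exact hf' _ (hprod t ht) T hT
  have k2 : ∀ t : K, t * t = 1 → ∀ ψ ∈ Pure p' B t,
      LinearMap.trace K U (ext E (1 - (e0 + e1)) ψ * a) = 0 := by
    intro t ht ψ hψ
    obtain ⟨T, hT, h4⟩ := ptrace_pure hA hB hD h ht ha hψ
    rw [h4]
    exact he' _ (hprod t ht) T hT
  have h5 : ext E (e0 + e1) (1 - f) = ext E e0 (1 - f) + ext E e1 (1 - f) := ext_add_left _ _ _ _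
  have h6 : ext E (1 - (e0 + e1)) f = ext E (1 - (e0 + e1)) f0 + ext E (1 - (e0 + e1)) f1 := by
    rw [hff]
    exact ext_add_right _ _ _ _
  rw [h5, h6, add_mul, add_mul, add_mul, map_add, map_add, map_add, k1 1 (by ring) e0 h0,
    k1 (-1) (by ring) e1 h1, k2 1 (by ring) f0 h2, k2 (-1) (by ring) f1 h3]
  simp

/-- **The bounds for a product.** -/
theorem cdim_prod [CharZero K] [FiniteDimensional K V] [FiniteDimensional K W]
    (hA : IsPA p A) (hB : IsPA p' B) (hD : IsPA q D)
    (hD' : IsPA q' D') (h : IsProd E p A p' B q D) (h' : IsProd E' p' B p A q' D')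
    (hσ : IsSwap E E' σ p p' q D q' D') :
    cdim p A * cdim p' B ≤ cdim q D ∧ cdim q D ≤ cdim p A * cdim p' B +
      (finrank K V - cdim p A) * (finrank K W - cdim p' B) := by
  have hfin : FiniteDimensional K U := Module.Finite.equiv E
  obtain ⟨e, he, he'⟩ := exists_halves hA
  obtain ⟨f, hf, hf'⟩ := exists_halves hB
  obtain ⟨g, hg, hg'⟩ := exists_halves hD
  have te := halves_map hA he he'
  have tf := halves_map hB hf hf'
  have ie := he.idem hA
  have jf := hf.idem hB
  have hef : ext E e f * ext E e f = ext E e f := by rw [ext_mul, ie, jf]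
  have hef' : ext E (1 - e) (1 - f) * ext E (1 - e) (1 - f) = ext E (1 - e) (1 - f) := by
    rw [ext_mul, idem_compl ie, idem_compl jf]
  have r1 : finrank K (LinearMap.range (ext E e f)) = cdim p A * cdim p' B := by
    have h5 := Pool.Agent.N536.HK.trace_idem hef
    rw [trace_ext, ← te.1, ← tf.1] at h5
    exact_mod_cast h5.symm
  have r2 : finrank K (LinearMap.range (ext E (1 - e) (1 - f))) =
      (finrank K V - cdim p A) * (finrank K W - cdim p' B) := by
    have h5 := Pool.Agent.N536.HK.trace_idem hef'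
    rw [trace_ext, ← te.2, ← tf.2] at h5
    exact_mod_cast h5.symm
  constructor
  · rw [← r1]
    exact rank_le_cdim hD (halves_ext h hA hB he hf)
  · rw [← r1, ← r2, cdim_eq hD hg hg']
    have hq : ext E e (1 - f) + ext E (1 - e) f ∈ D := by
      refine D.add_mem (h.mem _ he.mem _ (B.sub_mem hB.one hf.mem))
        (h.mem _ (A.sub_mem hA.one he.mem) _ hf.mem)
    refine (rank_halves_le hD hq (nk_prod hA hB hD hD' h h' hσ he he' hf hf') hg).trans ?_
    have h1 : (1 : Module.End K U) - (ext E e (1 - f) + ext E (1 - e) f) =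
        ext E e f + ext E (1 - e) (1 - f) := by
      have h2 : (1 : Module.End K U) = ext E (e + (1 - e)) (f + (1 - f)) := by
        rw [add_sub_cancel, add_sub_cancel, ext_one]
      rw [h2, ext_add_left, ext_add_right, ext_add_right]
      abel
    have h3 : e * (1 - e) = 0 := by rw [mul_sub, ie, mul_one, sub_self]
    have h4 : (1 - e) * e = 0 := by rw [sub_mul, ie, one_mul, sub_self]
    rw [h1, rank_add hef hef' (by rw [ext_mul, h3, ext_zero_left])
      (by rw [ext_mul, h4, ext_zero_left])]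

end Prod

section Sum

variable {U : Type*} [AddCommGroup U] [Module K U]
  {p : Module.End K V} {A : Submodule K (Module.End K V)} {p' : Module.End K W}
  {B : Submodule K (Module.End K W)} {q : Module.End K U} {D : Submodule K (Module.End K U)}

/-- The data of a direct sum. -/
structure IsDSum (i : V →ₗ[K] U) (r : U →ₗ[K] V) (i' : W →ₗ[K] U) (r' : U →ₗ[K] W)
    (p : Module.End K V) (A : Submodule K (Module.End K V)) (p' : Module.End K W)
    (B : Submodule K (Module.End K W)) (q : Module.End K U) (D : Submodule K (Module.End K U)) :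
    Prop where
  ri : r ∘ₗ i = LinearMap.id
  ri' : r' ∘ₗ i' = LinearMap.id
  ri0 : r' ∘ₗ i = 0
  ri0' : r ∘ₗ i' = 0
  sum : i ∘ₗ r + i' ∘ₗ r' = LinearMap.id
  par : q ∘ₗ i = i ∘ₗ p
  par' : q ∘ₗ i' = i' ∘ₗ p'
  parr : r ∘ₗ q = p ∘ₗ r
  parr' : r' ∘ₗ q = p' ∘ₗ r'
  mem : ∀ F ∈ A, i ∘ₗ F ∘ₗ r ∈ D
  mem' : ∀ G ∈ B, i' ∘ₗ G ∘ₗ r' ∈ D
  res : ∀ y ∈ D, r ∘ₗ y ∘ₗ i ∈ A
  res' : ∀ y ∈ D, r' ∘ₗ y ∘ₗ i' ∈ B

/-- **Additivity.** -/
theorem cdim_sum [CharZero K] [FiniteDimensional K V] [FiniteDimensional K W]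
    [FiniteDimensional K U] (hA : IsPA p A) (hB : IsPA p' B) (hD : IsPA q D)
    {i : V →ₗ[K] U} {r : U →ₗ[K] V} {i' : W →ₗ[K] U} {r' : U →ₗ[K] W}
    (h : IsDSum i r i' r' p A p' B q D) : cdim q D = cdim p A + cdim p' B := by
  obtain ⟨e, he, he'⟩ := exists_halves hA
  obtain ⟨f, hf, hf'⟩ := exists_halves hB
  have te := halves_map hA he he'
  have tf := halves_map hB hf hf'
  -- pure operators
  have a1 : ∀ {s : K} {a : Module.End K V}, a ∈ Pure p A s → i ∘ₗ a ∘ₗ r ∈ Pure q D s := by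
    intro s a ha
    refine ⟨h.mem _ ha.1, ?_⟩
    change q ∘ₗ (i ∘ₗ a ∘ₗ r) = s • (i ∘ₗ a ∘ₗ r)
    rw [← LinearMap.comp_assoc, h.par, LinearMap.comp_assoc, ← LinearMap.comp_assoc r a p]
    have : p ∘ₗ a = s • a := ha.2
    rw [this, LinearMap.smul_comp, LinearMap.comp_smul]
  have a2 : ∀ {s : K} {a : Module.End K W}, a ∈ Pure p' B s → i' ∘ₗ a ∘ₗ r' ∈ Pure q D s := by
    intro s a ha
    refine ⟨h.mem' _ ha.1, ?_⟩
    change q ∘ₗ (i' ∘ₗ a ∘ₗ r') = s • (i' ∘ₗ a ∘ₗ r')
    rw [← LinearMap.comp_assoc, h.par', LinearMap.comp_assoc, ← LinearMap.comp_assoc r' a p']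
    have : p' ∘ₗ a = s • a := ha.2
    rw [this, LinearMap.smul_comp, LinearMap.comp_smul]
  have b1 : ∀ {s : K} {y : Module.End K U}, y ∈ Pure q D s → r ∘ₗ y ∘ₗ i ∈ Pure p A s := by
    intro s y hy
    refine ⟨h.res _ hy.1, ?_⟩
    change p ∘ₗ (r ∘ₗ y ∘ₗ i) = s • (r ∘ₗ y ∘ₗ i)
    rw [← LinearMap.comp_assoc, ← h.parr, LinearMap.comp_assoc, ← LinearMap.comp_assoc i y]
    have : q ∘ₗ y = s • y := hy.2
    rw [this, LinearMap.smul_comp, LinearMap.comp_smul]
  have b2 : ∀ {s : K} {y : Module.End K U}, y ∈ Pure q D s → r' ∘ₗ y ∘ₗ i' ∈ Pure p' B s := by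
    intro s y hy
    refine ⟨h.res' _ hy.1, ?_⟩
    change p' ∘ₗ (r' ∘ₗ y ∘ₗ i') = s • (r' ∘ₗ y ∘ₗ i')
    rw [← LinearMap.comp_assoc, ← h.parr', LinearMap.comp_assoc, ← LinearMap.comp_assoc i' y]
    have : q ∘ₗ y = s • y := hy.2
    rw [this, LinearMap.smul_comp, LinearMap.comp_smul]
  -- products
  have m1 : ∀ a b : Module.End K V, (i ∘ₗ a ∘ₗ r : Module.End K U) * (i ∘ₗ b ∘ₗ r) =
      i ∘ₗ (a * b) ∘ₗ r := by
    intro a b
    change (i ∘ₗ a ∘ₗ r) ∘ₗ (i ∘ₗ b ∘ₗ r) = i ∘ₗ (a ∘ₗ b) ∘ₗ r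
    simp only [LinearMap.comp_assoc]
    rw [← LinearMap.comp_assoc (b ∘ₗ r) i r, h.ri, LinearMap.id_comp]
  have m2 : ∀ a b : Module.End K W, (i' ∘ₗ a ∘ₗ r' : Module.End K U) * (i' ∘ₗ b ∘ₗ r') =
      i' ∘ₗ (a * b) ∘ₗ r' := by
    intro a b
    change (i' ∘ₗ a ∘ₗ r') ∘ₗ (i' ∘ₗ b ∘ₗ r') = i' ∘ₗ (a ∘ₗ b) ∘ₗ r'
    simp only [LinearMap.comp_assoc]
    rw [← LinearMap.comp_assoc (b ∘ₗ r') i' r', h.ri', LinearMap.id_comp]
  have m3 : ∀ (a : Module.End K V) (b : Module.End K W),
      (i ∘ₗ a ∘ₗ r : Module.End K U) * (i' ∘ₗ b ∘ₗ r') = 0 := by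
    intro a b
    change (i ∘ₗ a ∘ₗ r) ∘ₗ (i' ∘ₗ b ∘ₗ r') = 0
    simp only [LinearMap.comp_assoc]
    rw [← LinearMap.comp_assoc (b ∘ₗ r') i' r, h.ri0', LinearMap.zero_comp, LinearMap.comp_zero,
      LinearMap.comp_zero]
  have m4 : ∀ (a : Module.End K V) (b : Module.End K W),
      (i' ∘ₗ b ∘ₗ r' : Module.End K U) * (i ∘ₗ a ∘ₗ r) = 0 := by
    intro a b
    change (i' ∘ₗ b ∘ₗ r') ∘ₗ (i ∘ₗ a ∘ₗ r) = 0
    simp only [LinearMap.comp_assoc]
    rw [← LinearMap.comp_assoc (a ∘ₗ r) i r', h.ri0, LinearMap.zero_comp, LinearMap.comp_zero,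
      LinearMap.comp_zero]
  -- traces
  have t1 : ∀ (a : Module.End K V) (y : Module.End K U),
      LinearMap.trace K U ((i ∘ₗ a ∘ₗ r : Module.End K U) * y) =
        LinearMap.trace K V (a * (r ∘ₗ y ∘ₗ i)) := by
    intro a y
    have := LinearMap.trace_comp_comm' (R := K) i (a ∘ₗ r ∘ₗ y)
    change LinearMap.trace K U ((i ∘ₗ a ∘ₗ r) ∘ₗ y) = LinearMap.trace K V (a ∘ₗ (r ∘ₗ y ∘ₗ i))
    simp only [LinearMap.comp_assoc] at this ⊢
    exact this.symm
  have t2 : ∀ (a : Module.End K W) (y : Module.End K U),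
      LinearMap.trace K U ((i' ∘ₗ a ∘ₗ r' : Module.End K U) * y) =
        LinearMap.trace K W (a * (r' ∘ₗ y ∘ₗ i')) := by
    intro a y
    have := LinearMap.trace_comp_comm' (R := K) i' (a ∘ₗ r' ∘ₗ y)
    change LinearMap.trace K U ((i' ∘ₗ a ∘ₗ r') ∘ₗ y) = LinearMap.trace K W (a ∘ₗ (r' ∘ₗ y ∘ₗ i'))
    simp only [LinearMap.comp_assoc] at this ⊢
    exact this.symm
  -- the idempotent
  obtain ⟨g, hg⟩ : ∃ g : Module.End K U, g = i ∘ₗ e ∘ₗ r + i' ∘ₗ f ∘ₗ r' := ⟨_, rfl⟩
  have hg1 : (1 : Module.End K U) - g = i ∘ₗ (1 - e) ∘ₗ r + i' ∘ₗ (1 - f) ∘ₗ r' := by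
    have h1 : (1 : Module.End K U) = i ∘ₗ r + i' ∘ₗ r' := h.sum.symm
    rw [hg, h1, LinearMap.sub_comp, LinearMap.comp_sub, LinearMap.sub_comp, LinearMap.comp_sub]
    change _ = i ∘ₗ (LinearMap.id ∘ₗ r) - i ∘ₗ e ∘ₗ r + (i' ∘ₗ (LinearMap.id ∘ₗ r') - i' ∘ₗ f ∘ₗ r')
    rw [LinearMap.id_comp, LinearMap.id_comp]
    abel
  have hgH : Halves q D g := by
    obtain ⟨e0, h0, e1, h1, h00, h11, rfl⟩ := he
    obtain ⟨f0, k0, f1, k1, k00, k11, rfl⟩ := hf
    refine ⟨i ∘ₗ e0 ∘ₗ r + i' ∘ₗ f0 ∘ₗ r', Submodule.add_mem _ (a1 h0) (a2 k0),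
      i ∘ₗ e1 ∘ₗ r + i' ∘ₗ f1 ∘ₗ r', Submodule.add_mem _ (a1 h1) (a2 k1), ?_, ?_, ?_⟩
    · rw [add_mul, mul_add, mul_add, m1, m2, m3, m4, h00, k00, add_zero, zero_add]
    · rw [add_mul, mul_add, mul_add, m1, m2, m3, m4, h11, k11, add_zero, zero_add]
    · rw [hg]
      simp only [LinearMap.add_comp, LinearMap.comp_add]
      abel
  have hgN : NK q D (1 - g) := by
    intro s hs a ha
    rw [hg1, add_mul, map_add, t1, t2, he' s hs _ (b1 ha), hf' s hs _ (b2 ha), add_zero]
  have hgi := hgH.idem hD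
  have h5 := Pool.Agent.N536.HK.trace_idem hgi
  rw [← cdim_eq hD hgH hgN] at h5
  have h6 : LinearMap.trace K U g = LinearMap.trace K V e + LinearMap.trace K W f := by
    have e1 := t1 e 1
    have e2 := t2 f 1
    have e3 : r ∘ₗ (1 : Module.End K U) ∘ₗ i = (1 : Module.End K V) := h.ri
    have e4 : r' ∘ₗ (1 : Module.End K U) ∘ₗ i' = (1 : Module.End K W) := h.ri'
    rw [e3, mul_one, mul_one] at e1
    rw [e4, mul_one, mul_one] at e2
    rw [hg, map_add, e1, e2]
  rw [h6, ← te.1, ← tf.1] at h5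
  exact_mod_cast h5.symm

end Sum

end Pool.Agent.Run7.h301.SL
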