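import Pool.Agent.Run7.h301.SL.Corner

/-!
# The ratio law and the bound for a tensor product
-/

set_option autoImplicit false
set_option linter.unusedSectionVars false

open Module TensorProduct

namespace Pool.Agent.Run7.h301.SL

open Pool.Agent.H914 Pool.Agent.N536.HK

section Arith

/-- The arithmetic of the ratio law. -/
lemma arith {m α β α' β' c0 c1 : ℕ} (h1 : 1 ≤ α) (h2 : 1 ≤ β) (h1' : 1 ≤ α') (h2' : 1 ≤ β')
    (hs : α + β ≤ m + 1) (k0 : c0 ≠ 0 → α ≠ β ∧ α * β' = α' * β)
    (k1 : c1 ≠ 0 → α ≠ β ∧ α * α' = β * β') (l0 : c0 ≤ α * α' + β * β')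
    (l1 : c1 ≤ α * β' + β * α') :
    (m + 1) ^ 2 * (c0 + c1) + 2 * m * ((α + β) * (α' + β')) ≤
      (m + 1) ^ 2 * ((α + β) * (α' + β')) := by
  have key : m * (α + β) ^ 2 ≤ (m + 1) ^ 2 * (α * β) := by
    obtain ⟨t, ht⟩ := Nat.exists_eq_add_of_le hs
    obtain ⟨a, rfl⟩ := Nat.exists_eq_add_of_le h1
    obtain ⟨b, rfl⟩ := Nat.exists_eq_add_of_le h2
    have hm : m = 1 + a + b + t := by omega
    subst hm
    zify
    nlinarith [mul_nonneg (mul_nonneg (Int.natCast_nonneg a) (Int.natCast_nonneg b))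
      (sq_nonneg ((2 : ℤ) + a + b + t)), mul_nonneg (Int.natCast_nonneg t) (Int.natCast_nonneg a),
      mul_nonneg (Int.natCast_nonneg t) (Int.natCast_nonneg b), Int.natCast_nonneg t,
      mul_nonneg (Int.natCast_nonneg t) (mul_nonneg (Int.natCast_nonneg a) (Int.natCast_nonneg a)),
      mul_nonneg (Int.natCast_nonneg t) (mul_nonneg (Int.natCast_nonneg b) (Int.natCast_nonneg b)),
      mul_nonneg (Int.natCast_nonneg t) (mul_nonneg (Int.natCast_nonneg a) (Int.natCast_nonneg b)),
      mul_nonneg (mul_nonneg (Int.natCast_nonneg t) (Int.natCast_nonneg t)) (Int.natCast_nonneg a),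
      mul_nonneg (mul_nonneg (Int.natCast_nonneg t) (Int.natCast_nonneg t)) (Int.natCast_nonneg b)]
  have hm1 : 1 ≤ m := by omega
  by_cases hc0 : c0 = 0
  · by_cases hc1 : c1 = 0
    · subst hc0 hc1
      rw [add_zero, mul_zero, zero_add]
      apply Nat.mul_le_mul_right
      nlinarith
    · subst hc0
      obtain ⟨-, hr⟩ := k1 hc1
      rw [zero_add]
      have e1 : m * ((α + β) * (α' + β')) ≤ (m + 1) ^ 2 * (α * α') := by
        have e2 : α * (m * ((α + β) * (α' + β'))) ≤ α * ((m + 1) ^ 2 * (α * α')) := by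
          have e3 : α * ((α + β) * (α' + β')) = β' * (α + β) ^ 2 := by
            have : α * (α' + β') = β' * (α + β) := by rw [mul_add, hr]; ring
            calc α * ((α + β) * (α' + β')) = (α + β) * (α * (α' + β')) := by ring
              _ = β' * (α + β) ^ 2 := by rw [this]; ring
          calc α * (m * ((α + β) * (α' + β'))) = m * (α * ((α + β) * (α' + β'))) := by ring
            _ = β' * (m * (α + β) ^ 2) := by rw [e3]; ring
            _ ≤ β' * ((m + 1) ^ 2 * (α * β)) := Nat.mul_le_mul_left _ key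
            _ = α * ((m + 1) ^ 2 * (β * β')) := by ring
            _ = α * ((m + 1) ^ 2 * (α * α')) := by rw [hr]
        exact Nat.le_of_mul_le_mul_left e2 (by omega)
      have e4 : (m + 1) ^ 2 * c1 ≤ (m + 1) ^ 2 * (α * β' + β * α') := Nat.mul_le_mul_left _ l1
      have e5 : (m + 1) ^ 2 * ((α + β) * (α' + β')) = (m + 1) ^ 2 * (α * β' + β * α') +
          ((m + 1) ^ 2 * (α * α') + (m + 1) ^ 2 * (β * β')) := by ring
      rw [e5, ← hr]
      nlinarith
  · obtain ⟨hne, hr⟩ := k0 hc0
    have hc1 : c1 = 0 := by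
      by_contra hc1
      obtain ⟨-, hr'⟩ := k1 hc1
      apply hne
      have e1 : β' * (α * α) = β' * (β * β) := by
        calc β' * (α * α) = α * (α * β') := by ring
          _ = α * (α' * β) := by rw [hr]
          _ = β * (α * α') := by ring
          _ = β * (β * β') := by rw [hr']
          _ = β' * (β * β) := by ring
      exact Nat.mul_self_inj.1 (Nat.eq_of_mul_eq_mul_left (by omega) e1)
    subst hc1
    rw [add_zero]
    have e1 : m * ((α + β) * (α' + β')) ≤ (m + 1) ^ 2 * (α * β') := by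
      have e2 : β * (m * ((α + β) * (α' + β'))) ≤ β * ((m + 1) ^ 2 * (α * β')) := by
        have e3 : β * ((α + β) * (α' + β')) = β' * (α + β) ^ 2 := by
          have : β * (α' + β') = β' * (α + β) := by
            rw [mul_add, mul_comm β α', ← hr]; ring
          calc β * ((α + β) * (α' + β')) = (α + β) * (β * (α' + β')) := by ring
            _ = β' * (α + β) ^ 2 := by rw [this]; ring
        calc β * (m * ((α + β) * (α' + β'))) = m * (β * ((α + β) * (α' + β'))) := by ring
          _ = β' * (m * (α + β) ^ 2) := by rw [e3]; ring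
          _ ≤ β' * ((m + 1) ^ 2 * (α * β)) := Nat.mul_le_mul_left _ key
          _ = β * ((m + 1) ^ 2 * (α * β')) := by ring
      exact Nat.le_of_mul_le_mul_left e2 (by omega)
    have e4 : (m + 1) ^ 2 * c0 ≤ (m + 1) ^ 2 * (α * α' + β * β') := Nat.mul_le_mul_left _ l0
    have e5 : (m + 1) ^ 2 * ((α + β) * (α' + β')) = (m + 1) ^ 2 * (α * α' + β * β') +
        ((m + 1) ^ 2 * (α * β') + (m + 1) ^ 2 * (α' * β)) := by ring
    rw [e5, ← hr]
    nlinarith

end Arith

variable {K V W : Type*} [Field K] [CharZero K] [AddCommGroup V] [Module K V] [AddCommGroup W]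
  [Module K W] [FiniteDimensional K V] [FiniteDimensional K W]
  {U : Type*} [AddCommGroup U] [Module K U] {E : (V ⊗[K] W) ≃ₗ[K] U}
  {p : Module.End K V} {A : Submodule K (Module.End K V)} {p' : Module.End K W}
  {B : Submodule K (Module.End K W)} {q : Module.End K U} {D : Submodule K (Module.End K U)}
  {U' : Type*} [AddCommGroup U'] [Module K U'] {E' : (W ⊗[K] V) ≃ₗ[K] U'}
  {q' : Module.End K U'} {D' : Submodule K (Module.End K U')} {σ : U ≃ₗ[K] U'}

lemma nk_of_max (h : IsPA p A) {ε0 ε1 : Module.End K V} (h0 : IsMaxIdem p A 1 ε0)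
    (h1 : IsMaxIdem p A (-1) ε1) : NK p A (1 - (ε0 + ε1)) := by
  intro s hs a ha
  rcases mul_self_eq_one_iff.1 hs with rfl | rfl
  · have h3 : ε1 * a = 0 := pure_orth h (Ne.symm one_ne_neg_one) h1.mem ha
    have h4 : (1 - (ε0 + ε1)) * a = (1 - ε0) * a - ε1 * a := by
      rw [sub_mul, sub_mul, add_mul, sub_add_eq_sub_sub]
    rw [h4, h3, sub_zero, h0.max a ha]
  · have h3 : ε0 * a = 0 := pure_orth h one_ne_neg_one h0.mem ha
    have h4 : (1 - (ε0 + ε1)) * a = (1 - ε1) * a - ε0 * a := by
      rw [sub_mul, sub_mul, add_mul, sub_add_eq_sub_sub]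
      abel
    rw [h4, h3, sub_zero, h1.max a ha]

lemma trace_pure_total (h : IsPA p A) {ε0 ε1 : Module.End K V} (h0 : IsMaxIdem p A 1 ε0)
    (h1 : IsMaxIdem p A (-1) ε1) {s : K} (hs : s * s = 1) {x : Module.End K V}
    (hx : x ∈ Pure p A s) :
    LinearMap.trace K V (x * (ε0 + ε1)) = LinearMap.trace K V x := by
  have h2 := nk_of_max h h0 h1 s hs x hx
  rw [sub_mul, one_mul, map_sub, sub_eq_zero, LinearMap.trace_mul_comm K (ε0 + ε1)] at h2
  exact h2.symm

lemma orth_right (hA : IsPA p A) (hB : IsPA p' B) (hD : IsPA q D) (h : IsProd E p A p' B q D)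
    {v : Module.End K V} (hv : NK p A v) {t : K} (ht : t * t = 1) {ψ : Module.End K W}
    (hψ : ψ ∈ Pure p' B t) {s : K} (hs : s * s = 1) {a : Module.End K U} (ha : a ∈ Pure q D s) :
    LinearMap.trace K U (ext E v ψ * a) = 0 := by
  obtain ⟨T, hT, h4⟩ := ptrace_pure hA hB hD h ht ha hψ
  rw [h4]
  exact hv _ (by linear_combination (t * t) * hs + ht) T hT

lemma orth_left (hA : IsPA p A) (hB : IsPA p' B) (hD' : IsPA q' D')
    (h' : IsProd E' p' B p A q' D') (hσ : IsSwap E E' σ p p' q D q' D')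
    {w : Module.End K W} (hw : NK p' B w) (hwB : w ∈ B) {t : K} (ht : t * t = 1)
    {φ : Module.End K V} (hφ : φ ∈ Pure p A t) {s : K} (hs : s * s = 1) {a : Module.End K U}
    (ha : a ∈ Pure q D s) : LinearMap.trace K U (ext E φ w * a) = 0 := by
  have hσa : σ.conj a ∈ Pure q' D' s := by
    refine ⟨hσ.mem a ha.1, ?_⟩
    rw [← hσ.par, ← conj_mul', ha.2, map_smul]
  have h5 : LinearMap.trace K U (ext E φ w * a) =
      LinearMap.trace K U' (ext E' w φ * σ.conj a) := by
    rw [← hσ.ext φ w (hA.comm _ hφ.1) (hB.comm _ hwB), ← conj_mul', LinearMap.trace_conj']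
  rw [h5]
  exact orth_right hB hA hD' h' hw ht hφ hs hσa

/-- The traces on the even and the odd part of the first factor. -/
lemma side (hA : IsPA p A) (hB : IsPA p' B) (hD : IsPA q D)
    (h : IsProd E p A p' B q D) {s : K} (hs : s * s = 1) {y : Module.End K U}
    (hy : y ∈ Pure q D s) {e : Module.End K V} (he : Prim A e) {f : Module.End K W} (hf : f ∈ B) :
    ∃ c : K, ∀ r : K, r * r = 1 → LinearMap.trace K U (ext E (ppart p r * e) f * y) =
      r * (c * LinearMap.trace K V (ppart p r * e)) := by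
  obtain ⟨L, hL, hL'⟩ := h.tr
  have hp' : p' * p' = 1 := hB.sq
  have i1 : ∀ (F : Module.End K V) (x : Module.End K U), L (x * ext E F 1) = L x * F := by
    intro F x
    induction x using ext_induction (E := E) with
    | h0 => simp
    | hadd x y hx hy => rw [add_mul, map_add, hx, hy, map_add, add_mul]
    | h F' G => rw [ext_mul, mul_one, hL', hL', smul_mul_assoc]
  have i3 : ∀ (G : Module.End K V) (x : Module.End K U),
      LinearMap.trace K U (ext E G f * x) = LinearMap.trace K V (G * L (x * ext E 1 (f * p'))) := by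
    intro G x
    induction x using ext_induction (E := E) with
    | h0 => simp
    | hadd x y hx hy => rw [mul_add, map_add, hx, hy, add_mul, map_add, mul_add, map_add]
    | h F' G' =>
      rw [ext_mul, ext_mul, trace_ext, hL', mul_one, mul_smul_comm, map_smul, smul_eq_mul,
        mul_comm]
      congr 1
      rw [LinearMap.trace_mul_comm K p', mul_assoc G', mul_assoc f, hp', mul_one,
        LinearMap.trace_mul_comm]
  obtain ⟨T, hT⟩ : ∃ T, T = L (y * ext E 1 f) := ⟨_, rfl⟩
  have hTA : T ∈ A := by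
    rw [hT]
    exact hL _ (hD.mul _ hy.1 _ (h.mem _ hA.one _ hf))
  have hyq : y * q = s • y := by rw [← hD.comm _ hy.1, hy.2]
  have h1 : L (y * ext E 1 (f * p')) = s • (T * p) := by
    have e1 : y * ext E 1 p' = s • (y * ext E p 1) := by
      have e2 : y * q * ext E 1 p' = y * ext E p 1 := by
        rw [h.par, mul_assoc, ext_mul, mul_one, hp']
      rw [← e2, hyq, smul_mul_assoc, smul_smul, hs, one_smul]
    have e3 : ext E 1 (f * p') = ext E 1 p' * ext E 1 f := by
      rw [ext_mul, mul_one, hB.comm _ hf]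
    have e4 : ext E p 1 * ext E 1 f = ext E 1 f * ext E p 1 := by
      rw [ext_mul, ext_mul, one_mul, mul_one, one_mul, mul_one]
    rw [e3, ← mul_assoc, e1, smul_mul_assoc, mul_assoc, e4, ← mul_assoc, map_smul, i1, hT]
  obtain ⟨c, hc⟩ := corner_trace hA he hTA
  refine ⟨s * c, fun r hr => ?_⟩
  have h2 : LinearMap.trace K V (ppart p r * e * (T * p)) =
      r * LinearMap.trace K V (ppart p r * e * T) := by
    rw [← mul_assoc, LinearMap.trace_mul_comm, ← mul_assoc, ← mul_assoc, par_ppart hA.sq hr,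
      smul_mul_assoc, smul_mul_assoc, map_smul, smul_eq_mul]
  rw [i3, h1, mul_smul_comm, map_smul, h2, hc r hr, smul_eq_mul]
  ring

/-- The cross terms. -/
lemma cross (hA : IsPA p A) (hB : IsPA p' B) (hD : IsPA q D) (h : IsProd E p A p' B q D)
    {s : K} (hs : s * s = 1) {y : Module.End K U} (hy : y ∈ Pure q D s) {r r' : K}
    (hr : r * r = 1) (hr' : r' * r' = 1) (hne : s * (r * r') = -1) (e : Module.End K V)
    (f : Module.End K W) :
    LinearMap.trace K U (ext E (ppart p r * e) (ppart p' r' * f) * y) = 0 := by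
  obtain ⟨X, hX⟩ : ∃ X, X = ext E (ppart p r * e) (ppart p' r' * f) := ⟨_, rfl⟩
  have h1 : q * X = (r * r') • X := by
    rw [h.par, hX, ext_mul, ← mul_assoc, ← mul_assoc, par_ppart hA.sq hr, par_ppart hB.sq hr',
      smul_mul_assoc, smul_mul_assoc, ext_smul_left, ext_smul_right, smul_smul]
  have hyq : y * q = s • y := by rw [← hD.comm _ hy.1, hy.2]
  have h2 : LinearMap.trace K U (X * y) = (s * (r * r')) * LinearMap.trace K U (X * y) := by
    have h3 : LinearMap.trace K U (X * (y * q)) = LinearMap.trace K U (q * X * y) := by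
      rw [← mul_assoc, LinearMap.trace_mul_comm, mul_assoc]
    rw [hyq, h1, mul_smul_comm, smul_mul_assoc, map_smul, map_smul, smul_eq_mul, smul_eq_mul] at h3
    linear_combination (-(1 : K)) * LinearMap.trace K U (X * y) * hs + s * h3
  rw [← hX]
  rw [hne] at h2
  have h4 : (2 : K) * LinearMap.trace K U (X * y) = 0 := by linear_combination h2
  exact (mul_eq_zero.1 h4).resolve_left two_ne_zero

end Pool.Agent.Run7.h301.SL
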