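import Pool.Agent.Run7.h301.SL.Defs
import Pool.Agent.Run7.h301.SL.Prod

/-!
# The algebras of operators of a realisation
-/

set_option autoImplicit false
set_option linter.unusedSectionVars false
set_option linter.unusedSimpArgs false
set_option backward.isDefEq.respectTransparency false
set_option backward.defeqAttrib.useBackward true

open CategoryTheory Limits MonoidalCategory Module

namespace Pool.Agent.Run7.h301.SL

open Pool.Agent.Y112.SR Pool.Agent.R484.NC Functor.LaxMonoidal Functor.OplaxMonoidal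

universe v u w

section

variable {C : Type u} [Category.{v} C] [Preadditive C] [MonoidalCategory C] [SymmetricCategory C]
  {K : Type w} [Field K] (R : SuperRealisation C K)

lemma hom_mem (M : C) (f : M ⟶ M) : (R.H.map f).hom ∈ combs R M := Submodule.subset_span ⟨f, rfl⟩

/-- A linear map which sends the operators of endomorphisms to a subspace. -/
lemma combs_le {M : C} {V : Type*} [AddCommGroup V] [Module K V]
    (L : Module.End K (R.H.obj M) →ₗ[K] V) (S : Submodule K V)
    (h : ∀ f : M ⟶ M, L (R.H.map f).hom ∈ S) : ∀ y ∈ combs R M, L y ∈ S := by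
  intro y hy
  have h1 : combs R M ≤ S.comap L := by
    rw [combs, Submodule.span_le]
    rintro _ ⟨f, rfl⟩
    exact h f
  exact h1 hy

lemma isPA (M : C) : IsPA (R.par M).hom (combs R M) where
  sq := by
    have h := congrArg ModuleCat.Hom.hom (R.par_sq M)
    rw [ModuleCat.hom_comp] at h
    exact h
  one := by
    have h := hom_mem R M (𝟙 M)
    rw [CategoryTheory.Functor.map_id, ModuleCat.hom_id] at h
    exact h
  mul := by
    intro a ha b hb
    have h1 : ∀ f : M ⟶ M, (R.H.map f).hom * b ∈ combs R M := by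
      intro f
      refine combs_le R (LinearMap.mulLeft K (R.H.map f).hom) _ (fun g => ?_) b hb
      have h := hom_mem R M (g ≫ f)
      rw [Functor.map_comp, ModuleCat.hom_comp] at h
      exact h
    exact combs_le R (LinearMap.mulRight K b) _ h1 a ha
  comm := by
    intro a ha
    have h1 : ∀ f : M ⟶ M, (LinearMap.mulLeft K (R.par M).hom - LinearMap.mulRight K (R.par M).hom)
        (R.H.map f).hom ∈ (⊥ : Submodule K (Module.End K (R.H.obj M))) := by
      intro f
      have h := congrArg ModuleCat.Hom.hom (R.par_natural f)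
      rw [ModuleCat.hom_comp, ModuleCat.hom_comp] at h
      rw [Submodule.mem_bot, LinearMap.sub_apply, LinearMap.mulLeft_apply,
        LinearMap.mulRight_apply, sub_eq_zero]
      exact h
    have h2 := combs_le R _ _ h1 a ha
    rw [Submodule.mem_bot, LinearMap.sub_apply, LinearMap.mulLeft_apply,
      LinearMap.mulRight_apply, sub_eq_zero] at h2
    exact h2

/-- The isomorphism `R(M) ⊗ R(N) ≅ R(M ⊗ N)`. -/
noncomputable def mu (M N : C) :
    (TensorProduct K (R.H.obj M) (R.H.obj N)) ≃ₗ[K] R.H.obj (M ⊗ N) :=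
  (Functor.Monoidal.μIso R.H M N).toLinearEquiv

/-- Composition with the isomorphism. -/
lemma ext_eq {M N : C} (F : Module.End K (R.H.obj M)) (G : Module.End K (R.H.obj N)) :
    ext (mu R M N) F G =
      (δ R.H M N ≫ (ModuleCat.ofHom F ⊗ₘ ModuleCat.ofHom G) ≫ μ R.H M N).hom := rfl

lemma ext_map {M N : C} (f : M ⟶ M) (g : N ⟶ N) :
    ext (mu R M N) (R.H.map f).hom (R.H.map g).hom = (R.H.map (f ⊗ₘ g)).hom := by
  rw [ext_eq, Functor.Monoidal.map_tensor]
  rfl

lemma par_ext (M N : C) : (R.par (M ⊗ N)).hom = ext (mu R M N) (R.par M).hom (R.par N).hom := by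
  rw [ext_eq]
  have h1 : R.par (M ⊗ N) = δ R.H M N ≫ (R.par M ⊗ₘ R.par N) ≫ μ R.H M N := by
    rw [← R.par_tensor, Functor.Monoidal.δ_μ_assoc]
  exact congrArg ModuleCat.Hom.hom h1

lemma ext_mem {M N : C} {F : Module.End K (R.H.obj M)} (hF : F ∈ combs R M)
    {G : Module.End K (R.H.obj N)} (hG : G ∈ combs R N) :
    ext (mu R M N) F G ∈ combs R (M ⊗ N) := by
  let B : Module.End K (R.H.obj M) →ₗ[K] Module.End K (R.H.obj N) →ₗ[K]
      Module.End K (R.H.obj (M ⊗ N)) :=
    LinearMap.mk₂ K (ext (mu R M N)) (fun a b c => ext_add_left _ a b c)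
      (fun c a b => ext_smul_left _ c a b) (fun a b c => ext_add_right _ a b c)
      (fun c a b => ext_smul_right _ c a b)
  have h1 : ∀ f : M ⟶ M, B.flip G (R.H.map f).hom ∈ combs R (M ⊗ N) := by
    intro f
    rw [LinearMap.flip_apply]
    refine combs_le R (B (R.H.map f).hom) _ (fun g => ?_) G hG
    have h2 : B (R.H.map f).hom (R.H.map g).hom = (R.H.map (f ⊗ₘ g)).hom := ext_map R f g
    rw [h2]
    exact hom_mem R _ _
  exact combs_le R (B.flip G) _ h1 F hF

end

section

variable {C : Type u} [Category.{v} C] [Preadditive C] [Linear ℚ C] [MonoidalCategory C]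
  [SymmetricCategory C] [RightRigidCategory C] {K : Type w} [Field K] (R : SuperRealisation C K)

lemma pt_eq {M N : C} (L : Module.End K (R.H.obj (M ⊗ N)) →ₗ[K] Module.End K (R.H.obj M))
    (hL : ∀ F G, L (ext (mu R M N) F G) =
      LinearMap.trace K (R.H.obj N) ((R.par N).hom * G) • F) (z : Module.End K (R.H.obj (M ⊗ N))) :
    (pt R (μ R.H M N ≫ ModuleCat.ofHom z ≫ δ R.H M N)).hom = L z := by
  have hc := R_charZero R
  have h2 : (2 : K) ≠ 0 := two_ne_zero
  have hM := R.finite M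
  have hN := R.finite N
  have hadd : ∀ x y : Module.End K (R.H.obj (M ⊗ N)),
      μ R.H M N ≫ ModuleCat.ofHom (x + y) ≫ δ R.H M N =
        μ R.H M N ≫ ModuleCat.ofHom x ≫ δ R.H M N + μ R.H M N ≫ ModuleCat.ofHom y ≫ δ R.H M N := by
    intro x y
    rw [ModuleCat.ofHom_add, Preadditive.add_comp, Preadditive.comp_add]
  induction z using ext_induction (E := mu R M N) with
  | h0 =>
    have h3 := pt_add R (M := M) (N := N) 0 0
    rw [add_zero, left_eq_add] at h3
    have h4 : μ R.H M N ≫ ModuleCat.ofHom (0 : Module.End K (R.H.obj (M ⊗ N))) ≫ δ R.H M N = 0 := by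
      have h5 := hadd 0 0
      rwa [add_zero, left_eq_add] at h5
    rw [h4, h3, map_zero]
    rfl
  | hadd x y hx hy => rw [hadd, pt_add, ModuleCat.hom_add, hx, hy, map_add]
  | h F G =>
    have h3 : ModuleCat.ofHom (ext (mu R M N) F G) =
        δ R.H M N ≫ (ModuleCat.ofHom F ⊗ₘ ModuleCat.ofHom G) ≫ μ R.H M N := by
      rw [ext_eq]
      rfl
    rw [h3]
    simp only [Category.assoc, Functor.Monoidal.μ_δ_assoc, Functor.Monoidal.μ_δ, Category.comp_id]
    rw [pt_tensor R h2, hL, ModuleCat.hom_smul]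
    rfl

lemma isProd (M N : C) : IsProd (mu R M N) (R.par M).hom (combs R M) (R.par N).hom (combs R N)
    (R.par (M ⊗ N)).hom (combs R (M ⊗ N)) where
  par := par_ext R M N
  mem := fun F hF G hG => ext_mem R hF hG
  tr := by
    have hM := R.finite M
    have hN := R.finite N
    obtain ⟨L, hL⟩ := exists_ptr (mu R M N) (R.par N).hom
    refine ⟨L, ?_, hL⟩
    refine combs_le R L _ fun y => ?_
    have h1 := pt_eq R L hL (R.H.map y).hom
    have h2 : μ R.H M N ≫ ModuleCat.ofHom (R.H.map y).hom ≫ δ R.H M N =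
        μ R.H M N ≫ R.H.map y ≫ δ R.H M N := rfl
    rw [h2, ← map_ptr] at h1
    rw [← h1]
    exact hom_mem R _ _

/-- The symmetry, as a linear equivalence. -/
noncomputable def sw (M N : C) : R.H.obj (M ⊗ N) ≃ₗ[K] R.H.obj (N ⊗ M) :=
  (R.H.mapIso (β_ M N)).toLinearEquiv

lemma sw_conj {M N : C} (y : Module.End K (R.H.obj (M ⊗ N))) : (sw R M N).conj y =
    (R.H.map (β_ M N).inv ≫ ModuleCat.ofHom y ≫ R.H.map (β_ M N).hom).hom := rfl

lemma swap_ext {M N : C} (f : R.H.obj M ⟶ R.H.obj M) (g : R.H.obj N ⟶ R.H.obj N)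
    (hf : f ≫ R.par M = R.par M ≫ f) (hg : g ≫ R.par N = R.par N ≫ g) :
    (f ⊗ₘ g) ≫ μ R.H M N ≫ R.H.map (β_ M N).hom =
      μ R.H M N ≫ R.H.map (β_ M N).hom ≫ δ R.H N M ≫ (g ⊗ₘ f) ≫ μ R.H N M := by
  have hc := R_charZero R
  have h2 : (2 : K) ≠ 0 := two_ne_zero
  have e1 : (f ⊗ₘ g) ≫ (𝟙 _ + R.par M ▷ R.H.obj N + R.H.obj M ◁ R.par N - (R.par M ⊗ₘ R.par N)) =
      (𝟙 _ + R.par M ▷ R.H.obj N + R.H.obj M ◁ R.par N - (R.par M ⊗ₘ R.par N)) ≫ (f ⊗ₘ g) := by
    simp only [Preadditive.sub_comp, Preadditive.add_comp, Preadditive.comp_sub,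
      Preadditive.comp_add, Category.id_comp, Category.comp_id]
    have a1 : (f ⊗ₘ g) ≫ R.par M ▷ R.H.obj N = R.par M ▷ R.H.obj N ≫ (f ⊗ₘ g) := by
      rw [← MonoidalCategory.tensorHom_id, MonoidalCategory.tensorHom_comp_tensorHom,
        MonoidalCategory.tensorHom_comp_tensorHom, hf, Category.id_comp, Category.comp_id]
    have a2 : (f ⊗ₘ g) ≫ R.H.obj M ◁ R.par N = R.H.obj M ◁ R.par N ≫ (f ⊗ₘ g) := by
      rw [← MonoidalCategory.id_tensorHom, MonoidalCategory.tensorHom_comp_tensorHom,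
        MonoidalCategory.tensorHom_comp_tensorHom, hg, Category.id_comp, Category.comp_id]
    have a3 : (f ⊗ₘ g) ≫ (R.par M ⊗ₘ R.par N) = (R.par M ⊗ₘ R.par N) ≫ (f ⊗ₘ g) := by
      rw [MonoidalCategory.tensorHom_comp_tensorHom,
        MonoidalCategory.tensorHom_comp_tensorHom, hf, hg]
    rw [a1, a2, a3]
  have h3 := R.symm M N
  have h4 : (2 : K) • ((f ⊗ₘ g) ≫ μ R.H M N ≫ R.H.map (β_ M N).hom) =
      (2 : K) • (μ R.H M N ≫ R.H.map (β_ M N).hom ≫ δ R.H N M ≫ (g ⊗ₘ f) ≫ μ R.H N M) := by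
    rw [← Linear.comp_smul, h3, reassoc_of% e1, BraidedCategory.braiding_naturality_assoc]
    have h5 : (2 : K) • (μ R.H M N ≫ R.H.map (β_ M N).hom ≫ δ R.H N M ≫ (g ⊗ₘ f) ≫ μ R.H N M) =
        ((2 : K) • (μ R.H M N ≫ R.H.map (β_ M N).hom)) ≫ δ R.H N M ≫ (g ⊗ₘ f) ≫ μ R.H N M := by
      rw [Linear.smul_comp, Category.assoc]
    rw [h5, h3]
    simp only [Category.assoc, Functor.Monoidal.μ_δ_assoc]
  have h6 := congrArg (fun z => (2 : K)⁻¹ • z) h4
  simpa only [smul_smul, inv_mul_cancel₀ h2, one_smul] using h6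

lemma isSwap (M N : C) : IsSwap (mu R M N) (mu R N M) (sw R M N) (R.par M).hom (R.par N).hom
    (R.par (M ⊗ N)).hom (combs R (M ⊗ N)) (R.par (N ⊗ M)).hom (combs R (N ⊗ M)) where
  mem := by
    refine combs_le R (sw R M N).conj.toLinearMap _ fun f => ?_
    have h1 : (sw R M N).conj (R.H.map f).hom =
        (R.H.map ((β_ M N).inv ≫ f ≫ (β_ M N).hom)).hom := by
      rw [sw_conj, Functor.map_comp, Functor.map_comp]
      rfl
    rw [LinearEquiv.coe_coe, h1]
    exact hom_mem R _ _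
  par := by
    rw [sw_conj]
    have h1 : R.H.map (β_ M N).inv ≫ R.par (M ⊗ N) ≫ R.H.map (β_ M N).hom = R.par (N ⊗ M) := by
      rw [← R.par_natural, ← Functor.map_comp_assoc, Iso.inv_hom_id, CategoryTheory.Functor.map_id,
        Category.id_comp]
    exact congrArg ModuleCat.Hom.hom h1
  ext := by
    intro F G hF hG
    have hF' : ModuleCat.ofHom F ≫ R.par M = R.par M ≫ ModuleCat.ofHom F := ModuleCat.hom_ext hF
    have hG' : ModuleCat.ofHom G ≫ R.par N = R.par N ≫ ModuleCat.ofHom G := ModuleCat.hom_ext hG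
    have h1 := swap_ext R _ _ hF' hG'
    rw [sw_conj]
    have h2 : ModuleCat.ofHom (ext (mu R M N) F G) =
        δ R.H M N ≫ (ModuleCat.ofHom F ⊗ₘ ModuleCat.ofHom G) ≫ μ R.H M N := by
      rw [ext_eq]
      rfl
    rw [h2, ext_eq]
    simp only [Category.assoc]
    rw [h1, Functor.Monoidal.δ_μ_assoc, ← Functor.map_comp_assoc, Iso.inv_hom_id,
      CategoryTheory.Functor.map_id, Category.id_comp]

end

end Pool.Agent.Run7.h301.SL
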